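import Pool.Agent.Work.MP_b29d7f_nt.FF.Lower

/-!
# Block BALL: an optimal set whose potential almost attains the lower bound is almost a box
-/

set_option linter.unusedSectionVars false

namespace Pool.Agent.Work.MP_b29d7f_nt.FF

open Finset Polynomial
open Pool.Agent.Work.MP_b29d7f_nt.Ded

universe u

open Pack

theorem Pack.card_filter_cells {R : Type u} [CommRing R] [IsDedekindDomain R]
    [Ring.HasFiniteQuotients R] [Infinite R] {S : Type u} [Fintype S] (P : Pack R S) {m : S → ℤ}
    (hm : (P.c₀ : ℤ) ≤ P.deg m) {M : S → Finset R}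
    (hM : ∀ v, P.Sep v (m v) (M v)) {A : Finset R} (hA : ∀ y, y ∈ A ↔ P.InCells m M y) (v : S)
    (p : R → Prop) [DecidablePred p] (hp : ∀ b c, P.Near v (m v) b c → (p b ↔ p c)) :
    ((A.filter p).card : ℝ) = ((A.card : ℝ) / (M v).card) * ((M v).filter p).card := by
  have h := P.sum_cells hm hM hA v (fun b => if p b then (1 : ℝ) else 0) (fun b c hbc => by
    simp only [hp b c hbc])
  rw [← Finset.sum_filter, ← Finset.sum_filter, Finset.sum_const, Finset.sum_const, nsmul_eq_mul,
    nsmul_eq_mul, mul_one, mul_one] at h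
  exact h

/-- the product of the approximations -/
theorem prod_approx {S : Type u} [Fintype S] [Nonempty S] {τ : ℝ} (h0 : 0 < τ)
    (hτ : τ ≤ 1 / (4 * Fintype.card S)) {s r : S → ℝ} (hs : ∀ v, 0 < s v)
    (h : ∀ v, |s v - r v| ≤ τ * s v) :
    3 / 4 * ∏ v, s v ≤ ∏ v, r v ∧ ∏ v, r v ≤ 4 / 3 * ∏ v, s v := by
  have hw : (1 : ℝ) ≤ Fintype.card S := by exact_mod_cast Fintype.card_pos
  have hw' : τ * Fintype.card S ≤ 1 / 4 := by
    have h1 := mul_le_mul_of_nonneg_right hτ (show (0 : ℝ) ≤ Fintype.card S by linarith)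
    have h2 : 1 / (4 * (Fintype.card S : ℝ)) * Fintype.card S = 1 / 4 := by field_simp
    linarith
  have hτ1 : τ ≤ 1 / 4 := by nlinarith
  have hP : 0 < ∏ v, s v := Finset.prod_pos fun v _ => hs v
  have hr1 : ∀ v, (1 - τ) * s v ≤ r v := fun v => by
    have := (abs_le.mp (h v)).2
    linarith
  have hr2 : ∀ v, r v ≤ (1 + τ) * s v := fun v => by
    have := (abs_le.mp (h v)).1
    linarith
  have hb : 3 / 4 ≤ (1 - τ) ^ Fintype.card S := by
    have h1 := one_add_mul_le_pow (a := -τ) (by linarith) (Fintype.card S)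
    have h2 : 1 + -τ = 1 - τ := by ring
    rw [h2] at h1
    linarith
  have hb' : (1 + τ) ^ Fintype.card S ≤ 4 / 3 := by
    have h1 : (1 + τ) ^ Fintype.card S * (1 - τ) ^ Fintype.card S ≤ 1 := by
      rw [← mul_pow]
      refine pow_le_one₀ (mul_nonneg (by linarith) (by linarith)) ?_
      nlinarith
    have h2 : 0 < (1 + τ) ^ Fintype.card S := by positivity
    nlinarith
  constructor
  · have h1 : ∏ v, (1 - τ) * s v ≤ ∏ v, r v :=
      Finset.prod_le_prod (fun v _ => mul_nonneg (by linarith) (hs v).le) fun v _ => hr1 v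
    rw [Finset.prod_mul_distrib, Finset.prod_const, Finset.card_univ] at h1
    exact (mul_le_mul_of_nonneg_right hb hP.le).trans h1
  · have h1 : ∏ v, r v ≤ ∏ v, (1 + τ) * s v :=
      Finset.prod_le_prod (fun v _ => (mul_nonneg (by linarith) (hs v).le).trans (hr1 v))
        fun v _ => hr2 v
    rw [Finset.prod_mul_distrib, Finset.prod_const, Finset.card_univ] at h1
    exact h1.trans (mul_le_mul_of_nonneg_right hb' hP.le)

/-- BALL -/
theorem stmt_Ball (hTight : Stmt_Tight.{u}) (hCells : Stmt_Cells.{u}) (hPot : Stmt_Pot.{u}) :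
    Stmt_Ball.{u} := by
  classical
  intro R _ _ _ _ S _ _ P τ hτ
  have hw : (1 : ℝ) ≤ Fintype.card S := by exact_mod_cast Fintype.card_pos
  have hq := P.one_lt_q'
  have hq2 : (2 : ℝ) ≤ P.q := by exact_mod_cast P.two_le_q
  set τ' : ℝ := min (τ / 4) (1 / (4 * Fintype.card S)) with hτ'
  have hτ'0 : 0 < τ' := lt_min (by positivity) (by positivity)
  have hτ'1 : τ' ≤ τ / 4 := min_le_left _ _
  have hτ'2 : τ' ≤ 1 / (4 * Fintype.card S) := min_le_right _ _
  obtain ⟨eB, heB, hTB⟩ := stmt_TreeB R S P τ' hτ'0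
  set ε : ℝ := min (eB / 4) (min (τ / 4) (1 / 4)) with hε
  have hε0 : 0 < ε := lt_min (by positivity) (lt_min (by positivity) (by norm_num))
  have hε1 : ε ≤ eB / 4 := min_le_left _ _
  have hε2 : ε ≤ τ / 4 := (min_le_right _ _).trans (min_le_left _ _)
  have hε3 : ε ≤ 1 / 4 := (min_le_right _ _).trans (min_le_right _ _)
  obtain ⟨j₀, hj₀⟩ := key hTight hCells hPot P hε0
  refine ⟨eB / 4, j₀, by positivity, fun j hj A hA hpot => ?_⟩
  obtain ⟨m, M, η, x, hm, hM, hne, hMA, hη0, hη1, hcard, hx, hxM, hgap, hkey⟩ := hj₀ j hj A hA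
  have hn : (0 : ℝ) < (P.q : ℝ) ^ j := pow_pos P.q_pos' j
  set n : ℝ := (P.q : ℝ) ^ j with hndef
  set A' : Finset R := A.filter fun y => P.InCells m M y with hA'
  have hA'mem : ∀ y, y ∈ A' ↔ P.InCells m M y := by
    intro y
    rw [hA', Finset.mem_filter]
    exact ⟨fun h => h.2, fun h => ⟨hMA y h, h⟩⟩
  have hsub : A' ⊆ A := Finset.filter_subset _ _
  have hAcard : (A.card : ℝ) = n := by rw [hA.card]; push_cast; rfl
  have hN2 : (A'.card : ℝ) ≤ n := by
    rw [← hAcard]
    exact_mod_cast Finset.card_le_card hsub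
  have hN1 : 3 / 4 * n ≤ A'.card := by
    refine le_trans ?_ hcard
    exact mul_le_mul_of_nonneg_right (by linarith) hn.le
  set N : ℝ := (A'.card : ℝ) with hN
  have hN0 : 0 < N := by linarith
  have hs0 : ∀ v, (0 : ℝ) < (M v).card := fun v => by exact_mod_cast Finset.card_pos.mpr (hne v)
  -- the defects are small
  have hdef : ∀ v, P.defect m M x v ≤ (M v).card * eB := by
    intro v
    have h1 : N / (M v).card * P.defect m M x v ≤ ∑ v, N / (M v).card * P.defect m M x v :=
      Finset.single_le_sum (f := fun v => N / (M v).card * P.defect m M x v)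
        (fun w _ => mul_nonneg (div_nonneg hN0.le (hs0 w).le) (P.defect_nonneg (hM w) (hne w) x))
        (Finset.mem_univ v)
    have h2 : N / (M v).card * P.defect m M x v ≤ n * (eB / 2) := by
      have h3 : n * (j - P.χ - P.cc + eB / 4) = n * (j - P.χ - P.cc - ε) + n * (eB / 4 + ε) := by ring
      have h4 : n * (eB / 4 + ε) ≤ n * (eB / 2) := mul_le_mul_of_nonneg_left (by linarith) hn.le
      linarith
    have h3 : N / (M v).card * P.defect m M x v = N * (P.defect m M x v / (M v).card) := by ring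
    rw [h3] at h2
    have h4 : 0 ≤ P.defect m M x v / (M v).card :=
      div_nonneg (P.defect_nonneg (hM v) (hne v) x) (hs0 v).le
    have h5 : P.defect m M x v / (M v).card ≤ eB := by
      have h6 : n / 2 * (P.defect m M x v / (M v).card) ≤ n / 2 * eB := by
        have h7 : n / 2 * (P.defect m M x v / (M v).card) ≤
          N * (P.defect m M x v / (M v).card) := mul_le_mul_of_nonneg_right (by linarith) h4
        linarith
      exact le_of_mul_le_mul_left h6 (by positivity)
    rw [div_le_iff₀ (hs0 v)] at h5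
    linarith
  have hTB' : ∀ v, ∃ a : ℕ, |((M v).card : ℝ) - ((P.q : ℝ) ^ P.d v) ^ a| ≤ τ' * (M v).card ∧
      (((M v).filter fun c => ¬ P.Near v (m v + a) x c).card : ℝ) ≤ τ' * (M v).card := by
    intro v
    refine hTB v (m v) (M v) (hM v) (hne v) x ?_
    have h1 := hdef v
    unfold Pack.defect at h1
    linarith
  choose a ha1 ha2 using hTB'
  have hdiff : ∀ (p : R → Prop) [DecidablePred p],
      ((A.filter p).card : ℝ) ≤ η * n + ((A'.filter p).card : ℝ) := by
    intro p _
    have h1 : A.filter p ⊆ (A \ A') ∪ A'.filter p := by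
      intro b hb
      rw [Finset.mem_filter] at hb
      rw [Finset.mem_union]
      by_cases hb' : b ∈ A'
      · exact Or.inr (Finset.mem_filter.mpr ⟨hb', hb.2⟩)
      · exact Or.inl (Finset.mem_sdiff.mpr ⟨hb.1, hb'⟩)
    have h2 := (Finset.card_le_card h1).trans (Finset.card_union_le _ _)
    have h3 := Finset.card_sdiff_add_card_eq_card hsub
    have h4 : ((A \ A').card : ℝ) + N = n := by
      rw [← hAcard, hN]
      exact_mod_cast h3
    have h5 : ((A.filter p).card : ℝ) ≤ ((A \ A').card : ℝ) + ((A'.filter p).card : ℝ) := by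
      exact_mod_cast h2
    have h6 : (1 - η) * n = n - η * n := by ring
    linarith
  refine ⟨fun v => m v + a v, ?_, ⟨x, hx, fun v => ?_⟩, fun v y => ?_⟩
  · -- the degree
    obtain ⟨hp1, hp2⟩ := prod_approx hτ'0 hτ'2 hs0 ha1
    have hNeq := P.card_of_inCells hm hM hA'mem
    rw [← hN] at hNeq
    have hdeg : P.deg (fun v => m v + a v) = P.deg m + ∑ v, (P.d v : ℤ) * a v := by
      unfold Pack.deg
      rw [← Finset.sum_add_distrib]
      exact Finset.sum_congr rfl fun v _ => by ring
    have hprod : ∏ v, ((P.q : ℝ) ^ P.d v) ^ a v = (P.q : ℝ) ^ (∑ v, (P.d v : ℤ) * a v) := by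
      have h1 : (P.q : ℝ) ^ (∑ v, (P.d v : ℤ) * a v) = (P.q : ℝ) ^ (∑ v, P.d v * a v) := by
        rw [← zpow_natCast]
        push_cast
        rfl
      rw [h1, ← Finset.prod_pow_eq_pow_sum]
      exact Finset.prod_congr rfl fun v _ => by rw [pow_mul]
    have hE : (P.q : ℝ) ^ (P.deg (fun v => m v + a v) + P.χ) =
        (P.q : ℝ) ^ (P.deg m + P.χ) * ∏ v, ((P.q : ℝ) ^ P.d v) ^ a v := by
      rw [hprod, ← zpow_add₀ P.q_pos'.ne', hdeg]
      congr 1
      ring
    have hz : 0 < (P.q : ℝ) ^ (P.deg m + P.χ) := zpow_pos P.q_pos' _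
    have h1 : 3 / 4 * N ≤ (P.q : ℝ) ^ (P.deg (fun v => m v + a v) + P.χ) := by
      rw [hE, hNeq]
      have := mul_le_mul_of_nonneg_left hp1 hz.le
      linarith
    have h2 : (P.q : ℝ) ^ (P.deg (fun v => m v + a v) + P.χ) ≤ 4 / 3 * N := by
      rw [hE, hNeq]
      have := mul_le_mul_of_nonneg_left hp2 hz.le
      linarith
    have h3 : (P.q : ℝ) ^ ((j : ℤ) - 1) < (P.q : ℝ) ^ (P.deg (fun v => m v + a v) + P.χ) := by
      rw [zpow_sub_one₀ P.q_pos'.ne', zpow_natCast, ← hndef]
      have h4 : n * (P.q : ℝ)⁻¹ ≤ n * 2⁻¹ :=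
        mul_le_mul_of_nonneg_left (inv_anti₀ (by norm_num) hq2) hn.le
      linarith
    have h4 : (P.q : ℝ) ^ (P.deg (fun v => m v + a v) + P.χ) < (P.q : ℝ) ^ ((j : ℤ) + 1) := by
      rw [zpow_add_one₀ P.q_pos'.ne', zpow_natCast, ← hndef]
      have h5 : n * 2 ≤ n * P.q := mul_le_mul_of_nonneg_left hq2 hn.le
      linarith
    rw [zpow_lt_zpow_iff_right₀ hq] at h3 h4
    omega
  · -- almost all of `A` is in the ball of `x`
    refine (hdiff _).trans ?_
    rw [P.card_filter_cells hm hM hA'mem v (fun b => ¬ P.Near v (m v + a v) x b) (fun b c hbc => by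
      have hbc' := near_mono (l' := m v + a v) (by omega) hbc
      exact not_congr ⟨fun h => near_trans h hbc', fun h => near_trans h (near_symm hbc')⟩)]
    have h1 := mul_le_mul_of_nonneg_left (ha2 v) (show 0 ≤ N / (M v).card from
      div_nonneg hN0.le (hs0 v).le)
    have h2 : N / (M v).card * (τ' * (M v).card) = τ' * N := by
      rw [mul_comm τ', ← mul_assoc, div_mul_cancel₀ _ (hs0 v).ne', mul_comm]
    rw [h2] at h1
    have h3 : τ' * N ≤ τ / 4 * n := mul_le_mul hτ'1 hN2 hN0.le (by positivity)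
    have h4 : η * n ≤ τ / 4 * n := mul_le_mul_of_nonneg_right (hη1.trans hε2) hn.le
    have h5 : 0 ≤ τ * n := by positivity
    linarith
  · -- smaller balls
    have h0 : 0 ≤ τ * n := by positivity
    have hηn : η * n ≤ τ / 4 * n := mul_le_mul_of_nonneg_right (hη1.trans hε2) hn.le
    rcases Nat.eq_zero_or_pos (a v) with hav | hav
    · -- inside a cell
      have h1 : ∀ b ∈ A.filter (fun b => P.Near v (m v - 1) y b),
          ∀ b' ∈ A.filter (fun b => P.Near v (m v - 1) y b), (1 : ℝ) ≤ P.gap m b b' := by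
        intro b hb b' hb'
        rw [Finset.mem_filter] at hb hb'
        rcases eq_or_ne b b' with h | h
        · rw [h, P.gap_self]
          have h2 : (1 : ℤ) ≤ P.deg m := le_trans (by exact_mod_cast P.one_le_c₀) hm
          exact_mod_cast h2
        · refine le_trans ?_ (P.le_gap_of_near h (v := v) (near_trans (near_symm hb.2) hb'.2))
          exact_mod_cast P.one_le_d v
      have hdeg0 : 0 ≤ P.deg m := le_trans (by positivity) hm
      have h2 : (((A.filter fun b => P.Near v (m v - 1) y b).card : ℝ)) ^ 2 ≤ (η * n) ^ 2 := by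
        refine le_trans ?_ hgap
        have h3 : ∑ b ∈ A.filter (fun b => P.Near v (m v - 1) y b),
            ∑ b' ∈ A.filter (fun b => P.Near v (m v - 1) y b), P.gap m b b' ≤
            ∑ x ∈ A, ∑ b ∈ A, P.gap m x b :=
          (Finset.sum_le_sum fun b _ => Finset.sum_le_sum_of_subset_of_nonneg
            (Finset.filter_subset _ _) fun b' _ _ => P.gap_nonneg hdeg0 b b').trans
          (Finset.sum_le_sum_of_subset_of_nonneg (Finset.filter_subset _ _) fun b _ _ =>
            Finset.sum_nonneg fun b' _ => P.gap_nonneg hdeg0 b b')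
        refine le_trans ?_ h3
        have h4 : ∑ b ∈ A.filter (fun b => P.Near v (m v - 1) y b),
            ∑ b' ∈ A.filter (fun b => P.Near v (m v - 1) y b), (1 : ℝ) ≤
            ∑ b ∈ A.filter (fun b => P.Near v (m v - 1) y b),
            ∑ b' ∈ A.filter (fun b => P.Near v (m v - 1) y b), P.gap m b b' :=
          Finset.sum_le_sum fun b hb => Finset.sum_le_sum fun b' hb' => h1 b hb b' hb'
        refine le_trans (le_of_eq ?_) h4
        rw [Finset.sum_const, Finset.sum_const, nsmul_eq_mul, nsmul_eq_mul]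
        ring
      have h3 := (pow_le_pow_iff_left₀ (by positivity) (by positivity) two_ne_zero).mp h2
      have h4 : m v + ((a v : ℕ) : ℤ) - 1 = m v - 1 := by rw [hav]; push_cast; ring
      simp only [h4]
      have h5 : (1 / 2 + τ) * n = n / 2 + τ * n := by ring
      linarith
    · obtain ⟨a', ha'⟩ : ∃ a', a v = a' + 1 := ⟨a v - 1, by omega⟩
      have hlev : m v + ((a v : ℕ) : ℤ) - 1 = m v + a' := by rw [ha']; push_cast; ring
      simp only [hlev]
      refine (hdiff _).trans ?_
      rw [P.card_filter_cells hm hM hA'mem v (fun b => P.Near v (m v + a') y b) (fun b c hbc => by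
        have hbc' := near_mono (l' := m v + a') (by omega) hbc
        exact ⟨fun h => near_trans h hbc', fun h => near_trans h (near_symm hbc')⟩)]
      have h1 := P.branch (v := v) (l := m v) (n := a')
        (F := (M v).filter fun c => P.Near v (m v + a') y c)
        (fun b hb c hc => near_trans (near_symm (Finset.mem_filter.mp hb).2)
          (Finset.mem_filter.mp hc).2)
        (fun b hb c hc h => hM v b (Finset.mem_filter.mp hb).1 c (Finset.mem_filter.mp hc).1 h)
      have h2 : (((M v).filter fun c => P.Near v (m v + a') y c).card : ℝ) ≤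
          ((P.q : ℝ) ^ P.d v) ^ a' := by exact_mod_cast h1
      have hQ : (2 : ℝ) ≤ (P.q : ℝ) ^ P.d v := by
        calc (2 : ℝ) ≤ P.q := hq2
          _ = (P.q : ℝ) ^ 1 := (pow_one _).symm
          _ ≤ (P.q : ℝ) ^ P.d v := pow_le_pow_right₀ hq.le (P.one_le_d v)
      have h3 : 2 * ((P.q : ℝ) ^ P.d v) ^ a' ≤ (1 + τ') * (M v).card := by
        have h4 := (abs_le.mp (ha1 v)).1
        rw [ha', pow_succ] at h4
        have h5 : ((P.q : ℝ) ^ P.d v) ^ a' * 2 ≤ ((P.q : ℝ) ^ P.d v) ^ a' * (P.q : ℝ) ^ P.d v :=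
          mul_le_mul_of_nonneg_left hQ (by positivity)
        linarith
      have h4 : N / (M v).card * (((M v).filter fun c => P.Near v (m v + a') y c).card : ℝ) ≤
          N / (M v).card * ((1 + τ') / 2 * (M v).card) :=
        mul_le_mul_of_nonneg_left (by linarith) (div_nonneg hN0.le (hs0 v).le)
      have h5 : N / (M v).card * ((1 + τ') / 2 * (M v).card) = (1 + τ') / 2 * N := by
        rw [mul_comm ((1 + τ') / 2), ← mul_assoc, div_mul_cancel₀ _ (hs0 v).ne', mul_comm]
      rw [h5] at h4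
      have h6 : (1 + τ') / 2 * N ≤ (1 + τ / 4) / 2 * n :=
        mul_le_mul (by linarith) hN2 hN0.le (by positivity)
      have h7 : (1 + τ / 4) / 2 * n = n / 2 + τ * n / 8 := by ring
      have h8 : (1 / 2 + τ) * n = n / 2 + τ * n := by ring
      linarith

end Pool.Agent.Work.MP_b29d7f_nt.FF
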