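import Pool.Agent.Work.MP_b29d7f_nt.FF.Basic

/-!
# BOXPROD: the product of all nonzero elements of a box
-/

set_option linter.unusedSectionVars false

namespace Pool.Agent.Work.MP_b29d7f_nt.FF

open Finset Polynomial
open Pool.Agent.Work.MP_b29d7f_nt.Ded

universe u

theorem geom_tel {q : ℝ} {d j : ℕ} (K : ℕ) (hK : K * d ≤ j) :
    ∑ i ∈ Icc 1 K, q ^ (j - i * d) * (q ^ d - 1) = q ^ j - q ^ (j - K * d) := by
  induction K with
  | zero => simp
  | succ K ih =>
    have h1 : K * d ≤ j := le_trans (Nat.mul_le_mul_right d (Nat.le_succ K)) hK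
    rw [Finset.sum_Icc_succ_top (by omega), ih h1]
    have h2 : j - K * d = (j - (K + 1) * d) + d := by
      have h3 : (K + 1) * d = K * d + d := by ring
      omega
    rw [h2, pow_add]
    ring

theorem geom_ge {q : ℝ} (hq : 1 < q) {d j : ℕ} (hd : 1 ≤ d) :
    q ^ j * (d / (q ^ d - 1)) - (d / (q ^ d - 1) * q ^ d + j) ≤
      d * ∑ i ∈ Icc 1 (j / d), (q ^ (j - i * d) - 1) := by
  have hK : j / d * d ≤ j := Nat.div_mul_le_self j d
  have h1 := geom_tel (q := q) (d := d) (j / d) hK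
  have hQ : 1 < q ^ d := one_lt_pow₀ hq (by omega)
  have hQ' : 0 < q ^ d - 1 := by linarith
  rw [← Finset.sum_mul] at h1
  have h2 : ∑ i ∈ Icc 1 (j / d), q ^ (j - i * d) = (q ^ j - q ^ (j - j / d * d)) / (q ^ d - 1) := by
    rw [eq_div_iff hQ'.ne', h1]
  have h3 : j - j / d * d ≤ d := by
    have h4 := Nat.mod_lt j (show 0 < d by omega)
    have h5 := Nat.div_add_mod' j d
    omega
  have h4 : q ^ (j - j / d * d) ≤ q ^ d := pow_le_pow_right₀ hq.le h3
  rw [Finset.sum_sub_distrib, h2, Finset.sum_const, Nat.card_Icc, nsmul_eq_mul, mul_one]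
  have h5 : (d : ℝ) * ((j / d + 1 - 1 : ℕ) : ℝ) ≤ j := by
    rw [Nat.add_sub_cancel]
    have : d * (j / d) ≤ j := Nat.mul_div_le j d
    exact_mod_cast this
  have h6 : (q ^ j - q ^ d) / (q ^ d - 1) ≤ (q ^ j - q ^ (j - j / d * d)) / (q ^ d - 1) :=
    div_le_div_of_nonneg_right (by linarith) hQ'.le
  have h7 : q ^ j * (d / (q ^ d - 1)) - (d / (q ^ d - 1) * q ^ d + j) =
      d * ((q ^ j - q ^ d) / (q ^ d - 1)) - j := by ring
  rw [h7, mul_sub]
  have h8 := mul_le_mul_of_nonneg_left h6 (Nat.cast_nonneg (α := ℝ) d)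
  linarith

section

variable {R : Type u} [CommRing R] [IsDedekindDomain R] [Ring.HasFiniteQuotients R] [Infinite R]
  {S : Type u} [Fintype S] (P : Pack R S)

open scoped Classical in
/-- the sum of the defects at `v` over a box -/
theorem sum_defect_ge {I : Ideal R} (hI : I ≠ ⊥) (μ : S → ℤ) {j : ℕ}
    (hj : P.deg μ - P.dg I + P.χ = j) (v : S) :
    ∑ i ∈ Icc 1 (j / P.d v), ((P.q : ℝ) ^ (j - i * P.d v) - 1) ≤
      ∑ y ∈ (P.box I μ).erase 0, ((μ v - P.lev v y : ℤ) : ℝ) := by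
  classical
  have hbox : ∀ y ∈ (P.box I μ).erase 0, y ≠ 0 ∧ y ∈ I ∧ ∀ w, P.lev w y ≤ μ w := by
    intro y hy
    rw [Finset.mem_erase, P.mem_box] at hy
    exact ⟨hy.1, hy.2.1, fun w => (hy.2.2 w).resolve_left hy.1⟩
  have h1 : ∀ y ∈ (P.box I μ).erase 0,
      ∑ i ∈ Icc 1 (j / P.d v), (if P.lev v y ≤ μ v - i then (1 : ℝ) else 0) ≤
        ((μ v - P.lev v y : ℤ) : ℝ) := by
    intro y hy
    obtain ⟨t, ht⟩ := Int.le.dest ((hbox y hy).2.2 v)
    have h2 : μ v - P.lev v y = t := by omega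
    rw [h2, Finset.sum_ite, Finset.sum_const_zero, add_zero, Finset.sum_const, nsmul_eq_mul,
      mul_one]
    have h3 : ((Icc 1 (j / P.d v)).filter fun i : ℕ => P.lev v y ≤ μ v - i) ⊆ Icc 1 t := by
      intro i hi
      rw [Finset.mem_filter, Finset.mem_Icc] at hi
      rw [Finset.mem_Icc]
      refine ⟨hi.1.1, ?_⟩
      omega
    have h4 := Finset.card_le_card h3
    rw [Nat.card_Icc, Nat.add_sub_cancel] at h4
    exact_mod_cast h4
  refine le_trans ?_ (Finset.sum_le_sum h1)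
  rw [Finset.sum_comm]
  refine Finset.sum_le_sum fun i hi => ?_
  rw [Finset.mem_Icc] at hi
  rw [Finset.sum_ite, Finset.sum_const_zero, add_zero, Finset.sum_const, nsmul_eq_mul, mul_one]
  set μ' : S → ℤ := Function.update μ v (μ v - i) with hμ'
  have h2 : ((P.box I μ).erase 0).filter (fun y => P.lev v y ≤ μ v - i) = (P.box I μ').erase 0 := by
    ext y
    rw [Finset.mem_filter, Finset.mem_erase, Finset.mem_erase, P.mem_box, P.mem_box]
    constructor
    · rintro ⟨⟨hy0, hyI, hy⟩, hyv⟩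
      refine ⟨hy0, hyI, fun w => Or.inr ?_⟩
      by_cases hw : w = v
      · subst hw; rw [hμ', Function.update_self]; exact hyv
      · rw [hμ', Function.update_of_ne hw]; exact (hy w).resolve_left hy0
    · rintro ⟨hy0, hyI, hy⟩
      have hyv := (hy v).resolve_left hy0
      rw [hμ', Function.update_self] at hyv
      refine ⟨⟨hy0, hyI, fun w => Or.inr ?_⟩, hyv⟩
      by_cases hw : w = v
      · subst hw; omega
      · have := (hy w).resolve_left hy0
        rwa [hμ', Function.update_of_ne hw] at this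
  rw [h2, Finset.card_erase_of_mem (P.zero_mem_box I μ'),
    Nat.cast_sub (P.one_le_card_box I μ'), Nat.cast_one]
  have h3 := P.le_card_box hI μ'
  have h4 : P.deg μ' - P.dg I + P.χ = ((j - i * P.d v : ℕ) : ℤ) := by
    have h5 : i * P.d v ≤ j := le_trans (Nat.mul_le_mul_right _ hi.2) (Nat.div_mul_le_self j _)
    rw [hμ', P.deg_update, Nat.cast_sub h5, ← hj]
    push_cast
    ring
  rw [h4, zpow_natCast] at h3
  linarith

open scoped Classical in
/-- the upper bound of the product of a box -/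
theorem sum_box_le {I : Ideal R} (hI : I ≠ ⊥) {μ : S → ℤ} {m j : ℕ} (hμ : P.deg μ = m + P.dg I)
    (hcm : P.c₀ ≤ m) (hj : (j : ℤ) = m + P.χ) :
    ∑ y ∈ (P.box I μ).erase 0, ((P.dg (Ideal.span {y}) : ℝ) - P.dg I) ≤
      (P.q : ℝ) ^ j * (m - P.cc) +
        (∑ v, ((P.d v : ℝ) / ((P.q : ℝ) ^ P.d v - 1) * (P.q : ℝ) ^ P.d v + 1)) * (j + 1) := by
  classical
  have hj' : P.deg μ - P.dg I + P.χ = j := by rw [hμ]; omega
  have hcard : ((P.box I μ).card : ℝ) = (P.q : ℝ) ^ j := by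
    rw [P.card_box_eq hI (by rw [hμ]; push_cast; omega), hj', zpow_natCast]
  have hterm : ∀ y ∈ (P.box I μ).erase 0, (P.dg (Ideal.span {y}) : ℝ) - P.dg I =
      m - ∑ v, (P.d v : ℝ) * ((μ v - P.lev v y : ℤ) : ℝ) := by
    intro y hy
    have hy0 := (Finset.mem_erase.mp hy).1
    have h1 : (P.dg (Ideal.span {y}) : ℤ) - P.dg I = m - ∑ v, (P.d v : ℤ) * (μ v - P.lev v y) := by
      have h2 : ∑ v, (P.d v : ℤ) * (μ v - P.lev v y) = P.deg μ - P.dg (Ideal.span {y}) := by
        rw [P.dg_span y hy0]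
        unfold Pack.deg
        rw [← Finset.sum_sub_distrib]
        exact Finset.sum_congr rfl fun v _ => by ring
      rw [h2, hμ]
      ring
    have h3 : (((P.dg (Ideal.span {y}) : ℤ) - P.dg I : ℤ) : ℝ) =
        ((m - ∑ v, (P.d v : ℤ) * (μ v - P.lev v y) : ℤ) : ℝ) := by rw [h1]
    push_cast at h3 ⊢
    exact h3
  rw [Finset.sum_congr rfl hterm, Finset.sum_sub_distrib, Finset.sum_const, nsmul_eq_mul,
    Finset.card_erase_of_mem (P.zero_mem_box I μ), Nat.cast_sub (P.one_le_card_box I μ), hcard,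
    Finset.sum_comm]
  have hv : ∀ v, (P.q : ℝ) ^ j * ((P.d v : ℝ) / ((P.q : ℝ) ^ P.d v - 1)) -
      ((P.d v : ℝ) / ((P.q : ℝ) ^ P.d v - 1) * (P.q : ℝ) ^ P.d v + j) ≤
      ∑ y ∈ (P.box I μ).erase 0, (P.d v : ℝ) * ((μ v - P.lev v y : ℤ) : ℝ) := by
    intro v
    refine (geom_ge P.one_lt_q' (P.one_le_d v)).trans ?_
    rw [← Finset.mul_sum]
    exact mul_le_mul_of_nonneg_left (sum_defect_ge P hI μ hj' v) (by positivity)
  have hsum := Finset.sum_le_sum fun v (_ : v ∈ (Finset.univ : Finset S)) => hv v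
  rw [Finset.sum_sub_distrib, ← Finset.mul_sum] at hsum
  have hcc : ∑ v, (P.d v : ℝ) / ((P.q : ℝ) ^ P.d v - 1) = P.cc := rfl
  rw [hcc] at hsum
  have hCj : ∑ v, ((P.d v : ℝ) / ((P.q : ℝ) ^ P.d v - 1) * (P.q : ℝ) ^ P.d v + j) ≤
      (∑ v, ((P.d v : ℝ) / ((P.q : ℝ) ^ P.d v - 1) * (P.q : ℝ) ^ P.d v + 1)) * (j + 1) := by
    rw [Finset.sum_mul]
    refine Finset.sum_le_sum fun v _ => ?_
    have h1 : 0 ≤ (P.d v : ℝ) / ((P.q : ℝ) ^ P.d v - 1) * (P.q : ℝ) ^ P.d v := by
      have h2 : 1 < (P.q : ℝ) ^ P.d v := one_lt_pow₀ P.one_lt_q' (by have := P.one_le_d v; omega)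
      have h3 : 0 < (P.q : ℝ) ^ P.d v - 1 := by linarith
      positivity
    have h2 : (0 : ℝ) ≤ j := by positivity
    nlinarith
  have hm0 : (0 : ℝ) ≤ m := by positivity
  have e1 : ((P.q : ℝ) ^ j - 1) * m = (P.q : ℝ) ^ j * m - m := by ring
  have e2 : (P.q : ℝ) ^ j * (m - P.cc) = (P.q : ℝ) ^ j * m - (P.q : ℝ) ^ j * P.cc := by ring
  rw [Nat.cast_one, e1, e2]
  linarith

end

theorem stmt_BoxProd (hF : Stmt_Fact.{u}) : Stmt_BoxProd.{u} := by
  classical
  intro R _ _ _ _ S _ P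
  refine ⟨∑ v, ((P.d v : ℝ) / ((P.q : ℝ) ^ P.d v - 1) * (P.q : ℝ) ^ P.d v + 1), ?_⟩
  intro I hI μ m j hμ hcm hj 𝒞 h𝒞
  refine le_trans ?_ (sum_box_le P hI hμ hcm hj)
  set L := (P.box I μ).erase 0 with hL
  set D : ℕ := j + ∑ p ∈ 𝒞, P.dg p with hD
  have hF' : ∀ y ∈ L, ∑ i ∈ Icc 1 D, ∑ p ∈ (P.primes i).filter (fun p => P.dg p ∣ i),
      (P.dg p : ℝ) * (if y ∈ p ^ (i / P.dg p) * I then 1 else 0)
        ≤ (P.dg (Ideal.span {y}) : ℝ) - P.dg I := by
    intro y hy
    rw [hL, Finset.mem_erase, P.mem_box] at hy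
    have h1 := (hF R S P I hI y hy.2.1 hy.1 D).1
    convert h1
  refine le_trans ?_ (Finset.sum_le_sum hF')
  rw [Finset.sum_comm]
  -- the count at one level
  have hcount : ∀ i, 1 ≤ i → ∀ p ∈ (P.primes i).filter (fun p => P.dg p ∣ i),
      ((P.q : ℝ) ^ (j - i) - 1) ≤
        ((L.filter fun y => y ∈ p ^ (i / P.dg p) * I).card : ℝ) := by
    intro i hi p hp
    rw [Finset.mem_filter, P.mem_primes] at hp
    obtain ⟨⟨hpp, hp0, hpi⟩, hdiv⟩ := hp
    rcases le_total i j with hij | hij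
    · set k := i / P.dg p with hk
      have hkd : k * P.dg p = i := Nat.div_mul_cancel hdiv
      have hJ : p ^ k * I ≠ ⊥ := mul_ne_zero (pow_ne_zero k hp0) hI
      have h1 : (P.box (p ^ k * I) μ).erase 0 ⊆ L.filter fun y => y ∈ p ^ k * I := by
        intro y hy
        rw [Finset.mem_erase, P.mem_box] at hy
        rw [Finset.mem_filter, hL, Finset.mem_erase, P.mem_box]
        exact ⟨⟨hy.1, Ideal.mul_le_right (I := p ^ k) (J := I) hy.2.1, hy.2.2⟩, hy.2.1⟩
      have h2 := Finset.card_le_card h1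
      rw [Finset.card_erase_of_mem (P.zero_mem_box _ μ)] at h2
      have h3 := P.one_le_card_box (p ^ k * I) μ
      have h4 := P.le_card_box hJ μ
      have h5 : P.deg μ - P.dg (p ^ k * I) + P.χ = ((j - i : ℕ) : ℤ) := by
        rw [P.dg_mul (pow_ne_zero k hp0) hI, P.dg_pow hp0, hkd, hμ, Nat.cast_sub hij]
        push_cast
        omega
      rw [h5, zpow_natCast] at h4
      have h6 : ((P.box (p ^ k * I) μ).card : ℝ) - 1 ≤
          ((L.filter fun y => y ∈ p ^ k * I).card : ℝ) := by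
        have h7 : (P.box (p ^ k * I) μ).card ≤ (L.filter fun y => y ∈ p ^ k * I).card + 1 := by
          omega
        have h8 : ((P.box (p ^ k * I) μ).card : ℝ) ≤
            ((L.filter fun y => y ∈ p ^ k * I).card : ℝ) + 1 := by exact_mod_cast h7
        linarith
      linarith
    · rw [Nat.sub_eq_zero_of_le hij, pow_zero, sub_self]
      positivity
  have hlevel : ∀ i ∈ Icc 1 D, (P.Nn i : ℝ) * ((P.q : ℝ) ^ (j - i) - 1) +
      ∑ p ∈ 𝒞.filter (fun p => P.dg p = i), (P.dg p : ℝ) ≤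
      ∑ y ∈ L, ∑ p ∈ (P.primes i).filter (fun p => P.dg p ∣ i),
        (P.dg p : ℝ) * (if y ∈ p ^ (i / P.dg p) * I then 1 else 0) := by
    intro i hi
    rw [Finset.mem_Icc] at hi
    rw [Finset.sum_comm]
    have h1 : ∑ p ∈ (P.primes i).filter (fun p => P.dg p ∣ i), ∑ y ∈ L,
        (P.dg p : ℝ) * (if y ∈ p ^ (i / P.dg p) * I then (1 : ℝ) else 0) =
        ∑ p ∈ (P.primes i).filter (fun p => P.dg p ∣ i),
          (P.dg p : ℝ) * ((L.filter fun y => y ∈ p ^ (i / P.dg p) * I).card : ℝ) := by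
      refine Finset.sum_congr rfl fun p _ => ?_
      rw [← Finset.mul_sum, Finset.sum_boole]
    rw [h1]
    have hN : (P.Nn i : ℝ) = ∑ p ∈ (P.primes i).filter (fun p => P.dg p ∣ i), (P.dg p : ℝ) := by
      unfold Pack.Nn
      push_cast
      rfl
    rcases lt_or_ge i j with hij | hij
    · have h2 : 𝒞.filter (fun p => P.dg p = i) = ∅ := by
        refine Finset.filter_eq_empty_iff.mpr fun p hp h => ?_
        have := (h𝒞 p hp).2.2.1
        omega
      rw [h2, Finset.sum_empty, add_zero, hN, Finset.sum_mul]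
      exact Finset.sum_le_sum fun p hp => mul_le_mul_of_nonneg_left (hcount i hi.1 p hp)
        (by positivity)
    · rw [Nat.sub_eq_zero_of_le hij, pow_zero, sub_self, mul_zero, zero_add]
      have h2 : 𝒞.filter (fun p => P.dg p = i) ⊆ (P.primes i).filter (fun p => P.dg p ∣ i) := by
        intro p hp
        rw [Finset.mem_filter] at hp
        rw [Finset.mem_filter, P.mem_primes]
        have h3 := h𝒞 p hp.1
        exact ⟨⟨h3.1, h3.2.1, hp.2.le⟩, by rw [hp.2]⟩
      refine le_trans (Finset.sum_le_sum fun p hp => ?_)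
        (Finset.sum_le_sum_of_subset_of_nonneg h2 fun p _ _ => by positivity)
      rw [Finset.mem_filter] at hp
      obtain ⟨hpp, hp0, hpj, x, hx0, hxI, hxμ⟩ := h𝒞 p hp.1
      have h3 : i / P.dg p = 1 := by
        rw [hp.2]
        exact Nat.div_self hi.1
      have h4 : x ∈ L.filter fun y => y ∈ p ^ (i / P.dg p) * I := by
        rw [h3, pow_one, Finset.mem_filter, hL, Finset.mem_erase, P.mem_box, ← hxI]
        refine ⟨⟨hx0, ?_, fun v => Or.inr (hxμ v)⟩, Ideal.mem_span_singleton_self x⟩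
        have h5 : Ideal.span {x} ≤ I := by rw [hxI]; exact Ideal.mul_le_right
        exact h5 (Ideal.mem_span_singleton_self x)
      have h5 : (1 : ℝ) ≤ ((L.filter fun y => y ∈ p ^ (i / P.dg p) * I).card : ℝ) := by
        exact_mod_cast Finset.card_pos.mpr ⟨x, h4⟩
      calc (P.dg p : ℝ) = P.dg p * 1 := (mul_one _).symm
        _ ≤ _ := mul_le_mul_of_nonneg_left h5 (by positivity)
  refine le_trans ?_ (Finset.sum_le_sum hlevel)
  rw [Finset.sum_add_distrib]
  refine add_le_add ?_ ?_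
  · unfold Pack.pot
    refine Finset.sum_le_sum_of_subset_of_nonneg (Finset.Icc_subset_Icc le_rfl (by omega))
      fun i _ _ => mul_nonneg (by positivity) ?_
    have := one_le_pow₀ P.one_lt_q'.le (n := j - i)
    linarith
  · rw [Finset.sum_fiberwise_of_maps_to (s := 𝒞) (t := Icc 1 D) (g := fun p => P.dg p)
      (fun p hp => ?_) (fun p => (P.dg p : ℝ))]
    rw [Finset.mem_Icc]
    refine ⟨P.one_le_dg (h𝒞 p hp).1 (h𝒞 p hp).2.1, ?_⟩
    have := Finset.single_le_sum (f := fun p => P.dg p) (fun _ _ => Nat.zero_le _) hp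
    omega

end Pool.Agent.Work.MP_b29d7f_nt.FF
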