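import Pool.Agent.Work.MP_b29d7f_nt.FF.Basic

/-!
# CELLS: a tight optimal set is almost a product of sets of cells
-/

set_option linter.unusedSectionVars false

namespace Pool.Agent.Work.MP_b29d7f_nt.FF

open Finset Polynomial
open Pool.Agent.Work.MP_b29d7f_nt.Ded

universe u

section

variable {R : Type u} [CommRing R] [IsDedekindDomain R] [Ring.HasFiniteQuotients R] [Infinite R]
  {S : Type u} [Fintype S] (P : Pack R S)

/-- the equivalence relation `Near v l` -/
def nearSetoid (v : S) (l : ℤ) : Setoid R where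
  r := P.Near v l
  iseqv := ⟨P.near_refl v l, Pack.near_symm, Pack.near_trans⟩

/-- the chosen representative of the `v`-cell of `x` -/
noncomputable def crep (v : S) (l : ℤ) (x : R) : R :=
  Quotient.out (Quotient.mk (nearSetoid P v l) x)

theorem near_crep (v : S) (l : ℤ) (x : R) : P.Near v l x (crep P v l x) := by
  have h : (nearSetoid P v l) (crep P v l x) x := Quotient.mk_out (s := nearSetoid P v l) x
  exact Pack.near_symm h

theorem crep_eq {v : S} {l : ℤ} {x y : R} (h : P.Near v l (crep P v l x) (crep P v l y)) :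
    crep P v l x = crep P v l y := by
  have h1 : P.Near v l x y :=
    Pack.near_trans (near_crep P v l x) (Pack.near_trans h (Pack.near_symm (near_crep P v l y)))
  have h2 : Quotient.mk (nearSetoid P v l) x = Quotient.mk (nearSetoid P v l) y := Quotient.sound h1
  unfold crep
  rw [h2]

/-- the potential at `v` -/
noncomputable def vpot (m : S → ℤ) (A : Finset R) (v : S) (x : R) : ℝ := ∑ b ∈ A, P.cap v (m v) x b

theorem vpot_congr {m : S → ℤ} {A : Finset R} {v : S} {x y : R} (h : P.Near v (m v) x y) :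
    vpot P m A v x = vpot P m A v y :=
  Finset.sum_congr rfl fun b _ => P.cap_congr h b

theorem sum_vpot (m : S → ℤ) (A : Finset R) (x : R) :
    ∑ v, vpot P m A v x = ∑ b ∈ A, P.ln x b + ∑ b ∈ A, P.gap m x b := by
  unfold vpot
  rw [Finset.sum_comm, ← Finset.sum_add_distrib]
  exact Finset.sum_congr rfl fun b _ => P.kap_eq m x b

end

theorem stmt_Cells (hPot : Stmt_Pot.{u}) (hMer : Stmt_Mer.{u}) : Stmt_Cells.{u} := by
  classical
  intro R _ _ _ _ S _ _ P
  obtain ⟨hP1, hP2, -⟩ := hPot R S P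
  obtain ⟨C, hC, -, -, ⟨j₀, hj₀⟩, -, -⟩ := hMer R S P
  set s : ℝ := (Fintype.card S : ℝ) with hs
  have hs0 : 0 ≤ s := by rw [hs]; positivity
  refine ⟨min (1 / 4) ((1 / (2 * C * (s + 1))) ^ 2), j₀, by positivity,
    fun j hj A hA m hm ε hε hε₀ hsum => ?_⟩
  set η : ℝ := Real.sqrt ε with hη
  have hη0 : 0 < η := Real.sqrt_pos.mpr hε
  have hηsq : η ^ 2 = ε := Real.sq_sqrt hε.le
  have hη1 : η ≤ 1 / 2 := by
    rw [hη]
    refine (Real.sqrt_le_sqrt (hε₀.trans (min_le_left _ _))).trans (le_of_eq ?_)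
    rw [show (1 / 4 : ℝ) = (1 / 2) ^ 2 by norm_num, Real.sqrt_sq (by norm_num)]
  have hη2 : η ≤ 1 / (2 * C * (s + 1)) := by
    rw [hη]
    refine (Real.sqrt_le_sqrt (hε₀.trans (min_le_right _ _))).trans (le_of_eq ?_)
    rw [Real.sqrt_sq (by positivity)]
  set n : ℝ := (P.q : ℝ) ^ j with hn
  have hn0 : 0 < n := pow_pos P.q_pos' j
  have hcard : (A.card : ℝ) = n := by rw [hA.card]; push_cast; rfl
  have hdeg : 0 ≤ P.deg m := le_trans (by positivity) hm
  set g : R → ℝ := fun x => ∑ b ∈ A, P.gap m x b with hg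
  have hg0 : ∀ x, 0 ≤ g x := fun x => Finset.sum_nonneg fun b _ => P.gap_nonneg hdeg x b
  set G := A.filter fun x => g x ≤ η * n with hG
  set B := A.filter fun x => ¬ g x ≤ η * n with hB
  have hGB : G.card + B.card = A.card := Finset.card_filter_add_card_filter_not _
  have hBcard : (B.card : ℝ) ≤ η * n := by
    have h1 : (B.card : ℝ) * (η * n) ≤ ∑ x ∈ A, g x := by
      calc (B.card : ℝ) * (η * n) = ∑ x ∈ B, η * n := by rw [Finset.sum_const, nsmul_eq_mul]
        _ ≤ ∑ x ∈ B, g x := Finset.sum_le_sum fun x hx => (not_le.mp (Finset.mem_filter.mp hx).2).le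
        _ ≤ ∑ x ∈ A, g x := Finset.sum_le_sum_of_subset_of_nonneg (Finset.filter_subset _ _)
            fun x _ _ => hg0 x
    have h2 : (B.card : ℝ) * (η * n) ≤ (η * n) * (η * n) := by
      refine h1.trans (hsum.trans (le_of_eq ?_))
      rw [← hηsq]; ring
    exact le_of_mul_le_mul_right h2 (by positivity)
  have hGcard : (1 - η) * n ≤ (G.card : ℝ) := by
    have h1 : (G.card : ℝ) + B.card = n := by rw [← hcard]; exact_mod_cast hGB
    linarith
  have hGne : G.Nonempty := by
    rw [← Finset.card_pos]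
    have h1 : (0 : ℝ) < G.card := lt_of_lt_of_le (by nlinarith) hGcard
    exact_mod_cast h1
  have hsumpot : ∀ x ∈ A, ∑ v, vpot P m A v x = P.pot j + g x := by
    intro x hx
    rw [sum_vpot, hP1 j A hA x hx]
  -- minimisers
  have hmin : ∀ v, ∃ x ∈ G, ∀ y ∈ G, vpot P m A v x ≤ vpot P m A v y := fun v =>
    Finset.exists_min_image G (vpot P m A v) hGne
  choose xm hxm hxmin using hmin
  set α : S → ℝ := fun v => vpot P m A v (xm v) with hα
  have htop : (⊤ : Ideal R) ≠ ⊥ := top_ne_bot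
  obtain ⟨ys, hys⟩ := P.cell_nonempty htop (m := m) (by rw [P.dg_top]; push_cast; omega) xm
  rw [P.mem_cell] at hys
  have hK0 : 0 ≤ P.K0 j := Finset.sum_nonneg fun i _ => by positivity
  have hαsum : P.pot j ≤ ∑ v, α v := by
    have h1 : ∑ v, α v = ∑ v, vpot P m A v ys :=
      Finset.sum_congr rfl fun v _ => (vpot_congr P (hys.2 v)).symm
    rw [h1, sum_vpot]
    have h2 : 0 ≤ ∑ b ∈ A, P.gap m ys b := hg0 ys
    by_cases hy : ys ∈ A
    · rw [hP1 j A hA ys hy]; linarith
    · have h3 := hP2 j A hA ys hy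
      linarith
  have hle : ∀ v, ∀ x ∈ G, vpot P m A v x ≤ α v + η * n := by
    intro v x hx
    have hxA := (Finset.mem_filter.mp hx).1
    have hxg := (Finset.mem_filter.mp hx).2
    have h1 := hsumpot x hxA
    rw [← Finset.add_sum_erase _ _ (Finset.mem_univ v)] at h1
    rw [← Finset.add_sum_erase _ _ (Finset.mem_univ v)] at hαsum
    have h2 : ∑ w ∈ univ.erase v, α w ≤ ∑ w ∈ univ.erase v, vpot P m A w x :=
      Finset.sum_le_sum fun w _ => hxmin w x hx
    linarith
  have hαle : ∑ v, α v ≤ P.pot j + η * n := by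
    obtain ⟨x, hx⟩ := hGne
    have h1 := hsumpot x (Finset.mem_filter.mp hx).1
    have h2 : ∑ v, α v ≤ ∑ v, vpot P m A v x := Finset.sum_le_sum fun w _ => hxmin w x hx
    have h3 := (Finset.mem_filter.mp hx).2
    linarith
  set M : S → Finset R := fun v => G.image (crep P v (m v)) with hM
  have hin : ∀ x ∈ G, P.InCells m M x := fun x hx v =>
    ⟨crep P v (m v) x, Finset.mem_image_of_mem _ hx, near_crep P v (m v) x⟩
  refine ⟨M, fun v c hc c' hc' h => ?_, fun y hy => ?_, ?_, ?_⟩
  · rw [hM, Finset.mem_image] at hc hc'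
    obtain ⟨x, _, rfl⟩ := hc
    obtain ⟨y, _, rfl⟩ := hc'
    exact crep_eq P h
  · by_contra hyA
    have h1 : ∀ v, vpot P m A v y ≤ α v + η * n := by
      intro v
      obtain ⟨c, hc, hyc⟩ := hy v
      rw [hM, Finset.mem_image] at hc
      obtain ⟨x, hx, rfl⟩ := hc
      rw [vpot_congr P (Pack.near_trans hyc (Pack.near_symm (near_crep P v (m v) x)))]
      exact hle v x hx
    have h2 : ∑ v, vpot P m A v y ≤ P.pot j + (s + 1) * (η * n) := by
      calc ∑ v, vpot P m A v y ≤ ∑ v, (α v + η * n) := Finset.sum_le_sum fun v _ => h1 v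
        _ = ∑ v, α v + s * (η * n) := by
            rw [Finset.sum_add_distrib, Finset.sum_const, Finset.card_univ, nsmul_eq_mul]
        _ ≤ P.pot j + (s + 1) * (η * n) := by linarith
    rw [sum_vpot] at h2
    have h3 := hP2 j A hA y hyA
    have h4 : 0 ≤ ∑ b ∈ A, P.gap m y b := hg0 y
    have h5 : P.K0 j ≤ (s + 1) * (η * n) := by linarith
    have h6 := hj₀ j hj
    have h7 : n ≤ C * ((s + 1) * (η * n)) := h6.trans (mul_le_mul_of_nonneg_left h5 hC.le)
    have h8 : C * (s + 1) * η ≤ 1 / 2 := by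
      calc C * (s + 1) * η ≤ C * (s + 1) * (1 / (2 * C * (s + 1))) :=
            mul_le_mul_of_nonneg_left hη2 (by positivity)
        _ = 1 / 2 := by
          field_simp
    have h9 : C * ((s + 1) * (η * n)) = C * (s + 1) * η * n := by ring
    rw [h9] at h7
    nlinarith
  · refine hGcard.trans ?_
    have h1 : G ⊆ A.filter fun y => P.InCells m M y := fun x hx =>
      Finset.mem_filter.mpr ⟨(Finset.mem_filter.mp hx).1, hin x hx⟩
    exact_mod_cast Finset.card_le_card h1
  · obtain ⟨x, hx⟩ := hGne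
    exact ⟨x, (Finset.mem_filter.mp hx).1, hin x hx, (Finset.mem_filter.mp hx).2⟩

end Pool.Agent.Work.MP_b29d7f_nt.FF
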