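import Pool.Agent.Work.MP_b29d7f_nt.FF.Interface2

/-!
# Block CHAIN: the union of the initial segments (boxes) grows at one place of degree one
-/

set_option linter.unusedSectionVars false

namespace Pool.Agent.Work.MP_b29d7f_nt.FF

open Finset
open Pool.Agent.Work.MP_b29d7f_nt.Ded

universe u

theorem stmt_Chain (hR : Stmt_Rigid.{u}) : Stmt_Chain.{u} := by
  intro R _ _ _ _ S _ _ P A hA hmono
  classical
  obtain ⟨j₀, hj₀⟩ := hR R S P A hA
  choose! l hdeg hl using hj₀
  -- a common element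
  have hne : ∃ x, x ∈ A 0 := by
    have h := (hA 0).card
    have : (A 0).Nonempty := by
      rw [← Finset.card_pos, h]
      exact pow_pos P.q_pos _
    exact this
  obtain ⟨x₀, hx₀⟩ := hne
  have hmono' : ∀ j j', j ≤ j' → A j ⊆ A j' := by
    intro j j' h
    induction j', h using Nat.le_induction with
    | base => exact Finset.Subset.refl _
    | succ n _ ih => exact ih.trans (hmono n)
  have hx : ∀ j, x₀ ∈ A j := fun j => hmono' 0 j (Nat.zero_le j) hx₀
  -- from some point on the levels increase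
  obtain ⟨j₁, hj₁, hj₁'⟩ : ∃ j₁ : ℕ, j₀ ≤ j₁ ∧ ∀ j : ℕ, j₁ ≤ j →
      (P.c₀ : ℤ) + ∑ v, (P.d v : ℤ) ≤ (j : ℤ) - P.χ := by
    refine ⟨max j₀ ((P.c₀ : ℤ) + ∑ v, (P.d v : ℤ) + P.χ).toNat, le_max_left _ _, fun j hj => ?_⟩
    have h1 := (le_max_right _ _).trans hj
    have h2 := Int.self_le_toNat ((P.c₀ : ℤ) + ∑ v, (P.d v : ℤ) + P.χ)
    omega
  have hdeg' : ∀ j, j₁ ≤ j → P.deg (l j) = (j : ℤ) - P.χ := by
    intro j hj
    have := hdeg j (hj₁.trans hj)
    omega
  have hstep : ∀ j, j₁ ≤ j → ∀ v, l j v ≤ l (j + 1) v := by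
    intro j hj v
    obtain ⟨z, hz0, hz⟩ := P.exists_lev_eq (m := l j) (by rw [hdeg' j hj]; exact hj₁' j hj)
    have hy : x₀ - z ∈ A j := by
      rw [hl j (hj₁.trans hj) x₀ (hx j)]
      intro w
      right
      rw [sub_sub_cancel]
      exact (hz w).le
    have hy' := hmono j hy
    rw [hl (j + 1) (hj₁.trans (hj.trans (Nat.le_succ j))) x₀ (hx _)] at hy'
    rcases hy' v with h | h
    · exact absurd (sub_eq_self.mp h.symm) hz0
    · rw [sub_sub_cancel, hz v] at h
      exact h
  have hmonol : ∀ j j', j₁ ≤ j → j ≤ j' → ∀ v, l j v ≤ l j' v := by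
    intro j j' hj h v
    induction j', h using Nat.le_induction with
    | base => exact le_refl _
    | succ n hn ih => exact ih.trans (hstep n (hj.trans hn) v)
  -- some level is unbounded
  have hunb : ∃ v, ∀ T : ℤ, ∃ j, j₁ ≤ j ∧ T ≤ l j v := by
    by_contra hcon
    push Not at hcon
    choose T hT using hcon
    -- degree is bounded
    have hb : ∀ j, j₁ ≤ j → (j : ℤ) - P.χ ≤ ∑ v, (P.d v : ℤ) * T v := by
      intro j hj
      rw [← hdeg' j hj]
      exact Finset.sum_le_sum fun v _ =>
        mul_le_mul_of_nonneg_left (hT v j hj).le (by positivity)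
    have h1 := hb (max j₁ ((∑ v, (P.d v : ℤ) * T v) + P.χ + 1).toNat) (le_max_left _ _)
    have h2 : ((∑ v, (P.d v : ℤ) * T v) + P.χ + 1).toNat ≤
      max j₁ ((∑ v, (P.d v : ℤ) * T v) + P.χ + 1).toNat := le_max_right _ _
    have h3 := Int.self_le_toNat ((∑ v, (P.d v : ℤ) * T v) + P.χ + 1)
    omega
  obtain ⟨v, hv⟩ := hunb
  -- at this place the degree is one
  have hd : P.d v = 1 := by
    -- there is a step where the level increases
    have hinc : ∃ j, j₁ ≤ j ∧ l j v < l (j + 1) v := by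
      by_contra hcon
      push Not at hcon
      have hconst : ∀ j, j₁ ≤ j → l j v ≤ l j₁ v := by
        intro j hj
        induction j, hj using Nat.le_induction with
        | base => exact le_refl _
        | succ n hn ih => exact (hcon n hn).trans ih
      obtain ⟨j, hj, hj'⟩ := hv (l j₁ v + 1)
      have := hconst j hj
      omega
    obtain ⟨j, hj, hlt⟩ := hinc
    have h1 := hdeg' j hj
    have h2 := hdeg' (j + 1) (hj.trans (Nat.le_succ j))
    have h3 : ∑ w, (P.d w : ℤ) * (l (j + 1) w - l j w) = 1 := by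
      have : ∑ w, (P.d w : ℤ) * (l (j + 1) w - l j w) = P.deg (l (j + 1)) - P.deg (l j) := by
        unfold Pack.deg
        rw [← Finset.sum_sub_distrib]
        exact Finset.sum_congr rfl fun w _ => by ring
      rw [this, h1, h2]
      push_cast
      ring
    have h4 : (P.d v : ℤ) * (l (j + 1) v - l j v) ≤
        ∑ w, (P.d w : ℤ) * (l (j + 1) w - l j w) :=
      Finset.single_le_sum (f := fun w => (P.d w : ℤ) * (l (j + 1) w - l j w))
        (fun w _ => mul_nonneg (by positivity) (by have := hstep j hj w; omega))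
        (Finset.mem_univ v)
    rw [h3] at h4
    have h5 : 1 ≤ l (j + 1) v - l j v := by omega
    have h6 : (P.d v : ℤ) * 1 ≤ (P.d v : ℤ) * (l (j + 1) v - l j v) :=
      mul_le_mul_of_nonneg_left h5 (by positivity)
    have h7 := P.one_le_d v
    omega
  refine ⟨v, hd, l j₁, fun x hxA y hy => ?_⟩
  -- choose a step where the level at `v` is large enough
  obtain ⟨j, hj, hj'⟩ := hv (P.lev v (x - y))
  refine ⟨j, ?_⟩
  rw [hl j (hj₁.trans hj) x (hmono' 0 j (Nat.zero_le j) hxA)]
  intro w
  by_cases hw : w = v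
  · subst hw
    exact Or.inr hj'
  · exact P.near_mono (hmonol j₁ j le_rfl hj w) (hy w hw)

end Pool.Agent.Work.MP_b29d7f_nt.FF
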