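import Pool.Agent.Work.MP_b29d7f_nt.FF.Basic

/-!
# Block CHI: `χ = 1`
-/

set_option linter.unusedSectionVars false

namespace Pool.Agent.Work.MP_b29d7f_nt.FF

open Finset
open Pool.Agent.Work.MP_b29d7f_nt.Ded

universe u

theorem exists_lin_lt {q : ℝ} (hq : 2 ≤ q) (C e : ℝ) (he : 0 < e) :
    ∃ j₀ : ℕ, ∀ j ≥ j₀, C * (j + 1) < e * q ^ j := by
  have h1 : Filter.Tendsto (fun n : ℕ => (n : ℝ) ^ 1 * (1 / 2 : ℝ) ^ n) Filter.atTop (nhds 0) :=
    tendsto_pow_const_mul_const_pow_of_lt_one 1 (by norm_num) (by norm_num)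
  have h2 : Filter.Tendsto (fun n : ℕ => (1 / 2 : ℝ) ^ n) Filter.atTop (nhds 0) :=
    tendsto_pow_atTop_nhds_zero_of_lt_one (by norm_num) (by norm_num)
  have h3 : Filter.Tendsto (fun n : ℕ => |C| * ((n : ℝ) ^ 1 * (1 / 2 : ℝ) ^ n + (1 / 2 : ℝ) ^ n))
      Filter.atTop (nhds (|C| * (0 + 0))) := (h1.add h2).const_mul _
  rw [add_zero, mul_zero] at h3
  obtain ⟨j₀, hj₀⟩ := Filter.eventually_atTop.mp (h3.eventually (gt_mem_nhds he))
  refine ⟨j₀, fun j hj => ?_⟩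
  have h4 := hj₀ j hj
  have h5 : (0 : ℝ) < (2 : ℝ) ^ j := by positivity
  have h6 : |C| * ((j : ℝ) + 1) < e * 2 ^ j := by
    have h7 : |C| * ((j : ℝ) ^ 1 * (1 / 2 : ℝ) ^ j + (1 / 2 : ℝ) ^ j) * 2 ^ j =
        |C| * ((j : ℝ) + 1) := by
      rw [one_div, inv_pow]
      field_simp
      try ring
    rw [← h7]
    exact mul_lt_mul_of_pos_right h4 h5
  have h8 : C * ((j : ℝ) + 1) ≤ |C| * (j + 1) :=
    mul_le_mul_of_nonneg_right (le_abs_self C) (by positivity)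
  have h9 : e * 2 ^ j ≤ e * q ^ j :=
    mul_le_mul_of_nonneg_left (pow_le_pow_left₀ (by norm_num) hq j) he.le
  linarith

theorem stmt_Chi (hLower : Stmt_Lower.{u}) (hBox : Stmt_BoxProd.{u}) (hPigeon : Stmt_Pigeon.{u})
    (hMer : Stmt_Mer.{u}) : Stmt_Chi.{u} := by
  classical
  intro R _ _ _ _ S _ _ P hA
  have hq := P.q_pos'
  have hq1 := P.one_lt_q'
  have hq2 : (2 : ℝ) ≤ P.q := by exact_mod_cast P.two_le_q
  have hle : P.χ ≤ 1 := by
    have h1 := P.le_card_box (I := (⊤ : Ideal R)) top_ne_bot (fun _ => 0)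
    have h2 : ((P.box (⊤ : Ideal R) (fun _ => 0)).card : ℝ) = P.q := by
      have h3 : (P.box (⊤ : Ideal R) (fun _ => 0)).card =
          Nat.card {x : R // ∀ v, x = 0 ∨ P.lev v x ≤ 0} := by
        rw [P.card_box]
        refine Nat.card_congr (Equiv.subtypeEquivRight fun x => ?_)
        exact ⟨fun h => h.2, fun h => ⟨Submodule.mem_top, h⟩⟩
      rw [h3, P.card_const]
    rw [h2, P.dg_top, P.deg_const] at h1
    have h3 : (P.q : ℝ) ^ P.χ ≤ (P.q : ℝ) ^ (1 : ℤ) := by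
      rw [zpow_one]
      simpa using h1
    exact (zpow_le_zpow_iff_right₀ hq1).mp h3
  by_contra hne
  have hχ : P.χ ≤ 0 := by omega
  obtain ⟨C, hC0, -, -, -, -, hM⟩ := hMer R S P
  obtain ⟨h, hh⟩ := hPigeon R S P
  obtain ⟨CB, hCB⟩ := hBox R S P
  set c' : ℝ := 1 / (C * (h + 1)) with hc'
  have hc'0 : 0 < c' := by positivity
  obtain ⟨j₁, hj₁⟩ := hLower R S P hA (c' / 2) (by positivity)
  obtain ⟨j₂, hj₂⟩ := exists_lin_lt hq2 CB (c' / 2) (by positivity)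
  obtain ⟨m, hm, hmq⟩ := hM (P.c₀ + j₁ + j₂ + P.χ.natAbs)
  obtain ⟨j, hj⟩ : ∃ j : ℕ, (j : ℤ) = m + P.χ := ⟨(m + P.χ).toNat, by omega⟩
  have hqm : 0 < (P.q : ℝ) ^ m := by positivity
  have hsum : ∑ p ∈ (P.primes m).filter (fun p => P.dg p = m), (P.dg p : ℝ) =
      m * ((P.primes m).filter (fun p => P.dg p = m)).card := by
    rw [Finset.sum_congr rfl fun p hp => by rw [(Finset.mem_filter.mp hp).2], Finset.sum_const,
      nsmul_eq_mul, mul_comm]
  rw [hsum] at hmq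
  have hex : ∃ p : Ideal R, p.IsPrime ∧ p ≠ ⊥ ∧ P.dg p = m := by
    by_contra hcon
    push Not at hcon
    have h1 : ((P.primes m).filter (fun p => P.dg p = m)).card = 0 := by
      rw [Finset.card_eq_zero, Finset.filter_eq_empty_iff]
      intro p hp hpm
      rw [P.mem_primes] at hp
      exact hcon p hp.1 hp.2.1 hpm
    rw [h1] at hmq
    simp at hmq
    linarith
  obtain ⟨I, μ, 𝒞, hI, hdeg, h𝒞, hcard⟩ := hh m hex
  have h1 := hCB I hI μ m j hdeg (by omega) hj 𝒞 fun p hp => by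
    obtain ⟨h1, h2, h3, h4⟩ := h𝒞 p hp
    exact ⟨h1, h2, by omega, h4⟩
  have h2 : ∑ p ∈ 𝒞, (P.dg p : ℝ) = m * 𝒞.card := by
    rw [Finset.sum_congr rfl fun p hp => by rw [(h𝒞 p hp).2.2.1], Finset.sum_const,
      nsmul_eq_mul, mul_comm]
  rw [h2] at h1
  -- many primes
  have h3 : c' * (P.q : ℝ) ^ j ≤ m * 𝒞.card := by
    have h4 : (((P.primes m).filter (fun p => P.dg p = m)).card : ℝ) ≤ (h + 1) * 𝒞.card := by
      have : (((P.primes m).filter (fun p => P.dg p = m)).card : ℝ) ≤ h * 𝒞.card := by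
        exact_mod_cast hcard
      nlinarith [(Nat.cast_nonneg 𝒞.card : (0 : ℝ) ≤ 𝒞.card)]
    have h5 : (P.q : ℝ) ^ m ≤ C * (h + 1) * (m * 𝒞.card) := by
      refine hmq.trans ?_
      have h6 : C * ((m : ℝ) * ((P.primes m).filter (fun p => P.dg p = m)).card) ≤
          C * ((m : ℝ) * ((h + 1) * 𝒞.card)) :=
        mul_le_mul_of_nonneg_left (mul_le_mul_of_nonneg_left h4 (by positivity)) hC0.le
      refine h6.trans (le_of_eq ?_)
      ring
    have h6 : (P.q : ℝ) ^ j ≤ (P.q : ℝ) ^ m := pow_le_pow_right₀ hq1.le (by omega)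
    rw [hc', one_div_mul_eq_div, div_le_iff₀ (by positivity)]
    linarith [mul_comm (C * ((h : ℝ) + 1)) (m * 𝒞.card)]
  have h4 := hj₁ j (by omega)
  have h5 := hj₂ j (by omega)
  have h6 : (j : ℝ) - P.χ = m := by
    have : (j : ℝ) = m + P.χ := by exact_mod_cast hj
    rw [this]; ring
  rw [h6] at h4
  have h7 : (P.q : ℝ) ^ j * (m - P.cc - c' / 2) =
      (P.q : ℝ) ^ j * (m - P.cc) - c' / 2 * (P.q : ℝ) ^ j := by ring
  rw [h7] at h4
  linarith

end Pool.Agent.Work.MP_b29d7f_nt.FF
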