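import Pool.Agent.Work.MP_b29d7f_nt.FF.Basic

/-!
# Interface, second part: rigidity and the classification of all dense subsets

Blueprint: section Rigidity of `BLUEPRINT.md`.
-/

set_option linter.unusedSectionVars false

namespace Pool.Agent.Work.MP_b29d7f_nt.FF

open Finset Polynomial
open Pool.Agent.Work.MP_b29d7f_nt.Ded

universe u w

/-- RIGID: for large `j` the initial segments of length `q^j` are exactly boxes -/
def Stmt_Rigid : Prop := ∀ (R : Type u) [CommRing R] [IsDedekindDomain R]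
  [Ring.HasFiniteQuotients R] [Infinite R] (S : Type u) [Fintype S] [Nonempty S] (P : Pack R S)
  (A : ℕ → Finset R), (∀ j, P.Opt j (A j)) →
    ∃ j₀ : ℕ, ∀ j ≥ j₀, ∃ l : S → ℤ, P.deg l + P.χ = j ∧
      ∀ x ∈ A j, ∀ y, y ∈ A j ↔ ∀ v, P.Near v (l v) x y

/-- CHAIN: the union of the initial segments contains everything which is near `A 0` outside one
place of degree one -/
def Stmt_Chain : Prop := ∀ (R : Type u) [CommRing R] [IsDedekindDomain R]
  [Ring.HasFiniteQuotients R] [Infinite R] (S : Type u) [Fintype S] [Nonempty S] (P : Pack R S)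
  (A : ℕ → Finset R), (∀ j, P.Opt j (A j)) → (∀ j, A j ⊆ A (j + 1)) →
    ∃ v, P.d v = 1 ∧ ∃ l : S → ℤ, ∀ x ∈ A 0, ∀ y, (∀ w, w ≠ v → P.Near w (l w) x y) →
      ∃ j, y ∈ A j

/-- LOC2: genus `0` and a place `v` of degree one: a polynomial ring inside `R`, with controlled
poles outside `v` -/
def Stmt_Loc2 : Prop := ∀ (R : Type u) [CommRing R] [IsDedekindDomain R]
  [Ring.HasFiniteQuotients R] [Infinite R] (S : Type u) [Fintype S] (P : Pack R S) (v : S),
  P.χ = 1 → P.d v = 1 → ∀ l : S → ℤ,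
    ∃ (k : Type u) (_ : Field k) (_ : Finite k) (M : Submonoid k[X]) (f : k[X] →+* R),
      M ≤ nonZeroDivisors k[X] ∧ @IsLocalization k[X] _ M R _ f.toAlgebra ∧
      ∃ u : R, IsUnit u ∧ ∀ g : k[X], ∀ w, w ≠ v → P.Near w (l w) (u * f g) 0

/-- CONV2: the image in a localization `R` of `k[X]` of an ordering of `k[X]` is an ordering of `R` -/
def Stmt_Conv2 : Prop := ∀ (R : Type u) [CommRing R] [IsDedekindDomain R]
  [Ring.HasFiniteQuotients R] [Infinite R] (k : Type u) [Field k] [Finite k] (M : Submonoid k[X])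
  (f : k[X] →+* R), M ≤ nonZeroDivisors k[X] → @IsLocalization k[X] _ M R _ f.toAlgebra →
    ∃ α : ℕ → k[X], ∀ p : Ideal R, p.IsPrime → p ≠ ⊥ →
      IsPOrdering Set.univ p (fun n => f (α n))

end Pool.Agent.Work.MP_b29d7f_nt.FF
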