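import Pool.Agent.Work.MP_b29d7f_nt.FF.Basic

/-!
# Block COUNT: counting in products of sets of cells
-/

set_option linter.unusedSectionVars false

namespace Pool.Agent.Work.MP_b29d7f_nt.FF

open Finset Polynomial
open Pool.Agent.Work.MP_b29d7f_nt.Ded

universe u

namespace Pack

variable {R : Type u} [CommRing R] [IsDedekindDomain R] [Ring.HasFiniteQuotients R] [Infinite R]
  {S : Type u} [Fintype S] (P : Pack R S)

theorem card_of_inCells {m : S → ℤ} (hm : (P.c₀ : ℤ) ≤ P.deg m) {M : S → Finset R}
    (hM : ∀ v, P.Sep v (m v) (M v)) {A : Finset R} (hA : ∀ y, y ∈ A ↔ P.InCells m M y) :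
    (A.card : ℝ) = (P.q : ℝ) ^ (P.deg m + P.χ) * ∏ v, ((M v).card : ℝ) := by
  classical
  have htop : (⊤ : Ideal R) ≠ ⊥ := top_ne_bot
  have h1 : A = (Fintype.piFinset M).biUnion fun f => P.cell ⊤ m f := by
    ext y
    rw [hA, Finset.mem_biUnion]
    constructor
    · intro h
      choose f hf hf' using h
      exact ⟨f, Fintype.mem_piFinset.mpr hf, P.mem_cell.mpr ⟨trivial, hf'⟩⟩
    · rintro ⟨f, hf, hy⟩ v
      exact ⟨f v, Fintype.mem_piFinset.mp hf v, (P.mem_cell.mp hy).2 v⟩
  have h2 : ∀ f ∈ Fintype.piFinset M, ∀ g ∈ Fintype.piFinset M, f ≠ g →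
      Disjoint (P.cell ⊤ m f) (P.cell ⊤ m g) := by
    intro f hf g hg hfg
    rw [Finset.disjoint_left]
    intro y hy hy'
    apply hfg
    funext v
    exact hM v _ (Fintype.mem_piFinset.mp hf v) _ (Fintype.mem_piFinset.mp hg v)
      (near_trans (near_symm ((P.mem_cell.mp hy).2 v)) ((P.mem_cell.mp hy').2 v))
  rw [h1, Finset.card_biUnion h2]
  push_cast
  rw [Finset.sum_congr rfl fun f _ => P.card_cell htop (m := m) (by rw [P.dg_top]; simpa using hm) f,
    Finset.sum_const, nsmul_eq_mul, Fintype.card_piFinset, P.dg_top]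
  push_cast
  rw [sub_zero, mul_comm]

end Pack

/-- COUNT -/
theorem stmt_Count : Stmt_Count.{u} := by
  classical
  intro R _ _ _ _ S _ P m hm M hM A hA
  refine ⟨P.card_of_inCells hm hM hA, fun v c hc => ?_⟩
  have hM' : ∀ w, P.Sep w (m w) (Function.update M v {c} w) := by
    intro w
    by_cases hw : w = v
    · subst hw
      rw [Function.update_self]
      intro a ha b hb _
      rw [Finset.mem_singleton] at ha hb
      rw [ha, hb]
    · rw [Function.update_of_ne hw]
      exact hM w
  have hA' : ∀ y, y ∈ A.filter (fun y => P.Near v (m v) y c) ↔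
      P.InCells m (Function.update M v {c}) y := by
    intro y
    rw [Finset.mem_filter, hA]
    constructor
    · rintro ⟨h1, h2⟩ w
      by_cases hw : w = v
      · subst hw
        rw [Function.update_self]
        exact ⟨c, Finset.mem_singleton_self c, h2⟩
      · rw [Function.update_of_ne hw]
        exact h1 w
    · intro h
      have h2 := h v
      rw [Function.update_self] at h2
      obtain ⟨c', hc', h2⟩ := h2
      rw [Finset.mem_singleton] at hc'
      subst hc'
      refine ⟨fun w => ?_, h2⟩
      by_cases hw : w = v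
      · subst hw
        exact ⟨c', hc, h2⟩
      · have h3 := h w
        rwa [Function.update_of_ne hw] at h3
  have h1 := P.card_of_inCells hm hM hA
  have h2 := P.card_of_inCells hm hM' hA'
  rw [← Finset.mul_prod_erase _ _ (Finset.mem_univ v)] at h1 h2
  rw [Function.update_self, Finset.card_singleton, Finset.prod_congr rfl fun w hw => by
    rw [Function.update_of_ne (Finset.ne_of_mem_erase hw)]] at h2
  have h3 : ((((A.filter fun y => P.Near v (m v) y c).card * (M v).card : ℕ)) : ℝ) = (A.card : ℝ) := by
    push_cast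
    rw [h1, h2]
    push_cast
    ring
  exact_mod_cast h3

end Pool.Agent.Work.MP_b29d7f_nt.FF
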