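import Pool.Agent.Work.MP_b29d7f_nt.FF.InsepA

/-!
# Block INSEP: reduction to separable extensions
-/

set_option linter.unusedSectionVars false

namespace Pool.Agent.Work.MP_b29d7f_nt.FF

open Finset Polynomial

universe u w

theorem finrank_lt_of_comp {A B K : Type*} [Field A] [Field B] [Field K] [Algebra A K]
    [Algebra B K] (e : A →+* B) (h : algebraMap A K = (algebraMap B K).comp e)
    [FiniteDimensional A K] (hns : ¬ Function.Surjective e) :
    FiniteDimensional B K ∧ Module.finrank B K < Module.finrank A K := by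
  let _ : Algebra A B := e.toAlgebra
  have : IsScalarTower A B K := IsScalarTower.of_algebraMap_eq fun x => by rw [h]; rfl
  have hBK : FiniteDimensional B K := Module.Finite.of_restrictScalars_finite A B K
  have hAB : FiniteDimensional A B := FiniteDimensional.left A B K
  refine ⟨hBK, ?_⟩
  rw [← Module.finrank_mul_finrank A B K]
  have h1 : 0 < Module.finrank B K := Module.finrank_pos
  have h2 : 0 < Module.finrank A B := Module.finrank_pos
  have h3 : Module.finrank A B ≠ 1 := by
    intro h3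
    apply hns
    intro b
    have h4 := (Subalgebra.bot_eq_top_iff_finrank_eq_one (F := A) (E := B)).mpr h3
    have h5 : b ∈ (⊥ : Subalgebra A B) := by rw [h4]; trivial
    exact Algebra.mem_bot.mp h5
  nlinarith [show 2 ≤ Module.finrank A B by omega]

theorem isIntegral_iff_of_comp {A B K : Type*} [CommRing A] [CommRing B] [CommRing K]
    [Algebra A K] [Algebra B K] (e : A →+* B) (h : algebraMap A K = (algebraMap B K).comp e)
    (he : e.IsIntegral) (x : K) : IsIntegral A x ↔ IsIntegral B x := by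
  let _ : Algebra A B := e.toAlgebra
  have : IsScalarTower A B K := IsScalarTower.of_algebraMap_eq fun x => by rw [h]; rfl
  have : Algebra.IsIntegral A B := ⟨he⟩
  exact ⟨fun hx => hx.tower_top, fun hx => isIntegral_trans x hx⟩

section

variable {Fq : Type w} [Field Fq] [Finite Fq] (p : ℕ) [Fact p.Prime] [CharP Fq p]

theorem expand_isIntegral : ((expand Fq p : Fq[X] →ₐ[Fq] Fq[X]) : Fq[X] →+* Fq[X]).IsIntegral := by
  have hp : p ≠ 0 := (Fact.out : p.Prime).ne_zero
  set e : Fq[X] →+* Fq[X] := ((expand Fq p : Fq[X] →ₐ[Fq] Fq[X]) : Fq[X] →+* Fq[X]) with he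
  have hC : ∀ c : Fq, e.IsIntegralElem (C c) := by
    intro c
    have : C c = e (C c) := by rw [he]; simp
    rw [this]
    exact e.isIntegralElem_map
  have hX : e.IsIntegralElem X := by
    refine ⟨X ^ p - C X, monic_X_pow_sub_C _ hp, ?_⟩
    rw [eval₂_sub, eval₂_X_pow, eval₂_C, he]
    simp
  intro f
  induction f using Polynomial.induction_on with
  | C c => exact hC c
  | add a b ha hb => exact ha.add e hb
  | monomial n c h =>
    rw [pow_succ, ← mul_assoc]
    exact h.mul e hX

/-- the change of the structure -/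
theorem exists_change {K : Type u} [Field K] [a1 : Algebra Fq[X] K] [a2 : Algebra (RatFunc Fq) K]
    [IsScalarTower Fq[X] (RatFunc Fq) K] [hff : FunctionField Fq K] {s : K}
    (hs : s ^ p = algebraMap (RatFunc Fq) K RatFunc.X) :
    ∃ (b1 : Algebra Fq[X] K) (b2 : Algebra (RatFunc Fq) K)
      (_ : @IsScalarTower Fq[X] (RatFunc Fq) K _ b2.toSMul b1.toSMul)
      (_ : @FunctionField Fq K _ _ b2),
      @Module.finrank (RatFunc Fq) K _ _ b2.toModule < @Module.finrank (RatFunc Fq) K _ _ a2.toModule ∧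
      ∀ x : K, @IsIntegral Fq[X] K _ _ a1 x ↔ @IsIntegral Fq[X] K _ _ b1 x := by
  classical
  have hpp : p.Prime := Fact.out
  have hchar : CharP (RatFunc Fq) p := charP_of_injective_algebraMap (algebraMap Fq (RatFunc Fq)).injective p
  have hcharK : CharP K p := charP_of_injective_algebraMap (algebraMap (RatFunc Fq) K).injective p
  have hmap : ∀ f : Fq[X], algebraMap Fq[X] K f = algebraMap (RatFunc Fq) K (algebraMap Fq[X] (RatFunc Fq) f) :=
    fun f => IsScalarTower.algebraMap_apply _ _ _ f
  have hinj0 : Function.Injective (algebraMap Fq[X] K) := FunctionField.algebraMap_injective Fq K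
  -- the new map on polynomials
  let ι : Fq →+* K := (algebraMap Fq[X] K).comp C
  let ψ₀ : Fq[X] →+* K := eval₂RingHom ι s
  have hψC : ∀ c, ψ₀ (C c) = algebraMap Fq[X] K (C c) := fun c => by
    show eval₂ ι s (C c) = _
    rw [eval₂_C]; rfl
  have hψX : ψ₀ X = s := by
    show eval₂ ι s X = _
    rw [eval₂_X]
  have hX : algebraMap Fq[X] K X = s ^ p := by
    rw [hs, hmap, RatFunc.algebraMap_X]
  -- Frobenius
  have hfrob : ∀ f : Fq[X], (ψ₀ f) ^ p = algebraMap Fq[X] K (f.map (frobenius Fq p)) := by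
    have h1 : (frobenius K p).comp ψ₀ = (algebraMap Fq[X] K).comp (mapRingHom (frobenius Fq p)) := by
      refine Polynomial.ringHom_ext (fun c => ?_) ?_
      · rw [RingHom.comp_apply, RingHom.comp_apply, hψC, coe_mapRingHom, map_C, frobenius_def,
          frobenius_def, C_pow, map_pow]
      · rw [RingHom.comp_apply, RingHom.comp_apply, hψX, coe_mapRingHom, map_X, frobenius_def, hX]
    intro f
    exact DFunLike.congr_fun h1 f
  have hψinj : Function.Injective ψ₀ := by
    rw [injective_iff_map_eq_zero]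
    intro f hf
    have h1 := hfrob f
    rw [hf, zero_pow hpp.ne_zero] at h1
    have h2 : f.map (frobenius Fq p) = 0 := hinj0 (by rw [← h1, map_zero])
    exact (Polynomial.map_eq_zero (frobenius Fq p)).mp h2
  -- the old map is the composition with `expand`
  have hcomp0 : algebraMap Fq[X] K = ψ₀.comp ((expand Fq p : Fq[X] →ₐ[Fq] Fq[X]) : Fq[X] →+* Fq[X]) := by
    refine Polynomial.ringHom_ext (fun c => ?_) ?_
    · rw [RingHom.comp_apply]
      have : ((expand Fq p : Fq[X] →ₐ[Fq] Fq[X]) : Fq[X] →+* Fq[X]) (C c) = C c := by simp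
      rw [this, hψC]
    · rw [RingHom.comp_apply]
      have : ((expand Fq p : Fq[X] →ₐ[Fq] Fq[X]) : Fq[X] →+* Fq[X]) X = X ^ p := by simp
      rw [this, map_pow, hψX, hX]
  let ψ : RatFunc Fq →+* K := IsFractionRing.lift hψinj
  have hψ : ∀ f : Fq[X], ψ (algebraMap Fq[X] (RatFunc Fq) f) = ψ₀ f := fun f =>
    IsFractionRing.lift_algebraMap hψinj f
  have hexpinj : Function.Injective ((algebraMap Fq[X] (RatFunc Fq)).comp
      ((expand Fq p : Fq[X] →ₐ[Fq] Fq[X]) : Fq[X] →+* Fq[X])) := by
    refine (IsFractionRing.injective Fq[X] (RatFunc Fq)).comp ?_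
    exact expand_injective hpp.pos
  let e : RatFunc Fq →+* RatFunc Fq := IsFractionRing.lift hexpinj
  have he : ∀ f : Fq[X], e (algebraMap Fq[X] (RatFunc Fq) f) =
      algebraMap Fq[X] (RatFunc Fq) (expand Fq p f) := fun f =>
    IsFractionRing.lift_algebraMap hexpinj f
  have hcomp : algebraMap (RatFunc Fq) K = ψ.comp e := by
    refine IsLocalization.ringHom_ext (nonZeroDivisors Fq[X]) ?_
    refine RingHom.ext fun f => ?_
    rw [RingHom.comp_apply, RingHom.comp_apply, RingHom.comp_apply, he, hψ, ← hmap, hcomp0]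
    rfl
  have hns : ¬ Function.Surjective e := by
    intro hsurj
    obtain ⟨f, hf⟩ := hsurj RatFunc.X
    -- `s` would be in `F_q(t)`
    have h1 : algebraMap (RatFunc Fq) K f = s := by
      rw [hcomp, RingHom.comp_apply, hf]
      have := hψ X
      rwa [RatFunc.algebraMap_X, hψX] at this
    have h2 : f ^ p = RatFunc.X := by
      apply (algebraMap (RatFunc Fq) K).injective
      rw [map_pow, h1, hs]
    have hf0 : f ≠ 0 := by
      rintro rfl
      rw [zero_pow hpp.ne_zero] at h2
      exact RatFunc.X_ne_zero h2.symm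
    have h3 : ∀ n : ℕ, RatFunc.intDegree (f ^ n) = n * RatFunc.intDegree f := by
      intro n
      induction n with
      | zero => simp
      | succ n ih =>
        rw [pow_succ, RatFunc.intDegree_mul (pow_ne_zero n hf0) hf0, ih]
        push_cast; ring
    have h4 := h3 p
    rw [h2, RatFunc.intDegree_X] at h4
    have h5 : (p : ℤ) ∣ 1 := ⟨_, h4⟩
    have h6 : p ∣ 1 := by exact_mod_cast h5
    exact hpp.one_lt.ne' (Nat.dvd_one.mp h6)
  let b1 : Algebra Fq[X] K := ψ₀.toAlgebra
  let b2 : Algebra (RatFunc Fq) K := ψ.toAlgebra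
  have htower : @IsScalarTower Fq[X] (RatFunc Fq) K _ b2.toSMul b1.toSMul :=
    @IsScalarTower.of_algebraMap_eq Fq[X] (RatFunc Fq) K _ _ _ _ b2 b1 (fun f => (hψ f).symm)
  have hfin := @finrank_lt_of_comp (RatFunc Fq) (RatFunc Fq) K _ _ _ a2 b2 e hcomp hff hns
  refine ⟨b1, b2, htower, hfin.1, hfin.2, fun x => ?_⟩
  exact @isIntegral_iff_of_comp Fq[X] Fq[X] K _ _ _ a1 b1 _ hcomp0 (expand_isIntegral p) x

end

theorem insep_aux (Fq : Type w) [Field Fq] [Finite Fq] (K : Type u) [Field K] (n : ℕ) :
    ∀ (a1 : Algebra Fq[X] K) (a2 : Algebra (RatFunc Fq) K)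
      (_ : @IsScalarTower Fq[X] (RatFunc Fq) K _ a2.toSMul a1.toSMul)
      (_ : @FunctionField Fq K _ _ a2),
      @Module.finrank (RatFunc Fq) K _ _ a2.toModule ≤ n →
    ∃ (b1 : Algebra Fq[X] K) (b2 : Algebra (RatFunc Fq) K)
      (_ : @IsScalarTower Fq[X] (RatFunc Fq) K _ b2.toSMul b1.toSMul)
      (_ : @FunctionField Fq K _ _ b2) (_ : @Algebra.IsSeparable (RatFunc Fq) K _ _ b2),
      ∀ x : K, @IsIntegral Fq[X] K _ _ a1 x ↔ @IsIntegral Fq[X] K _ _ b1 x := by
  induction n with
  | zero =>
    intro a1 a2 h1 h2 h3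
    have : 0 < @Module.finrank (RatFunc Fq) K _ _ a2.toModule := Module.finrank_pos
    omega
  | succ n ih =>
    intro a1 a2 h1 h2 h3
    by_cases hsep : @Algebra.IsSeparable (RatFunc Fq) K _ _ a2
    · exact ⟨a1, a2, h1, h2, hsep, fun x => Iff.rfl⟩
    · obtain ⟨p, hchar⟩ := CharP.exists Fq
      have hp : Fact p.Prime := ⟨(CharP.char_is_prime_or_zero Fq p).resolve_right fun h0 => by
        subst h0
        have : CharZero Fq := CharP.charP_to_charZero Fq
        exact not_finite Fq⟩
      have hcharR : CharP (RatFunc Fq) p :=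
        charP_of_injective_algebraMap (algebraMap Fq (RatFunc Fq)).injective p
      have hcharK : CharP K p :=
        charP_of_injective_algebraMap (algebraMap (RatFunc Fq) K).injective p
      obtain ⟨s, hs⟩ := exists_root p hsep
      obtain ⟨b1, b2, h4, h5, h6, h7⟩ := exists_change p hs
      obtain ⟨c1, c2, h8, h9, h10, h11⟩ := ih b1 b2 h4 h5 (by omega)
      exact ⟨c1, c2, h8, h9, h10, fun x => (h7 x).trans (h11 x)⟩

theorem stmt_Insep : Stmt_Insep.{u, w} := by
  intro Fq _ _ K _ a1 a2 h1 h2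
  obtain ⟨b1, b2, h3, h4, h5, h6⟩ := insep_aux Fq K (Module.finrank (RatFunc Fq) K) a1 a2 h1 h2 le_rfl
  refine ⟨K, inferInstance, b1, b2, h3, h4, h5, ⟨?_⟩⟩
  exact
    { toFun := fun x => ⟨x.1, (h6 x.1).mp x.2⟩
      invFun := fun x => ⟨x.1, (h6 x.1).mpr x.2⟩
      left_inv := fun x => rfl
      right_inv := fun x => rfl
      map_mul' := fun x y => rfl
      map_add' := fun x y => rfl }

end Pool.Agent.Work.MP_b29d7f_nt.FF
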