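import Pool.Agent.Work.MP_b29d7f_nt.FF.Basic

/-!
# Blocks TREEA and TREEB: the energy of a set of cells
-/

set_option linter.unusedSectionVars false

namespace Pool.Agent.Work.MP_b29d7f_nt.FF

open Finset Polynomial
open Pool.Agent.Work.MP_b29d7f_nt.Ded

universe u

namespace Pack

variable {R : Type u} [CommRing R] [IsDedekindDomain R] [Ring.HasFiniteQuotients R] [Infinite R]
  {S : Type u} [Fintype S] (P : Pack R S)

theorem exists_near_tree (v : S) (l : ℤ) (M : Finset R) (x : R) (T₀ : ℕ) :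
    ∃ T : ℕ, T₀ ≤ T ∧ ∀ c ∈ M, P.Near v (l + T) x c := by
  classical
  refine ⟨T₀ + M.sup fun c => (P.lev v (x - c) - l).toNat, Nat.le_add_right _ _, fun c hc => ?_⟩
  right
  have h1 : (P.lev v (x - c) - l).toNat ≤ M.sup fun c => (P.lev v (x - c) - l).toNat :=
    Finset.le_sup (f := fun c => (P.lev v (x - c) - l).toNat) hc
  have h2 := Int.self_le_toNat (P.lev v (x - c) - l)
  have h3 : (((P.lev v (x - c) - l).toNat : ℕ) : ℤ) ≤
      ((M.sup fun c => (P.lev v (x - c) - l).toNat : ℕ) : ℤ) := by exact_mod_cast h1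
  push_cast
  omega

open scoped Classical in
theorem sum_cap_eq {v : S} {l : ℤ} {M : Finset R} {x : R} {T : ℕ}
    (hT : ∀ c ∈ M, P.Near v (l + T) x c) :
    ∑ c ∈ M, P.cap v l x c = P.d v * (M.card * l +
      ∑ i ∈ range T, ((M.filter fun c => ¬ P.Near v (l + i) x c).card : ℝ)) := by
  rw [Finset.sum_congr rfl fun c hc => P.cap_eq_sum (hT c hc), ← Finset.mul_sum,
    Finset.sum_add_distrib, Finset.sum_const, nsmul_eq_mul, Finset.sum_comm]
  congr 2
  refine Finset.sum_congr rfl fun i _ => ?_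
  rw [Finset.card_filter]
  push_cast
  refine Finset.sum_congr rfl fun c _ => ?_
  by_cases h : P.Near v (l + i) x c
  · rw [if_pos h, if_neg (not_not.mpr h)]
  · rw [if_neg h, if_pos h]

open scoped Classical in
theorem sub_le_card_not_near {v : S} {l : ℤ} {M : Finset R} (hM : P.Sep v l M) (x : R) (i : ℕ) :
    (M.card : ℝ) - ((P.q : ℝ) ^ P.d v) ^ i ≤
      ((M.filter fun c => ¬ P.Near v (l + i) x c).card : ℝ) := by
  have h1 := P.branch (v := v) (l := l) (n := i) (F := M.filter fun c => P.Near v (l + i) x c)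
    (fun y hy z hz => near_trans (near_symm (Finset.mem_filter.mp hy).2) (Finset.mem_filter.mp hz).2)
    (fun y hy z hz h => hM y (Finset.mem_filter.mp hy).1 z (Finset.mem_filter.mp hz).1 h)
  have h2 := Finset.card_filter_add_card_filter_not (s := M) (fun c => P.Near v (l + i) x c)
  have h3 : ((M.filter fun c => P.Near v (l + i) x c).card : ℝ) ≤ ((P.q : ℝ) ^ P.d v) ^ i := by
    exact_mod_cast h1
  have h4 : ((M.filter fun c => P.Near v (l + i) x c).card : ℝ) +
      ((M.filter fun c => ¬ P.Near v (l + i) x c).card : ℝ) = M.card := by exact_mod_cast h2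
  linarith

end Pack

/-! ### the one-variable inequality -/

/-- `h(u) = u (Q - 1) + 1 - Q^u` -/
noncomputable def hfun (Q u : ℝ) : ℝ := 1 + u * (Q - 1) - Q ^ u

theorem hfun_nonneg {Q u : ℝ} (hQ : 1 < Q) (h0 : 0 ≤ u) (h1 : u ≤ 1) : 0 ≤ hfun Q u := by
  unfold hfun
  have h := rpow_one_add_le_one_add_mul_self (s := Q - 1) (by linarith) h0 h1
  rw [add_sub_cancel] at h
  linarith

theorem hfun_pos {Q u : ℝ} (hQ : 1 < Q) (h0 : 0 < u) (h1 : u < 1) : 0 < hfun Q u := by
  unfold hfun
  have h := rpow_one_add_lt_one_add_mul_self (s := Q - 1) (by linarith) (by linarith) h0 h1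
  rw [add_sub_cancel] at h
  linarith

theorem exists_hfun {Q δ : ℝ} (hQ : 1 < Q) (h0 : 0 < δ) (h1 : δ ≤ 1 / 2) :
    ∃ η : ℝ, 0 < η ∧ ∀ u, 0 ≤ u → u ≤ 1 → hfun Q u < η → u < δ ∨ 1 - δ < u := by
  have hc : ContinuousOn (hfun Q) (Set.Icc δ (1 - δ)) := by
    unfold hfun
    refine Continuous.continuousOn ?_
    refine ((continuous_const.add (continuous_id.mul continuous_const))).sub ?_
    exact Real.continuous_const_rpow (by linarith)
  obtain ⟨u₀, hu₀, hmin⟩ := isCompact_Icc.exists_isMinOn (Set.nonempty_Icc.mpr (by linarith)) hc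
  refine ⟨hfun Q u₀, hfun_pos hQ (by linarith [hu₀.1]) (by linarith [hu₀.2]), fun u h2 h3 h4 => ?_⟩
  by_contra hcon
  push Not at hcon
  have h5 := hmin (show u ∈ Set.Icc δ (1 - δ) from ⟨hcon.1, hcon.2⟩)
  change hfun Q u₀ ≤ hfun Q u at h5
  linarith

theorem sum_geom (Q s : ℝ) (hQ : 1 < Q) (L : ℕ) :
    ∑ i ∈ range L, (s - Q ^ i) = s * L - (Q ^ L - 1) / (Q - 1) := by
  rw [Finset.sum_sub_distrib, Finset.sum_const, Finset.card_range, nsmul_eq_mul,
    geom_sum_eq (by linarith)]
  ring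

/-- the number of levels: `Q^L = s Q^u` with `0 ≤ u < 1` -/
theorem exists_level_tree {Q s : ℝ} (hQ : 1 < Q) (hs : 1 ≤ s) : ∃ (L : ℕ) (u : ℝ), 0 ≤ u ∧ u < 1 ∧
    (L : ℝ) = Real.logb Q s + u ∧ Q ^ L = s * Q ^ u ∧
    ∑ i ∈ range L, (s - Q ^ i) =
      s * (Real.logb Q s - 1 / (Q - 1)) + s * hfun Q u / (Q - 1) + 1 / (Q - 1) := by
  have hl : 0 ≤ Real.logb Q s := Real.logb_nonneg hQ hs
  refine ⟨⌈Real.logb Q s⌉₊, ⌈Real.logb Q s⌉₊ - Real.logb Q s, ?_, ?_, by ring, ?_, ?_⟩
  · linarith [Nat.le_ceil (Real.logb Q s)]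
  · linarith [Nat.ceil_lt_add_one hl]
  · rw [Real.rpow_sub (by linarith), Real.rpow_logb (by linarith) (by linarith) (by linarith),
      Real.rpow_natCast]
    field_simp
  · have h1 : Q ^ ⌈Real.logb Q s⌉₊ = s * Q ^ ((⌈Real.logb Q s⌉₊ : ℝ) - Real.logb Q s) := by
      rw [Real.rpow_sub (by linarith), Real.rpow_logb (by linarith) (by linarith) (by linarith),
        Real.rpow_natCast]
      field_simp
    rw [sum_geom Q s hQ, h1]
    unfold hfun
    have h2 : Q - 1 ≠ 0 := by linarith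
    field_simp
    ring

/-- TREE A -/
theorem stmt_TreeA : Stmt_TreeA.{u} := by
  classical
  intro R _ _ _ _ S _ P v l M hM hne x
  have hq := P.one_lt_q'
  have hd := P.one_le_d v
  set Q : ℝ := (P.q : ℝ) ^ P.d v with hQdef
  have hQ : 1 < Q := one_lt_pow₀ hq (by omega)
  set s : ℝ := (M.card : ℝ) with hsdef
  have hs : 1 ≤ s := by
    rw [hsdef]
    exact_mod_cast hne.card_pos
  obtain ⟨L, u, hu0, hu1, hL, hQL, hsum⟩ := exists_level_tree hQ hs
  obtain ⟨T, hLT, hT⟩ := P.exists_near_tree v l M x L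
  rw [P.sum_cap_eq hT]
  have h1 : ∑ i ∈ range L, (s - Q ^ i) ≤
      ∑ i ∈ range T, ((M.filter fun c => ¬ P.Near v (l + i) x c).card : ℝ) :=
    (Finset.sum_le_sum fun i _ => P.sub_le_card_not_near hM x i).trans
      (Finset.sum_le_sum_of_subset_of_nonneg (Finset.range_mono hLT) fun _ _ _ => by positivity)
  have h2 : 0 ≤ s * hfun Q u / (Q - 1) := by
    have := hfun_nonneg hQ hu0 hu1.le
    have : 0 < Q - 1 := by linarith
    positivity
  have h3 : 0 ≤ 1 / (Q - 1) := by
    have : 0 < Q - 1 := by linarith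
    positivity
  have h4 : P.lg s = P.d v * Real.logb Q s := by
    unfold Pack.lg
    rw [hQdef, Real.logb, Real.logb, Real.log_pow]
    have : Real.log P.q ≠ 0 := (Real.log_pos hq).ne'
    have : (P.d v : ℝ) ≠ 0 := by positivity
    field_simp
  rw [h4]
  have h5 : s * (Real.logb Q s - 1 / (Q - 1)) ≤
      ∑ i ∈ range T, ((M.filter fun c => ¬ P.Near v (l + i) x c).card : ℝ) := by linarith
  have h6 := mul_le_mul_of_nonneg_left h5 (show (0 : ℝ) ≤ P.d v by positivity)
  have h7 : s * (P.d v * l + P.d v * Real.logb Q s - (P.d v : ℝ) / (Q - 1)) =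
      P.d v * (s * l) + P.d v * (s * (Real.logb Q s - 1 / (Q - 1))) := by ring
  rw [h7]
  linarith

open scoped Classical in
/-- stability for one place -/
theorem treeB_aux {R : Type u} [CommRing R] [IsDedekindDomain R]
    [Ring.HasFiniteQuotients R] [Infinite R] {S : Type u} [Fintype S] (P : Pack R S)
    {τ : ℝ} (hτ : 0 < τ) (v : S) : ∃ e : ℝ, 0 < e ∧ ∀ (l : ℤ) (M : Finset R), P.Sep v l M →
    M.Nonempty → ∀ x : R,
    ∑ c ∈ M, P.cap v l x c ≤
      (M.card : ℝ) * (P.d v * l + P.lg M.card - (P.d v : ℝ) / ((P.q : ℝ) ^ P.d v - 1) + e) →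
    ∃ a : ℕ, |(M.card : ℝ) - ((P.q : ℝ) ^ P.d v) ^ a| ≤ τ * M.card ∧
      ((M.filter fun c => ¬ P.Near v (l + a) x c).card : ℝ) ≤ τ * M.card := by
  have hq := P.one_lt_q'
  have hd := P.one_le_d v
  have hd' : (1 : ℝ) ≤ P.d v := by exact_mod_cast hd
  set Q : ℝ := (P.q : ℝ) ^ P.d v with hQdef
  have hQ : 1 < Q := one_lt_pow₀ hq (by omega)
  have hQ1 : 0 < Q - 1 := by linarith
  set δ : ℝ := min (1 / 2) (τ / (2 * (Q - 1))) with hδ
  have hδ0 : 0 < δ := lt_min (by norm_num) (by positivity)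
  have hδ1 : δ ≤ 1 / 2 := min_le_left _ _
  have hδ2 : δ * (Q - 1) ≤ τ / 2 := by
    have h1 : δ ≤ τ / (2 * (Q - 1)) := min_le_right _ _
    have h2 := mul_le_mul_of_nonneg_right h1 hQ1.le
    have h3 : τ / (2 * (Q - 1)) * (Q - 1) = τ / 2 := by field_simp
    linarith
  obtain ⟨η, hη0, hη⟩ := exists_hfun hQ hδ0 hδ1
  refine ⟨min (τ / 2) (η / (2 * (Q - 1))), lt_min (by positivity) (by positivity),
    fun l M hM hne x hle => ?_⟩
  set e : ℝ := min (τ / 2) (η / (2 * (Q - 1))) with he
  have he1 : e ≤ τ / 2 := min_le_left _ _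
  have he2 : e * (Q - 1) ≤ η / 2 := by
    have h1 : e ≤ η / (2 * (Q - 1)) := min_le_right _ _
    have h2 := mul_le_mul_of_nonneg_right h1 hQ1.le
    have h3 : η / (2 * (Q - 1)) * (Q - 1) = η / 2 := by field_simp
    linarith
  have he0 : 0 < e := lt_min (by positivity) (by positivity)
  set s : ℝ := (M.card : ℝ) with hsdef
  have hs : 1 ≤ s := by
    rw [hsdef]
    exact_mod_cast hne.card_pos
  obtain ⟨L, u, hu0, hu1, hL, hQL, hsum⟩ := exists_level_tree hQ hs
  obtain ⟨T, hLT, hT⟩ := P.exists_near_tree v l M x (L + 1)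
  rw [P.sum_cap_eq hT] at hle
  have h4 : P.lg s = P.d v * Real.logb Q s := by
    unfold Pack.lg
    rw [hQdef, Real.logb, Real.logb, Real.log_pow]
    have : Real.log P.q ≠ 0 := (Real.log_pos hq).ne'
    have : (P.d v : ℝ) ≠ 0 := by positivity
    field_simp
  rw [h4] at hle
  set c : ℕ → ℝ := fun i => ((M.filter fun c => ¬ P.Near v (l + i) x c).card : ℝ) with hc
  have hc0 : ∀ i, 0 ≤ c i := fun i => by rw [hc]; positivity
  have hc1 : ∀ i, s - Q ^ i ≤ c i := fun i => P.sub_le_card_not_near hM x i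
  -- the defect is at most `e s`
  have hdef : ∑ i ∈ range T, c i ≤ s * (Real.logb Q s - 1 / (Q - 1)) + s * e := by
    have h6 : P.d v * (s * l + ∑ i ∈ range T, c i) ≤
        P.d v * (s * l + s * (Real.logb Q s - 1 / (Q - 1)) + s * e) := by
      refine hle.trans ?_
      have h7 : s * (P.d v * l + P.d v * Real.logb Q s - (P.d v : ℝ) / (Q - 1) + e) =
        P.d v * (s * l + s * (Real.logb Q s - 1 / (Q - 1))) + s * e := by ring
      rw [h7]
      have h8 : s * e ≤ P.d v * (s * e) := by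
        have : 0 ≤ s * e := by positivity
        nlinarith
      linarith
    have h7 := le_of_mul_le_mul_left h6 (by positivity)
    linarith
  have h1Q : 0 < 1 / (Q - 1) := by positivity
  have hf0 : 0 ≤ s * hfun Q u / (Q - 1) := by
    have := hfun_nonneg hQ hu0 hu1.le
    positivity
  have hse : s * e ≤ τ / 2 * s := by
    rw [mul_comm s e]
    exact mul_le_mul_of_nonneg_right he1 (by linarith)
  have hτs : 0 ≤ τ * s := by positivity
  -- a single level
  have hsingle : ∀ a, a < T → c a - max (s - Q ^ a) 0 ≤ s * e - s * hfun Q u / (Q - 1) := by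
    intro a ha
    have h1 : ∑ i ∈ range T, ((if i < L then s - Q ^ i else 0) +
        (if i = a then c a - max (s - Q ^ a) 0 else 0)) ≤ ∑ i ∈ range T, c i := by
      refine Finset.sum_le_sum fun i _ => ?_
      by_cases hia : i = a
      · subst hia
        rw [if_pos rfl]
        by_cases hiL : i < L
        · rw [if_pos hiL]
          linarith [le_max_left (s - Q ^ i) 0]
        · rw [if_neg hiL]
          linarith [le_max_right (s - Q ^ i) 0]
      · rw [if_neg hia, add_zero]
        by_cases hiL : i < L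
        · rw [if_pos hiL]
          exact hc1 i
        · rw [if_neg hiL]
          exact hc0 i
    rw [Finset.sum_add_distrib, Finset.sum_ite_eq' (range T) a, if_pos (Finset.mem_range.mpr ha),
      ← Finset.sum_filter] at h1
    have h2 : (range T).filter (fun i => i < L) = range L := by
      ext i
      rw [Finset.mem_filter, Finset.mem_range, Finset.mem_range]
      omega
    rw [h2, hsum] at h1
    linarith
  have hu : u < δ ∨ 1 - δ < u := by
    apply hη u hu0 hu1.le
    have h8 := hsingle L (by omega)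
    have h9 : 0 ≤ c L - max (s - Q ^ L) 0 := sub_nonneg.mpr (max_le (hc1 L) (hc0 L))
    have h10 : s * hfun Q u / (Q - 1) ≤ s * e := by linarith
    rw [div_le_iff₀ hQ1, mul_assoc] at h10
    have h11 := le_of_mul_le_mul_left h10 (by linarith)
    linarith
  rcases hu with hu | hu
  · refine ⟨L, ?_, ?_⟩
    · have h12 := rpow_one_add_le_one_add_mul_self (s := Q - 1) (by linarith) hu0 hu1.le
      rw [add_sub_cancel] at h12
      have h13 : 1 ≤ Q ^ u := Real.one_le_rpow hQ.le hu0
      have h15 : s * 1 ≤ s * Q ^ u := mul_le_mul_of_nonneg_left h13 (by linarith)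
      rw [hQL, abs_sub_comm, abs_of_nonneg (by linarith)]
      have h14 : u * (Q - 1) ≤ τ / 2 := (mul_le_mul_of_nonneg_right hu.le hQ1.le).trans hδ2
      have h16 : s * Q ^ u ≤ s * (1 + τ / 2) := mul_le_mul_of_nonneg_left (by linarith) (by linarith)
      linarith
    · have h8 := hsingle L (by omega)
      have h12 : s - Q ^ L ≤ 0 := by
        rw [hQL]
        have h13 : 1 ≤ Q ^ u := Real.one_le_rpow hQ.le hu0
        have h15 : s * 1 ≤ s * Q ^ u := mul_le_mul_of_nonneg_left h13 (by linarith)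
        linarith
      rw [max_eq_right h12] at h8
      change c L ≤ τ * s
      linarith
  · have hLpos : 1 ≤ L := by
      by_contra hcon
      have hL0 : L = 0 := by omega
      rw [hL0] at hL
      have := Real.logb_nonneg hQ hs
      push_cast at hL
      linarith
    obtain ⟨a, rfl⟩ : ∃ a, L = a + 1 := ⟨L - 1, by omega⟩
    have hw1 : Q * Q ^ a = s * Q ^ u := by rw [← hQL, pow_succ, mul_comm]
    have hw2 : s = Q ^ a * Q ^ (1 - u) := by
      rw [Real.rpow_sub (by linarith), Real.rpow_one]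
      have : Q ^ u ≠ 0 := (Real.rpow_pos_of_pos (by linarith) u).ne'
      field_simp
      linarith
    have h12 := rpow_one_add_le_one_add_mul_self (s := Q - 1) (by linarith)
      (show 0 ≤ 1 - u by linarith) (by linarith)
    rw [add_sub_cancel] at h12
    have h13 : 1 ≤ Q ^ (1 - u) := Real.one_le_rpow hQ.le (by linarith)
    have hQa : 0 < Q ^ a := by positivity
    have h14 : Q ^ a ≤ s := by
      have : Q ^ a * 1 ≤ Q ^ a * Q ^ (1 - u) := mul_le_mul_of_nonneg_left h13 hQa.le
      linarith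
    have h15 : (1 - u) * (Q - 1) ≤ τ / 2 :=
      (mul_le_mul_of_nonneg_right (by linarith : 1 - u ≤ δ) hQ1.le).trans hδ2
    have h16 : s - Q ^ a ≤ τ / 2 * s := by
      have h17 : s - Q ^ a ≤ Q ^ a * (τ / 2) := by
        have : Q ^ a * Q ^ (1 - u) ≤ Q ^ a * (1 + τ / 2) :=
          mul_le_mul_of_nonneg_left (by linarith) hQa.le
        linarith
      have h18 : Q ^ a * (τ / 2) ≤ s * (τ / 2) := mul_le_mul_of_nonneg_right h14 (by linarith)
      linarith
    refine ⟨a, ?_, ?_⟩
    · rw [abs_of_nonneg (by linarith)]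
      linarith
    · have h8 := hsingle a (by omega)
      rw [max_eq_left (by linarith)] at h8
      change c a ≤ τ * s
      linarith

/-- TREE B -/
theorem stmt_TreeB : Stmt_TreeB.{u} := by
  classical
  intro R _ _ _ _ S _ P τ hτ
  choose e he0 he using fun v : S => treeB_aux P hτ v
  rcases isEmpty_or_nonempty S with hS | hS
  · exact ⟨1, one_pos, fun v => (hS.false v).elim⟩
  obtain ⟨v₀, -, hv₀⟩ := Finset.exists_min_image (Finset.univ : Finset S) e Finset.univ_nonempty
  refine ⟨e v₀, he0 v₀, fun v l M hM hne x hle => he v l M hM hne x (hle.trans ?_)⟩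
  refine mul_le_mul_of_nonneg_left ?_ (by positivity)
  have := hv₀ v (Finset.mem_univ v)
  linarith

end Pool.Agent.Work.MP_b29d7f_nt.FF
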