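import Pool.Agent.Work.MP_b29d7f_nt.FF.Cellsum
import Pool.Agent.Work.MP_b29d7f_nt.FF.Tree

/-!
# Block LOWER: the lower bound of the potential of optimal sets
-/

set_option linter.unusedSectionVars false

namespace Pool.Agent.Work.MP_b29d7f_nt.FF

open Finset Polynomial
open Pool.Agent.Work.MP_b29d7f_nt.Ded

universe u

theorem log_entropy {L N n j c η : ℝ} (hL : 0 < L) (hn : 0 < n) (hN : 0 < N) (hj : Real.log n = j * L)
    (hN1 : (1 - η) * n ≤ N) (hN2 : N ≤ n) :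
    n * (j - c) - n * (η * |j - c|) - n * (η / L) ≤ N * (Real.log N / L - c) := by
  have hη : 0 ≤ η := by
    by_contra hcon
    nlinarith
  obtain ⟨t, rfl⟩ : ∃ t, N = n * t := ⟨N / n, by field_simp⟩
  have ht : 0 < t := by
    by_contra hcon
    nlinarith
  have ht1 : t ≤ 1 := by
    by_contra hcon
    nlinarith
  have ht2 : 1 - η ≤ t := by
    by_contra hcon
    nlinarith
  rw [Real.log_mul hn.ne' ht.ne', hj]
  have h1 : t - 1 ≤ t * Real.log t := by
    have h2 := Real.one_sub_inv_le_log_of_pos ht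
    have h3 := mul_le_mul_of_nonneg_left h2 ht.le
    rw [mul_sub, mul_inv_cancel₀ ht.ne', mul_one] at h3
    exact h3
  have h2 : n * t * ((j * L + Real.log t) / L - c) = n * (t * (j - c)) + n * (t * Real.log t / L) := by
    field_simp
    ring
  rw [h2]
  have h3 : (j - c) - η * |j - c| ≤ t * (j - c) := by
    have h4 : (1 - t) * (j - c) ≤ η * |j - c| := by
      have h5 : (1 - t) * (j - c) ≤ (1 - t) * |j - c| :=
        mul_le_mul_of_nonneg_left (le_abs_self _) (by linarith)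
      have h6 : (1 - t) * |j - c| ≤ η * |j - c| :=
        mul_le_mul_of_nonneg_right (by linarith) (abs_nonneg _)
      linarith
    linarith
  have h4 : -(η / L) ≤ t * Real.log t / L := by
    rw [← neg_div]
    exact div_le_div_of_nonneg_right (by linarith) hL.le
  have h5 := mul_le_mul_of_nonneg_left h3 hn.le
  have h6 := mul_le_mul_of_nonneg_left h4 hn.le
  linarith

open scoped Classical in
/-- the common part of LOWER and BALL -/
theorem key (hTight : Stmt_Tight.{u}) (hCells : Stmt_Cells.{u}) (hPot : Stmt_Pot.{u})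
    {R : Type u} [CommRing R] [IsDedekindDomain R] [Ring.HasFiniteQuotients R] [Infinite R]
    {S : Type u} [Fintype S] [Nonempty S] (P : Pack R S) {ε : ℝ} (hε : 0 < ε) :
    ∃ j₀ : ℕ, ∀ j ≥ j₀, ∀ A, P.Opt j A → ∃ (m : S → ℤ) (M : S → Finset R) (η : ℝ) (x : R),
      (P.c₀ : ℤ) ≤ P.deg m ∧ (∀ v, P.Sep v (m v) (M v)) ∧ (∀ v, (M v).Nonempty) ∧
      (∀ y, P.InCells m M y → y ∈ A) ∧ 0 ≤ η ∧ η ≤ ε ∧
      (1 - η) * (P.q : ℝ) ^ j ≤ ((A.filter fun y => P.InCells m M y).card : ℝ) ∧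
      x ∈ A ∧ P.InCells m M x ∧
      ∑ x ∈ A, ∑ b ∈ A, P.gap m x b ≤ (η * (P.q : ℝ) ^ j) ^ 2 ∧
      (P.q : ℝ) ^ j * (j - P.χ - P.cc - ε) +
        ∑ v, (((A.filter fun y => P.InCells m M y).card : ℝ) / (M v).card) * P.defect m M x v ≤
        P.pot j := by
  obtain ⟨C, ρ, j₁, hC, hρ, hρ1, hT⟩ := hTight R S P
  obtain ⟨ε₀, j₂, hε₀, hCl⟩ := hCells R S P
  have hq := P.one_lt_q'
  have hL : 0 < Real.log P.q := Real.log_pos hq
  set K : ℝ := |(P.χ : ℝ) + P.cc| + 1 + 1 / Real.log P.q with hK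
  set ε' : ℝ := min (min ε ε₀) (1 / 2) with hε'
  have hε'0 : 0 < ε' := lt_min (lt_min hε hε₀) (by norm_num)
  obtain ⟨j₃, hj₃⟩ := exists_small_rho hC hρ hρ1 K hε'0
  refine ⟨max (max j₁ j₂) j₃, fun j hj A hA => ?_⟩
  obtain ⟨hs1, hs2, hs3, hs4, hs5⟩ := hj₃ j ((le_max_right _ _).trans hj)
  have hj1 : j₁ ≤ j := ((le_max_left _ _).trans (le_max_left _ _)).trans hj
  have hj2 : j₂ ≤ j := ((le_max_right _ _).trans (le_max_left _ _)).trans hj
  have hε1 : ε' ≤ ε := (min_le_left _ _).trans (min_le_left _ _)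
  have hε2 : ε' ≤ ε₀ := (min_le_left _ _).trans (min_le_right _ _)
  have hε3 : ε' ≤ 1 / 2 := min_le_right _ _
  obtain ⟨m, hm, hgap⟩ := hT j hj1 A hA
  have hgap' : ∑ x ∈ A, ∑ b ∈ A, P.gap m x b ≤ (C * ρ ^ j) * ((P.q : ℝ) ^ j) ^ 2 := by
    refine hgap.trans (le_of_eq ?_)
    ring
  obtain ⟨M, hM, hMA, hcard, x, hx, hxM, hxg⟩ := hCl j hj2 A hA m hm (C * ρ ^ j) hs1
    (hs2.trans hε2) hgap'
  set η : ℝ := Real.sqrt (C * ρ ^ j) with hη
  have hη0 : 0 ≤ η := Real.sqrt_nonneg _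
  have hη2 : η ^ 2 = C * ρ ^ j := Real.sq_sqrt hs1.le
  have hne : ∀ v, (M v).Nonempty := fun v => by
    obtain ⟨c, hc, -⟩ := hxM v
    exact ⟨c, hc⟩
  refine ⟨m, M, η, x, hm, hM, hne, hMA, hη0, hs3.trans hε1, hcard, hx, hxM, ?_, ?_⟩
  · rw [mul_pow, hη2]
    exact hgap'
  set A' : Finset R := A.filter fun y => P.InCells m M y with hA'
  have hA'mem : ∀ y, y ∈ A' ↔ P.InCells m M y := by
    intro y
    rw [hA', Finset.mem_filter]
    exact ⟨fun h => h.2, fun h => ⟨hMA y h, h⟩⟩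
  have hsub : A' ⊆ A := Finset.filter_subset _ _
  have hpot := (hPot R S P).1 j A hA x hx
  have hkap : ∑ b ∈ A, P.kap m x b = P.pot j + ∑ b ∈ A, P.gap m x b := by
    rw [← hpot, ← Finset.sum_add_distrib]
    exact Finset.sum_congr rfl fun b _ => P.kap_eq m x b
  have hdeg : (0 : ℝ) ≤ P.deg m := by
    have : (0 : ℤ) ≤ P.deg m := le_trans (by positivity) hm
    exact_mod_cast this
  have hkap' : ∑ b ∈ A', P.kap m x b ≤ ∑ b ∈ A, P.kap m x b :=
    Finset.sum_le_sum_of_subset_of_nonneg hsub fun b _ _ => hdeg.trans (P.deg_le_kap m x b)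
  rw [P.sum_kap_cells' hm hM hA'mem hne x] at hkap'
  have hn : (0 : ℝ) < (P.q : ℝ) ^ j := pow_pos P.q_pos' j
  have hN : (0 : ℝ) < A'.card := by
    refine lt_of_lt_of_le ?_ hcard
    have : 0 < 1 - η := by linarith
    positivity
  have hN2 : (A'.card : ℝ) ≤ (P.q : ℝ) ^ j := by
    have h1 := Finset.card_le_card hsub
    rw [hA.card] at h1
    exact_mod_cast h1
  have hent := log_entropy (L := Real.log P.q) (N := A'.card) (n := (P.q : ℝ) ^ j) (j := j)
    (c := P.χ + P.cc) (η := η) hL hn hN (by rw [Real.log_pow]) hcard hN2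
  have hlg : P.lg A'.card = Real.log A'.card / Real.log P.q := rfl
  rw [hlg] at hkap'
  have h1 : η * |(j : ℝ) - (P.χ + P.cc)| + η / Real.log P.q + η ≤ ε := by
    have h2 : |(j : ℝ) - (P.χ + P.cc)| ≤ j + |(P.χ : ℝ) + P.cc| := by
      have h3 := abs_sub (j : ℝ) (P.χ + P.cc)
      rwa [abs_of_nonneg (show (0 : ℝ) ≤ j by positivity)] at h3
    have h3 := mul_le_mul_of_nonneg_left h2 hη0
    have h4 : η * (j + K) = η * (j + |(P.χ : ℝ) + P.cc|) + η / Real.log P.q + η := by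
      rw [hK]; ring
    linarith
  have h2 := mul_le_mul_of_nonneg_left h1 hn.le
  have h3 : (A'.card : ℝ) * (Real.log A'.card / Real.log P.q - P.χ - P.cc) =
      A'.card * (Real.log A'.card / Real.log P.q - (P.χ + P.cc)) := by ring
  rw [h3] at hkap'
  have h4 : (P.q : ℝ) ^ j * (j - P.χ - P.cc - ε) =
      (P.q : ℝ) ^ j * (j - (P.χ + P.cc)) - (P.q : ℝ) ^ j * ε := by ring
  rw [h4]
  have h5 : (P.q : ℝ) ^ j * (η * |(j : ℝ) - (P.χ + P.cc)| + η / Real.log P.q + η) =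
      (P.q : ℝ) ^ j * (η * |(j : ℝ) - (P.χ + P.cc)|) + (P.q : ℝ) ^ j * (η / Real.log P.q) +
        η * (P.q : ℝ) ^ j := by ring
  rw [h5] at h2
  linarith

theorem Pack.defect_nonneg {R : Type u} [CommRing R] [IsDedekindDomain R]
    [Ring.HasFiniteQuotients R] [Infinite R] {S : Type u} [Fintype S] (P : Pack R S) {m : S → ℤ}
    {M : S → Finset R} {v : S} (hM : P.Sep v (m v) (M v)) (hne : (M v).Nonempty) (x : R) :
    0 ≤ P.defect m M x v := sub_nonneg.mpr (stmt_TreeA R S P v (m v) (M v) hM hne x)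

/-- LOWER -/
theorem stmt_Lower (hTight : Stmt_Tight.{u}) (hCells : Stmt_Cells.{u}) (hPot : Stmt_Pot.{u}) :
    Stmt_Lower.{u} := by
  classical
  intro R _ _ _ _ S _ _ P hOpt ε hε
  obtain ⟨j₀, hj₀⟩ := key hTight hCells hPot P hε
  refine ⟨j₀, fun j hj => ?_⟩
  obtain ⟨A, hA⟩ := hOpt j
  obtain ⟨m, M, η, x, hm, hM, hne, -, -, -, -, -, -, -, h⟩ := hj₀ j hj A hA
  refine le_trans (le_add_of_nonneg_right (Finset.sum_nonneg fun v _ => ?_)) h
  exact mul_nonneg (by positivity) (P.defect_nonneg (hM v) (hne v) x)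

end Pool.Agent.Work.MP_b29d7f_nt.FF
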