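import Pool.Agent.Work.MP_b29d7f_nt.FF.Basic

/-!
# Block ONE: genus `0` and a place of degree one
-/

set_option linter.unusedSectionVars false

namespace Pool.Agent.Work.MP_b29d7f_nt.FF

open Finset Polynomial
open Pool.Agent.Work.MP_b29d7f_nt.Ded

universe u

/-- ONE -/
theorem stmt_One (hChi : Stmt_Chi.{u}) (hUpper : Stmt_Upper.{u}) (hBall : Stmt_Ball.{u}) :
    Stmt_One.{u} := by
  classical
  intro R _ _ _ _ S _ _ P A hA hmono
  have hOpt : ∀ j, ∃ A, P.Opt j A := fun j => ⟨A j, hA j⟩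
  have hχ := hChi R S P hOpt
  refine ⟨hχ, ?_⟩
  have hq := P.one_lt_q'
  set τ : ℝ := 1 / (4 * (P.q + 1)) with hτdef
  have hτ : 0 < τ := by positivity
  have hτq : τ * (P.q + 1) = 1 / 4 := by
    rw [hτdef]
    field_simp
  obtain ⟨e, j₀, he, hB⟩ := hBall R S P τ hτ
  obtain ⟨j₁, hU⟩ := hUpper R S P hOpt e he
  set j : ℕ := max j₀ j₁ with hj
  obtain ⟨l, hl, -, hsmall⟩ := hB j (le_max_left _ _) (A j) (hA j) (hU j (le_max_right _ _))
  obtain ⟨l', hl', ⟨x, -, hx⟩, -⟩ := hB (j + 1) ((le_max_left _ _).trans (Nat.le_succ _))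
    (A (j + 1)) (hA (j + 1)) (hU (j + 1) ((le_max_right _ _).trans (Nat.le_succ _)))
  have hle : ∀ v, l v ≤ l' v := by
    intro v
    by_contra hcon
    have hlt : l' v ≤ l v - 1 := by omega
    have h1 := hx v
    have h2 := hsmall v x
    have h3 : (((A j).filter fun b => ¬ P.Near v (l' v) x b).card : ℝ) ≤
        (((A (j + 1)).filter fun b => ¬ P.Near v (l' v) x b).card : ℝ) := by
      exact_mod_cast Finset.card_le_card (Finset.filter_subset_filter _ (hmono j))
    have h4 : (((A j).filter fun b => P.Near v (l' v) x b).card : ℝ) ≤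
        (((A j).filter fun b => P.Near v (l v - 1) x b).card : ℝ) := by
      exact_mod_cast Finset.card_le_card (fun b hb => Finset.mem_filter.mpr
        ⟨(Finset.mem_filter.mp hb).1, Pack.near_mono hlt (Finset.mem_filter.mp hb).2⟩)
    have h5 : (((A j).filter fun b => P.Near v (l' v) x b).card : ℝ) +
        (((A j).filter fun b => ¬ P.Near v (l' v) x b).card : ℝ) = (P.q : ℝ) ^ j := by
      have h6 := Finset.card_filter_add_card_filter_not (s := A j) (fun b => P.Near v (l' v) x b)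
      rw [(hA j).card] at h6
      exact_mod_cast h6
    have hn : 0 < (P.q : ℝ) ^ j := by positivity
    rw [pow_succ] at h1
    have h7 : (P.q : ℝ) ^ j * (1 / 2) ≤ (P.q : ℝ) ^ j * (τ * (P.q + 1)) := by nlinarith
    rw [hτq] at h7
    linarith
  have hdeg : ∑ v, (P.d v : ℤ) * (l' v - l v) = 1 := by
    have h1 : ∑ v, (P.d v : ℤ) * (l' v - l v) = P.deg l' - P.deg l := by
      unfold Pack.deg
      rw [← Finset.sum_sub_distrib]
      exact Finset.sum_congr rfl fun v _ => by ring
    rw [h1]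
    push_cast at hl'
    omega
  have hterm : ∀ v, 0 ≤ (P.d v : ℤ) * (l' v - l v) := fun v =>
    mul_nonneg (by positivity) (by have := hle v; omega)
  obtain ⟨v, -, hv⟩ : ∃ v ∈ (univ : Finset S), (P.d v : ℤ) * (l' v - l v) ≠ 0 := by
    by_contra hcon
    push Not at hcon
    rw [Finset.sum_eq_zero hcon] at hdeg
    omega
  refine ⟨v, ?_⟩
  have h1 : (P.d v : ℤ) * (l' v - l v) ≤ 1 := by
    rw [← hdeg]
    exact Finset.single_le_sum (f := fun v => (P.d v : ℤ) * (l' v - l v)) (fun w _ => hterm w)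
      (Finset.mem_univ v)
  have h2 : 1 ≤ l' v - l v := by
    have h3 := hle v
    by_contra hcon
    have h4 : l' v - l v = 0 := by omega
    rw [h4, mul_zero] at hv
    exact hv rfl
  have h3 := P.one_le_d v
  have h4 : (P.d v : ℤ) ≤ (P.d v : ℤ) * (l' v - l v) := le_mul_of_one_le_right (by positivity) h2
  omega

end Pool.Agent.Work.MP_b29d7f_nt.FF
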