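import Pool.Agent.Work.MP_b29d7f_nt.FF.Basic

/-!
# PIGEON: many primes of degree `m` in one class
-/

set_option linter.unusedSectionVars false

namespace Pool.Agent.Work.MP_b29d7f_nt.FF

open Finset Polynomial
open Pool.Agent.Work.MP_b29d7f_nt.Ded

universe u

theorem stmt_Pigeon : Stmt_Pigeon.{u} := by
  classical
  intro R _ _ _ _ S _ _ P
  obtain ⟨v₀⟩ := (inferInstance : Nonempty S)
  have hd := P.one_le_d v₀
  set E : ℕ := 1 + P.χ.natAbs + P.d v₀ with hE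
  set T : Finset (Ideal R × (S → ℕ)) :=
    ((P.finite_ideals E).toFinset) ×ˢ (Fintype.piFinset fun _ : S => range (E + 1)) with hT
  refine ⟨T.card, fun m hm => ?_⟩
  obtain ⟨p₀, hp₀, hp₀0, hp₀m⟩ := hm
  -- the level
  obtain ⟨μ, hμ1, hμ2⟩ : ∃ μ : S → ℤ, (m : ℤ) + 1 + P.χ.natAbs ≤ P.deg μ ∧ P.deg μ ≤ m + E := by
    set N : ℤ := m + 1 + P.χ.natAbs with hN
    set t : ℤ := (N - 1) / P.d v₀ + 1 with ht
    refine ⟨Function.update 0 v₀ t, ?_, ?_⟩
    · rw [P.deg_update]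
      have h0 : P.deg 0 = 0 := by unfold Pack.deg; simp
      have h1 := Int.lt_ediv_add_one_mul_self (N - 1) (b := (P.d v₀ : ℤ)) (by omega)
      rw [← ht] at h1
      rw [h0, Pi.zero_apply, sub_zero, zero_add, mul_comm]
      omega
    · rw [P.deg_update]
      have h0 : P.deg 0 = 0 := by unfold Pack.deg; simp
      have h1 := Int.ediv_mul_le (N - 1) (b := (P.d v₀ : ℤ)) (by omega)
      have h2 : t * P.d v₀ = (N - 1) / P.d v₀ * P.d v₀ + P.d v₀ := by rw [ht]; ring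
      rw [h0, Pi.zero_apply, sub_zero, zero_add, mul_comm, hE]
      omega
  have key : ∀ p : Ideal R, ∃ t : Ideal R × (S → ℕ), (p ≠ ⊥ ∧ P.dg p = m) →
      t ∈ T ∧ t.1 ≠ ⊥ ∧ P.deg μ - ∑ v, (P.d v : ℤ) * t.2 v = m + P.dg t.1 ∧
        ∃ x : R, x ≠ 0 ∧ Ideal.span {x} = p * t.1 ∧ ∀ v, P.lev v x = μ v - t.2 v := by
    intro p
    by_cases hp : p ≠ ⊥ ∧ P.dg p = m
    · obtain ⟨hp0, hpm⟩ := hp
      obtain ⟨x, hx, hx0⟩ := P.exists_ne_zero_mem_box hp0 (m := μ) (by omega)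
      rw [P.mem_box] at hx
      have hxp : Ideal.span {x} ≤ p := (Ideal.span_singleton_le_iff_mem p).mpr hx.1
      obtain ⟨I, hI⟩ := Ideal.dvd_iff_le.mpr hxp
      have hx0' : Ideal.span {x} ≠ ⊥ := by rwa [Ne, Ideal.span_singleton_eq_bot]
      have hI0 : I ≠ ⊥ := by
        rintro rfl
        rw [Ideal.mul_bot] at hI
        exact hx0' hI
      have hdg : P.dg (Ideal.span {x}) = m + P.dg I := by rw [hI, P.dg_mul hp0 hI0, hpm]
      have hlev : ∀ v, P.lev v x ≤ μ v := fun v => (hx.2 v).resolve_left hx0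
      set e : S → ℕ := fun v => (μ v - P.lev v x).toNat with he
      have he' : ∀ v, (e v : ℤ) = μ v - P.lev v x := fun v =>
        Int.toNat_of_nonneg (by have := hlev v; omega)
      have hsum : ∑ v, (P.d v : ℤ) * e v = P.deg μ - P.dg (Ideal.span {x}) := by
        rw [P.dg_span x hx0]
        unfold Pack.deg
        rw [← Finset.sum_sub_distrib]
        exact Finset.sum_congr rfl fun v _ => by rw [he' v]; ring
      have hdge : P.deg μ - ∑ v, (P.d v : ℤ) * e v = m + P.dg I := by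
        rw [hsum, hdg]
        push_cast
        ring
      have hsum0 : 0 ≤ ∑ v, (P.d v : ℤ) * e v := Finset.sum_nonneg fun v _ => by positivity
      refine ⟨(I, e), fun _ => ⟨?_, hI0, hdge, x, hx0, hI, fun v => by
        change _ = μ v - (e v : ℤ)
        rw [he' v]; ring⟩⟩
      rw [hT, Finset.mem_product, Set.Finite.mem_toFinset, Fintype.mem_piFinset]
      refine ⟨⟨hI0, ?_⟩, fun v => ?_⟩
      · change P.dg I ≤ E
        omega
      · change e v ∈ range (E + 1)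
        rw [Finset.mem_range]
        have h1 : (P.d v : ℤ) * e v ≤ ∑ v, (P.d v : ℤ) * e v :=
          Finset.single_le_sum (f := fun v => (P.d v : ℤ) * e v) (fun _ _ => by positivity)
            (Finset.mem_univ v)
        have h2 : (e v : ℤ) ≤ (P.d v : ℤ) * e v := by
          have h3 := P.one_le_d v
          have h4 : (1 : ℤ) ≤ P.d v := by exact_mod_cast h3
          nlinarith
        omega
    · exact ⟨(⊥, 0), fun h => absurd h hp⟩
  choose f hf using key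
  set Q := (P.primes m).filter (fun p => P.dg p = m) with hQ
  have hmemQ : ∀ p, p ∈ Q ↔ p.IsPrime ∧ p ≠ ⊥ ∧ P.dg p = m := by
    intro p
    rw [hQ, Finset.mem_filter, P.mem_primes]
    constructor
    · rintro ⟨⟨h1, h2, _⟩, h3⟩
      exact ⟨h1, h2, h3⟩
    · rintro ⟨h1, h2, h3⟩
      exact ⟨⟨h1, h2, h3.le⟩, h3⟩
  have hmaps : ∀ p ∈ Q, f p ∈ T := fun p hp => (hf p ((hmemQ p).mp hp).2).1
  have hp₀Q : p₀ ∈ Q := (hmemQ p₀).mpr ⟨hp₀, hp₀0, hp₀m⟩
  obtain ⟨t, ht, htmax⟩ := Finset.exists_max_image T (fun t => (Q.filter fun p => f p = t).card)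
    ⟨f p₀, hmaps p₀ hp₀Q⟩
  have hne : (Q.filter fun p => f p = t).Nonempty := by
    rw [← Finset.card_pos]
    refine lt_of_lt_of_le ?_ (htmax (f p₀) (hmaps p₀ hp₀Q))
    exact Finset.card_pos.mpr ⟨p₀, Finset.mem_filter.mpr ⟨hp₀Q, rfl⟩⟩
  obtain ⟨p₁, hp₁⟩ := hne
  rw [Finset.mem_filter] at hp₁
  have h1 := hf p₁ ((hmemQ p₁).mp hp₁.1).2
  rw [hp₁.2] at h1
  obtain ⟨-, ht0, htdeg, -⟩ := h1
  refine ⟨t.1, fun v => μ v - t.2 v, Q.filter fun p => f p = t, ht0, ?_, fun p hp => ?_, ?_⟩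
  · rw [← htdeg]
    unfold Pack.deg
    rw [← Finset.sum_sub_distrib]
    exact Finset.sum_congr rfl fun v _ => by ring
  · rw [Finset.mem_filter] at hp
    have h2 := (hmemQ p).mp hp.1
    have h3 := hf p h2.2
    rw [hp.2] at h3
    obtain ⟨-, -, -, x, hx0, hxI, hxμ⟩ := h3
    exact ⟨h2.1, h2.2.1, h2.2.2, x, hx0, hxI, fun v => (hxμ v).le⟩
  · rw [Finset.card_eq_sum_card_fiberwise (f := f) (s := Q) (t := T) hmaps, ← smul_eq_mul]
    exact Finset.sum_le_card_nsmul T _ _ fun t' ht' => htmax t' ht'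

end Pool.Agent.Work.MP_b29d7f_nt.FF
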