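import Pool.Agent.Work.MP_b29d7f_nt.FF.TightC

/-!
# Tightness IV: exponential decay, and the final statement
-/

set_option linter.unusedSectionVars false

namespace Pool.Agent.Work.MP_b29d7f_nt.FF

open Finset
open Pool.Agent.Work.MP_b29d7f_nt.Ded

universe u

namespace Pack

variable {R : Type u} [CommRing R] [IsDedekindDomain R] [Ring.HasFiniteQuotients R] [Infinite R]
  {S : Type u} [Fintype S] {P : Pack R S}

/-- **T3**: below the scale `b` the total gap decays exponentially -/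
theorem TH.decay [Nonempty S] {A : Finset R} {C P0 : ℝ} (H : P.TH A C P0) {b : S → ℤ}
    (hb : ∀ v, ∀ x ∈ A, (P.cnt A v (b v) x : ℝ) ≤ 1 / (4 * Fintype.card S) * A.card) (T : ℕ)
    (hdeg : 0 ≤ P.deg fun v => b v - T) :
    ∃ β : ℝ, 0 < β ∧ β ≤ 1 ∧
      9 / 16 * (T : ℝ) ≤ (1 + 4 * Fintype.card S) * (P.lg (1 / β) + 2 * C) ∧
      P.Gp (fun v => b v - T) A ≤
        2 * Fintype.card S * ((A.card : ℝ) ^ 2 * (β * (P.lg (1 / β) + 2 * C))) := by
  classical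
  have hs : (1 : ℝ) ≤ Fintype.card S := by exact_mod_cast Fintype.card_pos
  set s : ℝ := (Fintype.card S : ℝ) with hsdef
  have hn : (0 : ℝ) < A.card := by exact_mod_cast H.ne.card_pos
  set n : ℝ := (A.card : ℝ) with hndef
  set m : S → ℤ := fun v => b v - T with hm
  have hθ4 : 1 / (4 * s) ≤ 1 / 4 := one_div_le_one_div_of_le (by norm_num) (by linarith)
  -- the maximal mass
  obtain ⟨⟨v, x₀⟩, hvx, hmax⟩ := Finset.exists_max_image ((univ : Finset S) ×ˢ A)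
    (fun z => P.cnt A z.1 (m z.1) z.2) (Finset.Nonempty.product univ_nonempty H.ne)
  rw [Finset.mem_product] at hvx
  have hx₀ : x₀ ∈ A := hvx.2
  set B := P.clu A v (m v) x₀ with hB
  have hBA : B ⊆ A := P.clu_subset A v (m v) x₀
  have hBne : B.Nonempty := ⟨x₀, P.self_mem_clu hx₀⟩
  have hBpos : (0 : ℝ) < B.card := by exact_mod_cast hBne.card_pos
  set β : ℝ := (B.card : ℝ) / A.card with hβ
  have hβ0 : 0 < β := by positivity
  have hβn : β * n = B.card := by rw [hβ]; exact div_mul_cancel₀ _ hn.ne'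
  have hBcard : (B.card : ℝ) = P.cnt A v (m v) x₀ := by rw [hB, P.card_clu]
  have hβθ : β ≤ 1 / (4 * s) := by
    rw [hβ, div_le_iff₀ hn, hBcard]
    refine le_trans ?_ (hb v x₀ hx₀)
    have hmb : m v ≤ b v := by rw [hm]; simp only; omega
    exact_mod_cast P.cnt_mono A hmb x₀
  have hβ1 : β ≤ 1 := by linarith
  have hmass : ∀ w, ∀ x ∈ A, (P.cnt A w (m w) x : ℝ) ≤ β * A.card := by
    intro w x hx
    have h1 := hmax (w, x) (Finset.mem_product.mpr ⟨Finset.mem_univ w, hx⟩)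
    simp only at h1
    rw [← hndef, hβn, hBcard]
    exact_mod_cast h1
  have hdeg' : -(P.deg m : ℝ) ≤ 0 := by
    have : (0 : ℝ) ≤ P.deg m := by exact_mod_cast hdeg
    linarith
  have hG := H.Gp_le m le_rfl hdeg' hβθ hmass
  rw [zero_mul, add_zero, ← hndef, ← hsdef] at hG
  refine ⟨β, hβ0, hβ1, ?_, hG⟩
  -- lower bound for the quadratic form
  have hD := P.le_Dm H.ne hBA (m := m) (v := v) (l₁ := m v) (l₂ := b v) le_rfl
    (by rw [hm]; simp only; omega) (x₀ := x₀) (P.self_mem_clu hx₀)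
    (fun y hy => (P.mem_clu.mp hy).2) (c := 3 / 4) (by norm_num) (fun l _ hl => by
      have h1 : (P.cnt A v l x₀ : ℝ) ≤ P.cnt A v (b v) x₀ := by
        exact_mod_cast P.cnt_mono A hl.le x₀
      have h2 := hb v x₀ hx₀
      have h3 : 1 / (4 * s) * n ≤ 1 / 4 * n := mul_le_mul_of_nonneg_right hθ4 hn.le
      rw [← hndef]
      linarith)
  have hT : ((b v - m v : ℤ) : ℝ) = T := by
    rw [hm]; push_cast; ring
  rw [hT] at hD
  have hst := H.star hBA hBne m le_rfl hdeg'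
  rw [zero_mul, add_zero, ← hβ] at hst
  have hGB := P.Gp_nonneg m B
  have hlg : P.lg A.card - P.lg B.card = P.lg (1 / β) := by
    rw [hβ, one_div_div, P.lg_div hn.ne' hBpos.ne']
  rw [hlg] at hst
  have hsum : ∑ x ∈ B, ∑ y ∈ A, P.og m x y ≤ P.Gp m A :=
    Finset.sum_le_sum_of_subset_of_nonneg hBA fun x _ _ =>
      Finset.sum_nonneg fun y _ => P.og_nonneg m x y
  set L : ℝ := P.lg (1 / β) + 2 * C with hL
  have h1 : 2 * β * ∑ x ∈ B, ∑ y ∈ A, P.og m x y ≤ 2 * β * (2 * s * (n ^ 2 * (β * L))) :=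
    mul_le_mul_of_nonneg_left (hsum.trans hG) (by positivity)
  have h2 : 2 * β * (2 * s * (n ^ 2 * (β * L))) = 4 * s * L * (B.card : ℝ) ^ 2 := by
    rw [← hβn]; ring
  rw [h2] at h1
  have h3 : 9 / 16 * (T : ℝ) * (B.card : ℝ) ^ 2 ≤ (1 + 4 * s) * L * (B.card : ℝ) ^ 2 := by
    have h4 : (T : ℝ) * (3 / 4) ^ 2 * (B.card : ℝ) ^ 2 = 9 / 16 * (T : ℝ) * (B.card : ℝ) ^ 2 := by
      ring
    rw [← h4]
    have h5 : (1 + 4 * s) * L * (B.card : ℝ) ^ 2 =
        (B.card : ℝ) ^ 2 * L + 4 * s * L * (B.card : ℝ) ^ 2 := by ring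
    rw [h5]
    linarith
  exact le_of_mul_le_mul_right h3 (by positivity)

/-- `x q^{-x/2}` is bounded -/
theorem lg_decay (P : Pack R S) {β C y : ℝ} (hβ : 0 < β) (hβ1 : β ≤ 1) (hC : 0 ≤ C)
    (hy : y ≤ P.lg (1 / β)) :
    β * (P.lg (1 / β) + 2 * C) ≤ (2 / Real.log P.q + 2 * C) * (P.q : ℝ) ^ (-(y / 2)) := by
  have hq := P.q_pos'
  have hlq := P.log_q_pos
  set x := P.lg (1 / β) with hx
  have hx0 : 0 ≤ x := P.lg_nonneg (by rw [le_div_iff₀ hβ]; linarith)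
  have hβx : β = (P.q : ℝ) ^ (-x) := by
    have h1 : (P.q : ℝ) ^ x = 1 / β := by
      rw [hx]; unfold lg
      exact Real.rpow_logb hq P.one_lt_q'.ne' (by positivity)
    rw [Real.rpow_neg hq.le, h1]
    simp
  have h1 : (P.q : ℝ) ^ (-x) = (P.q : ℝ) ^ (-(x / 2)) * (P.q : ℝ) ^ (-(x / 2)) := by
    rw [← Real.rpow_add hq]; congr 1; ring
  have h2 : (P.q : ℝ) ^ (-(x / 2)) ≤ (P.q : ℝ) ^ (-(y / 2)) :=
    Real.rpow_le_rpow_of_exponent_le P.one_lt_q'.le (by linarith)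
  have h3 : 0 < (P.q : ℝ) ^ (-(x / 2)) := Real.rpow_pos_of_pos hq _
  have h4 : (P.q : ℝ) ^ (-(x / 2)) * x ≤ 2 / Real.log P.q := by
    have h5 : x / 2 * Real.log P.q ≤ (P.q : ℝ) ^ (x / 2) := by
      rw [Real.rpow_def_of_pos hq]
      have := Real.add_one_le_exp (Real.log P.q * (x / 2))
      linarith
    rw [le_div_iff₀ hlq, Real.rpow_neg hq.le]
    have h6 : 0 < (P.q : ℝ) ^ (x / 2) := Real.rpow_pos_of_pos hq _
    have h7 : ((P.q : ℝ) ^ (x / 2))⁻¹ * x * Real.log P.q =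
        2 * (x / 2 * Real.log P.q / (P.q : ℝ) ^ (x / 2)) := by field_simp
    rw [h7]
    have h8 : x / 2 * Real.log P.q / (P.q : ℝ) ^ (x / 2) ≤ 1 := by
      rw [div_le_one h6]; exact h5
    linarith
  have h5 : (P.q : ℝ) ^ (-(x / 2)) ≤ 1 := by
    have := Real.rpow_le_rpow_of_exponent_le P.one_lt_q'.le (show -(x / 2) ≤ 0 by linarith)
    rwa [Real.rpow_zero] at this
  rw [hβx, h1]
  calc (P.q : ℝ) ^ (-(x / 2)) * (P.q : ℝ) ^ (-(x / 2)) * (x + 2 * C)
      = (P.q : ℝ) ^ (-(x / 2)) * ((P.q : ℝ) ^ (-(x / 2)) * x + (P.q : ℝ) ^ (-(x / 2)) * (2 * C)) := by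
        ring
    _ ≤ (P.q : ℝ) ^ (-(x / 2)) * (2 / Real.log P.q + 2 * C) := by
        refine mul_le_mul_of_nonneg_left ?_ h3.le
        have h6 : (P.q : ℝ) ^ (-(x / 2)) * (2 * C) ≤ 1 * (2 * C) :=
          mul_le_mul_of_nonneg_right h5 (by linarith)
        linarith
    _ ≤ (P.q : ℝ) ^ (-(y / 2)) * (2 / Real.log P.q + 2 * C) :=
        mul_le_mul_of_nonneg_right h2 (by positivity)
    _ = _ := mul_comm _ _

end Pack

/-- **TIGHT** -/
theorem stmt_Tight (hPot : Stmt_Pot.{u}) (hMer : Stmt_Mer.{u}) : Stmt_Tight.{u} := by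
  intro R _ _ _ _ S _ _ P
  classical
  obtain ⟨C, hC0, hM1, -, -, hM4, -⟩ := hMer R S P
  have hP1 := (hPot R S P).1
  obtain ⟨K, hK0, hK⟩ := Pack.exists_scale P C
  have hq := P.q_pos'
  have hq1 := P.one_lt_q'
  have hlq := P.log_q_pos
  have hs : (1 : ℝ) ≤ Fintype.card S := by exact_mod_cast Fintype.card_pos
  set s : ℝ := (Fintype.card S : ℝ) with hsdef
  set sd : ℤ := ∑ v, (P.d v : ℤ) with hsd
  have hsd1 : 1 ≤ sd := by
    obtain ⟨v⟩ := (inferInstance : Nonempty S)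
    have h1 := P.one_le_d v
    have h2 : (P.d v : ℤ) ≤ ∑ v, (P.d v : ℤ) :=
      Finset.single_le_sum (f := fun v => (P.d v : ℤ)) (fun _ _ => by positivity) (Finset.mem_univ v)
    omega
  have hsdR : (1 : ℝ) ≤ (sd : ℝ) := by exact_mod_cast hsd1
  -- constants
  set c' : ℝ := 9 / (16 * (1 + 4 * s)) with hc'
  have hc'0 : 0 < c' := by positivity
  have hc'1 : c' ≤ 1 := by
    rw [hc', div_le_one (by positivity)]; linarith
  set a : ℝ := c' / (2 * sd) with ha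
  have ha0 : 0 < a := by positivity
  have ha1 : a ≤ 1 := by
    rw [ha, div_le_one (by positivity)]; linarith
  set ρ : ℝ := (P.q : ℝ) ^ (-a) with hρ
  have hρ0 : 0 < ρ := Real.rpow_pos_of_pos hq _
  have hρ1 : ρ < 1 := Real.rpow_lt_one_of_one_lt_of_neg hq1 (by linarith)
  set K' : ℝ := c' * ((K + P.c₀) / sd + 1) + 2 * C with hK'
  set E : ℝ := 2 * s * ((2 / Real.log P.q + 2 * C) * (P.q : ℝ) ^ (K' / 2)) + (P.c₀ + sd) with hE
  have hqK : 0 < (P.q : ℝ) ^ (K' / 2) := Real.rpow_pos_of_pos hq _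
  have hsdR0 : (0 : ℝ) < sd := by linarith
  have hE0 : 0 < E := by positivity
  obtain ⟨j₀, hj₀⟩ : ∃ j₀ : ℕ, ∀ j ≥ j₀, K ≤ (P.q : ℝ) ^ j ∧ K + P.c₀ ≤ j := by
    obtain ⟨a₁, ha₁⟩ := pow_unbounded_of_one_lt K hq1
    obtain ⟨a₂, ha₂⟩ := exists_nat_ge (K + P.c₀)
    refine ⟨max a₁ a₂, fun j hj => ⟨?_, ?_⟩⟩
    · exact ha₁.le.trans (pow_le_pow_right₀ hq1.le ((le_max_left _ _).trans hj))
    · exact ha₂.trans (by exact_mod_cast (le_max_right _ _).trans hj)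
  refine ⟨E, ρ, j₀, hE0, hρ0, hρ1, fun j hj A hA => ?_⟩
  obtain ⟨hj1, hj2⟩ := hj₀ j hj
  have hcard : (A.card : ℝ) = (P.q : ℝ) ^ j := by rw [hA.card]; push_cast; rfl
  have hlgn : P.lg A.card = j := by rw [hcard, P.lg_pow]
  have hqj : 0 < (P.q : ℝ) ^ j := by positivity
  have hAne : A.Nonempty := by
    rw [← Finset.card_pos]
    have : (0 : ℝ) < A.card := by rw [hcard]; exact hqj
    exact_mod_cast this
  have H : P.TH A C (P.pot j) := by
    refine ⟨hAne, hC0.le, hP1 j A hA, hM4, ?_⟩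
    have h1 := (abs_le.mp (hM1 j)).2
    rw [hlgn, hcard]
    linarith
  obtain ⟨b, hb1, hb2⟩ := hK A (P.pot j) H (by rw [hcard]; exact hj1)
  rw [hlgn] at hb2
  -- the number of levels
  have hbc : (P.c₀ : ℤ) ≤ P.deg b := by
    have : (P.c₀ : ℝ) ≤ P.deg b := by linarith
    exact_mod_cast this
  set T : ℕ := ((P.deg b - P.c₀) / sd).toNat with hT
  have hT0 : (T : ℤ) = (P.deg b - P.c₀) / sd := by
    rw [hT, Int.toNat_of_nonneg (Int.ediv_nonneg (by omega) (by omega))]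
  have hdm : P.deg (fun v => b v - T) = P.deg b - T * sd := by
    have h1 : (fun v => b v - (T : ℤ)) = b + fun _ => -(T : ℤ) := by
      funext v; simp [sub_eq_add_neg]
    rw [h1, P.deg_add, P.deg_const, ← hsd]; ring
  have hm1 : (P.c₀ : ℤ) ≤ P.deg fun v => b v - T := by
    rw [hdm, hT0]
    have := Int.ediv_mul_le (P.deg b - P.c₀) (b := sd) (by omega)
    omega
  have hm2 : (P.deg fun v => b v - T) < P.c₀ + sd := by
    rw [hdm, hT0]
    have := Int.lt_ediv_add_one_mul_self (P.deg b - P.c₀) (b := sd) (by omega)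
    nlinarith
  obtain ⟨β, hβ0, hβ1, hTβ, hG⟩ := H.decay hb1 T (by omega)
  refine ⟨fun v => b v - T, hm1, ?_⟩
  -- the total gap
  have hsum : ∑ x ∈ A, ∑ y ∈ A, P.gap (fun v => b v - T) x y =
      P.Gp (fun v => b v - T) A + A.card * P.deg fun v => b v - T := by
    have h1 : ∀ x ∈ A, ∑ y ∈ A, P.gap (fun v => b v - T) x y =
        ∑ y ∈ A, P.og (fun v => b v - T) x y + P.deg fun v => b v - T := by
      intro x hx
      have h2 : ∀ y ∈ A, P.gap (fun v => b v - T) x y = P.og (fun v => b v - T) x y +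
          (if x = y then ((P.deg fun v => b v - T : ℤ) : ℝ) else 0) := by
        intro y _
        unfold Pack.og
        by_cases h : x = y
        · subst h
          rw [if_pos rfl, if_pos rfl, P.gap_self]; ring
        · rw [if_neg h, if_neg h]; ring
      rw [Finset.sum_congr rfl h2, Finset.sum_add_distrib, Finset.sum_ite_eq, if_pos hx]
    rw [Finset.sum_congr rfl h1, Finset.sum_add_distrib, Finset.sum_const, nsmul_eq_mul]
    rfl
  rw [hsum, hcard]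
  -- decay
  have hT1 : ((j : ℝ) - K - P.c₀) / sd - 1 ≤ T := by
    have h1 := Int.lt_ediv_add_one_mul_self (P.deg b - P.c₀) (b := sd) (by omega)
    rw [← hT0] at h1
    have h2 : ((P.deg b : ℝ) - P.c₀) < (T + 1) * sd := by exact_mod_cast h1
    rw [sub_le_iff_le_add, div_le_iff₀ hsdR0]
    linarith
  have hy : 2 * a * j - K' ≤ P.lg (1 / β) := by
    have h1 : c' * T ≤ P.lg (1 / β) + 2 * C := by
      have h2 : c' * T = 9 / 16 * (T : ℝ) / (1 + 4 * s) := by rw [hc']; field_simp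
      rw [h2, div_le_iff₀ (by positivity)]
      have h3 : (P.lg (1 / β) + 2 * C) * (1 + 4 * s) = (1 + 4 * s) * (P.lg (1 / β) + 2 * C) :=
        mul_comm _ _
      rw [h3]
      exact hTβ
    have h2 : c' * (((j : ℝ) - K - P.c₀) / sd - 1) ≤ c' * T :=
      mul_le_mul_of_nonneg_left hT1 hc'0.le
    have h3 : c' * (((j : ℝ) - K - P.c₀) / sd - 1) = 2 * a * j - (K' - 2 * C) := by
      rw [ha, hK']; field_simp; ring
    linarith
  have h1 := P.lg_decay hβ0 hβ1 hC0.le hy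
  have h2 : (P.q : ℝ) ^ (-((2 * a * j - K') / 2)) = (P.q : ℝ) ^ (K' / 2) * ρ ^ j := by
    rw [hρ, ← Real.rpow_natCast, ← Real.rpow_mul hq.le, ← Real.rpow_add hq]
    congr 1
    ring
  rw [h2] at h1
  rw [hcard, ← hsdef] at hG
  have h3 : P.Gp (fun v => b v - T) A ≤
      2 * s * ((2 / Real.log P.q + 2 * C) * (P.q : ℝ) ^ (K' / 2)) * ((P.q : ℝ) ^ j) ^ 2 * ρ ^ j := by
    refine hG.trans ?_
    calc 2 * s * (((P.q : ℝ) ^ j) ^ 2 * (β * (P.lg (1 / β) + 2 * C)))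
        ≤ 2 * s * (((P.q : ℝ) ^ j) ^ 2 *
          ((2 / Real.log P.q + 2 * C) * ((P.q : ℝ) ^ (K' / 2) * ρ ^ j))) := by
          refine mul_le_mul_of_nonneg_left (mul_le_mul_of_nonneg_left h1 (by positivity)) (by positivity)
      _ = _ := by ring
  have h4 : (P.q : ℝ) ^ j * ((P.deg fun v => b v - T : ℤ) : ℝ) ≤
      (P.c₀ + sd) * ((P.q : ℝ) ^ j) ^ 2 * ρ ^ j := by
    have h5 : ((P.deg fun v => b v - T : ℤ) : ℝ) ≤ P.c₀ + sd := by exact_mod_cast hm2.le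
    have h6 : 1 ≤ (P.q : ℝ) ^ j * ρ ^ j := by
      rw [← mul_pow]
      refine one_le_pow₀ ?_
      rw [hρ]
      nth_rewrite 1 [← Real.rpow_one (P.q : ℝ)]
      rw [← Real.rpow_add hq]
      exact Real.one_le_rpow hq1.le (by linarith)
    have h7 : (P.c₀ + sd) * ((P.q : ℝ) ^ j) ^ 2 * ρ ^ j =
        (P.q : ℝ) ^ j * ((P.c₀ + sd) * ((P.q : ℝ) ^ j * ρ ^ j)) := by ring
    rw [h7]
    refine mul_le_mul_of_nonneg_left (h5.trans ?_) hqj.le
    exact le_mul_of_one_le_right (by positivity) h6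
  have h5 : E * ((P.q : ℝ) ^ j) ^ 2 * ρ ^ j =
      2 * s * ((2 / Real.log P.q + 2 * C) * (P.q : ℝ) ^ (K' / 2)) * ((P.q : ℝ) ^ j) ^ 2 * ρ ^ j +
        (P.c₀ + sd) * ((P.q : ℝ) ^ j) ^ 2 * ρ ^ j := by rw [hE]; ring
  rw [h5]
  exact add_le_add h3 h4

end Pool.Agent.Work.MP_b29d7f_nt.FF
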