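import Pool.Agent.Work.MP_b29d7f_nt.FF.Basic

/-!
# UPPER: the upper bound of the potential for all large `j`
-/

set_option linter.unusedSectionVars false

namespace Pool.Agent.Work.MP_b29d7f_nt.FF

open Finset Polynomial
open Pool.Agent.Work.MP_b29d7f_nt.Ded

universe u

theorem exists_small {q : ℝ} (hq : 1 < q) (C : ℝ) {ε : ℝ} (hε : 0 < ε) :
    ∃ j₀ : ℕ, ∀ j ≥ j₀, C * (j + 1) ≤ ε * q ^ j := by
  have h1 := tendsto_pow_const_div_const_pow_of_one_lt 1 hq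
  have h0 := tendsto_pow_const_div_const_pow_of_one_lt 0 hq
  have h2 := (h1.add h0).const_mul C
  rw [add_zero, mul_zero] at h2
  have h3 := h2.eventually_lt_const hε
  rw [Filter.eventually_atTop] at h3
  obtain ⟨j₀, hj₀⟩ := h3
  refine ⟨j₀, fun j hj => ?_⟩
  have h4 := hj₀ j hj
  have h5 : 0 < q ^ j := pow_pos (by linarith) j
  rw [pow_one, pow_zero, ← add_div, ← mul_div_assoc, div_lt_iff₀ h5] at h4
  exact h4.le

section

variable {R : Type u} [CommRing R] [IsDedekindDomain R] [Ring.HasFiniteQuotients R] [Infinite R]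
  {S : Type u} [Fintype S] (P : Pack R S)

theorem pot_succ (j : ℕ) : P.pot (j + 1) = P.q * P.pot j + (P.q - 1) * P.K0 j := by
  unfold Pack.pot Pack.K0
  rw [Finset.sum_Icc_succ_top (by omega), Nat.sub_self, pow_zero, sub_self, mul_zero, add_zero,
    Finset.mul_sum, Finset.mul_sum, ← Finset.sum_add_distrib]
  refine Finset.sum_congr rfl fun i hi => ?_
  rw [Finset.mem_Icc] at hi
  have h1 : j + 1 - i = (j - i) + 1 := by omega
  rw [h1, pow_succ]
  ring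

theorem K0_succ (j : ℕ) : P.K0 (j + 1) = P.K0 j + P.Nn (j + 1) := by
  unfold Pack.K0
  rw [Finset.sum_Icc_succ_top (by omega)]

/-- the group of degrees -/
theorem exists_index :
    ∃ δ : ℕ, ∀ z : ℤ, (∃ I : Ideal R, I ≠ ⊥ ∧ ∃ μ : S → ℤ, P.deg μ - P.dg I = z) ↔
      (δ : ℤ) ∣ z := by
  have hdeg0 : P.deg 0 = 0 := by unfold Pack.deg; simp
  have hdegneg : ∀ m : S → ℤ, P.deg (-m) = - P.deg m := by
    intro m
    unfold Pack.deg
    rw [← Finset.sum_neg_distrib]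
    exact Finset.sum_congr rfl fun v _ => by rw [Pi.neg_apply]; ring
  let H : AddSubgroup ℤ :=
    { carrier := {z | ∃ I : Ideal R, I ≠ ⊥ ∧ ∃ μ : S → ℤ, P.deg μ - P.dg I = z}
      zero_mem' := ⟨⊤, top_ne_bot, 0, by rw [hdeg0, P.dg_top]; simp⟩
      add_mem' := by
        rintro z z' ⟨I, hI, μ, hμ⟩ ⟨J, hJ, ν, hν⟩
        refine ⟨I * J, mul_ne_zero hI hJ, μ + ν, ?_⟩
        rw [P.deg_add, P.dg_mul hI hJ, ← hμ, ← hν]
        push_cast
        ring
      neg_mem' := by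
        rintro z ⟨I, hI, μ, hμ⟩
        obtain ⟨x, hx, hx0⟩ := Submodule.exists_mem_ne_zero_of_ne_bot hI
        obtain ⟨J, hJ⟩ := Ideal.dvd_iff_le.mpr ((Ideal.span_singleton_le_iff_mem I).mpr hx)
        have hx0' : Ideal.span {x} ≠ ⊥ := by rwa [Ne, Ideal.span_singleton_eq_bot]
        have hJ0 : J ≠ ⊥ := by
          rintro rfl
          rw [Ideal.mul_bot] at hJ
          exact hx0' hJ
        refine ⟨J, hJ0, (fun v => P.lev v x) + (-μ), ?_⟩
        have h1 : P.deg (fun v => P.lev v x) = P.dg (Ideal.span {x}) := (P.dg_span x hx0).symm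
        rw [P.deg_add, hdegneg, h1, hJ, P.dg_mul hI hJ0, ← hμ]
        push_cast
        ring }
  obtain ⟨a, ha⟩ := Int.subgroup_cyclic H
  refine ⟨a.natAbs, fun z => ?_⟩
  have h1 : (∃ I : Ideal R, I ≠ ⊥ ∧ ∃ μ : S → ℤ, P.deg μ - P.dg I = z) ↔ z ∈ H := Iff.rfl
  rw [h1, ha, AddSubgroup.mem_closure_singleton, Int.natAbs_dvd]
  constructor
  · rintro ⟨n, hn⟩
    exact ⟨n, by rw [← hn, smul_eq_mul, mul_comm]⟩
  · rintro ⟨n, hn⟩
    exact ⟨n, by rw [hn, smul_eq_mul, mul_comm]⟩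

end

theorem stmt_Upper (hChi : Stmt_Chi.{u}) (hLower : Stmt_Lower.{u}) (hBox : Stmt_BoxProd.{u}) :
    Stmt_Upper.{u} := by
  classical
  intro R _ _ _ _ S _ _ P hopt ε hε
  have hχ := hChi R S P hopt
  have hL := hLower R S P hopt
  obtain ⟨C, hC⟩ := hBox R S P
  obtain ⟨δ, hδ⟩ := exists_index P
  have hq := P.two_le_q
  have hqr : (2 : ℝ) ≤ P.q := by exact_mod_cast hq
  -- the degrees of primes and places are divisible by `δ`
  have hdgp : ∀ p : Ideal R, p ≠ ⊥ → δ ∣ P.dg p := by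
    intro p hp
    have h1 := (hδ (-(P.dg p : ℤ))).mp ⟨p, hp, 0, by unfold Pack.deg; simp⟩
    rw [dvd_neg] at h1
    exact_mod_cast h1
  have hδ0 : δ ≠ 0 := by
    rintro rfl
    obtain ⟨v⟩ := (inferInstance : Nonempty S)
    have h1 := (hδ (P.d v : ℤ)).mp ⟨⊤, top_ne_bot, Function.update 0 v 1, by
      rw [P.deg_update, P.dg_top]
      unfold Pack.deg
      simp⟩
    have h2 := P.one_le_d v
    rw [Nat.cast_zero, zero_dvd_iff] at h1
    omega
  -- the upper bound in the classes of degrees which occur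
  have hU : ∀ ε : ℝ, 0 < ε → ∃ j₀ : ℕ, ∀ j ≥ j₀, δ ∣ j →
      P.pot (j + 1) ≤ (P.q : ℝ) ^ (j + 1) * (j - P.cc + ε) := by
    intro ε hε
    obtain ⟨j₀, hj₀⟩ := exists_small P.one_lt_q' C hε
    refine ⟨max j₀ P.c₀, fun j hj hdvd => ?_⟩
    obtain ⟨I, hI, μ, hμ⟩ := (hδ (j : ℤ)).mpr (by exact_mod_cast hdvd)
    have h1 := hC I hI μ j (j + 1) (by omega) (le_trans (le_max_right _ _) hj) (by
      rw [hχ]; push_cast; rfl) ∅ (by simp)
    rw [Finset.sum_empty, add_zero] at h1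
    have h2 := hj₀ (j + 1) (le_trans (le_trans (le_max_left _ _) hj) (Nat.le_succ j))
    calc P.pot (j + 1) ≤ _ := h1
      _ ≤ (P.q : ℝ) ^ (j + 1) * (j - P.cc) + ε * (P.q : ℝ) ^ (j + 1) := by linarith
      _ = _ := by ring
  have hδ1 : δ = 1 := by
    by_contra hne
    obtain ⟨j₁, hj₁⟩ := hU (1 / 8) (by norm_num)
    obtain ⟨j₂, hj₂⟩ := hL (1 / 8) (by norm_num)
    set m := δ * (j₁ + j₂) with hm
    have hmge : j₁ + j₂ ≤ m := Nat.le_mul_of_pos_left _ (by omega)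
    have hup := hj₁ m (by omega) ⟨_, hm⟩
    have hlo1 := hj₂ m (by omega)
    have hlo2 := hj₂ (m + 1 + 1) (by omega)
    have hN : P.Nn (m + 1) = 0 := by
      unfold Pack.Nn
      refine Finset.sum_eq_zero fun p hp => ?_
      exfalso
      rw [Finset.mem_filter, P.mem_primes] at hp
      have h1 : δ ∣ m + 1 := dvd_trans (hdgp p hp.1.2.1) hp.2
      have h2 : δ ∣ 1 := (Nat.dvd_add_right ⟨_, hm⟩).mp h1
      exact hne (Nat.dvd_one.mp h2)
    have hK : P.K0 (m + 1) = P.K0 m := by rw [K0_succ, hN]; simp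
    have h1 := pot_succ P m
    have h2 := pot_succ P (m + 1)
    rw [hK] at h2
    rw [hχ] at hlo1 hlo2
    push_cast at hlo1 hlo2 hup
    set n : ℝ := (P.q : ℝ) ^ m with hn
    have hn0 : 0 < n := pow_pos P.q_pos' m
    rw [pow_succ, ← hn] at hup
    rw [pow_succ, pow_succ, ← hn] at hlo2
    -- (q - 1) K0 ≤ n q (1 + 2/8)
    have h3 : ((P.q : ℝ) - 1) * P.K0 m ≤ n * P.q * (1 + 2 / 8) := by
      have h4 : (P.q : ℝ) * (n * (m - 1 - P.cc - 1 / 8)) ≤ P.q * P.pot m :=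
        mul_le_mul_of_nonneg_left hlo1 P.q_pos'.le
      have h5 : (P.q : ℝ) * (n * (m - 1 - P.cc - 1 / 8)) =
        n * P.q * (m - P.cc + 1 / 8) - n * P.q * (1 + 2 / 8) := by ring
      linarith
    have h4 : n * P.q * P.q * (1 - 2 / 8) ≤ ((P.q : ℝ) - 1) * P.K0 m := by
      have h5 : (P.q : ℝ) * P.pot (m + 1) ≤ P.q * (n * P.q * (m - P.cc + 1 / 8)) :=
        mul_le_mul_of_nonneg_left hup P.q_pos'.le
      have h6 : (P.q : ℝ) * (n * P.q * (m - P.cc + 1 / 8)) =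
        n * P.q * P.q * (m + 1 + 1 - 1 - P.cc - 1 / 8) - n * P.q * P.q * (1 - 2 / 8) := by ring
      linarith
    have h5 : n * P.q * P.q * (1 - 2 / 8) ≤ n * P.q * (1 + 2 / 8) := h4.trans h3
    have h6 : 0 < n * P.q := mul_pos hn0 P.q_pos'
    have h7 : n * P.q * (P.q * (1 - 2 / 8)) ≤ n * P.q * (1 + 2 / 8) := by linarith
    have h8 := le_of_mul_le_mul_left h7 h6
    linarith
  obtain ⟨j₀, hj₀⟩ := hU ε hε
  refine ⟨j₀ + 1, fun j hj => ?_⟩
  obtain ⟨k, rfl⟩ : ∃ k, j = k + 1 := ⟨j - 1, by omega⟩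
  have h1 := hj₀ k (by omega) (by rw [hδ1]; exact one_dvd k)
  rw [hχ]
  refine h1.trans (le_of_eq ?_)
  push_cast
  ring

end Pool.Agent.Work.MP_b29d7f_nt.FF
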