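import Pool.Agent.Work.MP_b29d7f_nt.FF.Basic

/-!
# OPT: the initial segments with `q^j` elements of a simultaneous ordering are optimal sets
-/

set_option linter.unusedSectionVars false

namespace Pool.Agent.Work.MP_b29d7f_nt.FF

open Finset Polynomial
open Pool.Agent.Work.MP_b29d7f_nt.Ded

universe u

section

variable {R : Type u} [CommRing R] [IsDedekindDomain R] [Ring.HasFiniteQuotients R]

open scoped Classical in
/-- number of ordered pairs of different indices below `n` with congruent terms -/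
noncomputable def prs (I : Ideal R) (a : ℕ → R) (n : ℕ) : ℕ :=
  ∑ k ∈ range n, (((range n).erase k).filter fun l => a k - a l ∈ I).card

open scoped Classical in
/-- number of indices below `n` in a class -/
noncomputable def cls (I : Ideal R) (a : ℕ → R) (n : ℕ) (ρ : R ⧸ I) : ℕ :=
  ((range n).filter fun l => Ideal.Quotient.mk I (a l) = ρ).card

theorem sum_cls (I : Ideal R) [Fintype (R ⧸ I)] (a : ℕ → R) (n : ℕ) :
    ∑ ρ, cls I a n ρ = n := by
  classical
  have h := Finset.card_eq_sum_card_fiberwise (s := range n) (t := (univ : Finset (R ⧸ I)))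
    (f := fun l => Ideal.Quotient.mk I (a l)) (fun l _ => Finset.mem_coe.mpr (Finset.mem_univ _))
  rw [Finset.card_range] at h
  unfold cls
  exact h.symm

theorem sum_cls_sq (I : Ideal R) [Fintype (R ⧸ I)] (a : ℕ → R) (n : ℕ) :
    ∑ ρ, cls I a n ρ * cls I a n ρ = n + prs I a n := by
  classical
  have h1 : ∑ ρ, cls I a n ρ * cls I a n ρ =
      ∑ ρ, ∑ k ∈ (range n).filter (fun l => Ideal.Quotient.mk I (a l) = ρ),
        cls I a n (Ideal.Quotient.mk I (a k)) := by
    refine Finset.sum_congr rfl fun ρ _ => ?_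
    rw [Finset.sum_congr rfl (g := fun _ => cls I a n ρ) fun k hk => by
      rw [(Finset.mem_filter.mp hk).2], Finset.sum_const, smul_eq_mul]
    rfl
  rw [h1, Finset.sum_fiberwise_of_maps_to (s := range n) (t := (univ : Finset (R ⧸ I)))
    (g := fun l => Ideal.Quotient.mk I (a l)) (fun l _ => Finset.mem_univ _)
    (fun k => cls I a n (Ideal.Quotient.mk I (a k)))]
  have h2 : ∀ k ∈ range n, cls I a n (Ideal.Quotient.mk I (a k)) =
      1 + (((range n).erase k).filter fun l => a k - a l ∈ I).card := by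
    intro k hk
    have h3 : ((range n).filter fun l => Ideal.Quotient.mk I (a l) = Ideal.Quotient.mk I (a k)) =
        insert k (((range n).erase k).filter fun l => a k - a l ∈ I) := by
      ext l
      rw [Finset.mem_insert, Finset.mem_filter, Finset.mem_filter, Finset.mem_erase]
      rw [eq_comm (a := Ideal.Quotient.mk I (a l)), Ideal.Quotient.eq]
      constructor
      · intro h
        by_cases hl : l = k
        · exact Or.inl hl
        · exact Or.inr ⟨⟨hl, h.1⟩, h.2⟩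
      · rintro (h | h)
        · subst h
          rw [sub_self]
          exact ⟨hk, I.zero_mem⟩
        · exact ⟨h.1.2, h.2⟩
    unfold cls
    rw [h3, Finset.card_insert_of_notMem, add_comm]
    intro h4
    exact (Finset.mem_erase.mp (Finset.mem_filter.mp h4).1).1 rfl
  rw [Finset.sum_congr rfl h2, Finset.sum_add_distrib, Finset.sum_const, Finset.card_range,
    smul_eq_mul, mul_one]
  rfl

/-- variance -/
theorem variance (I : Ideal R) [Fintype (R ⧸ I)] (a : ℕ → R) {n κ : ℕ} (hn : n = κ * Nm I) :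
    ∑ ρ, ((cls I a n ρ : ℤ) - κ) ^ 2 = (prs I a n : ℤ) - n * (κ - 1) := by
  have hN : (Nm I : ℤ) = ∑ _ρ : R ⧸ I, (1 : ℤ) := by
    rw [Finset.sum_const, Finset.card_univ, nsmul_eq_mul, mul_one]
    unfold Nm
    rw [Nat.card_eq_fintype_card]
  have h1 : ∑ ρ, ((cls I a n ρ : ℤ) - κ) ^ 2 = ((∑ ρ, cls I a n ρ * cls I a n ρ : ℕ) : ℤ)
      - 2 * κ * ((∑ ρ, cls I a n ρ : ℕ) : ℤ) + κ ^ 2 * ∑ _ρ : R ⧸ I, (1 : ℤ) := by
    push_cast
    rw [Finset.mul_sum, Finset.mul_sum, ← Finset.sum_sub_distrib, ← Finset.sum_add_distrib]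
    exact Finset.sum_congr rfl fun ρ _ => by ring
  rw [h1, sum_cls, sum_cls_sq, ← hN]
  have h2 : (n : ℤ) = κ * Nm I := by exact_mod_cast hn
  push_cast
  have h3 : (κ : ℤ) ^ 2 * Nm I = κ * n := by rw [h2]; ring
  rw [h3]
  ring

theorem prs_ge {I : Ideal R} (hI : I ≠ ⊥) (a : ℕ → R) {n κ : ℕ} (hn : n = κ * Nm I) (hκ : 1 ≤ κ) :
    n * (κ - 1) ≤ prs I a n := by
  have hfin : Finite (R ⧸ I) := Ring.HasFiniteQuotients.finiteQuotient hI
  have := Fintype.ofFinite (R ⧸ I)
  have h := variance I a hn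
  have h0 : 0 ≤ ∑ ρ, ((cls I a n ρ : ℤ) - κ) ^ 2 := Finset.sum_nonneg fun ρ _ => sq_nonneg _
  rw [h] at h0
  have h1 : (n : ℤ) * (κ - 1) = ((n * (κ - 1) : ℕ) : ℤ) := by
    rw [Nat.cast_mul, Nat.cast_sub hκ, Nat.cast_one]
  rw [h1] at h0
  omega

theorem cls_eq {I : Ideal R} (hI : I ≠ ⊥) {a : ℕ → R} {n κ : ℕ} (hn : n = κ * Nm I) (hκ : 1 ≤ κ)
    (h : prs I a n = n * (κ - 1)) (ρ : R ⧸ I) : cls I a n ρ = κ := by
  have hfin : Finite (R ⧸ I) := Ring.HasFiniteQuotients.finiteQuotient hI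
  have := Fintype.ofFinite (R ⧸ I)
  have h0 := variance I a hn
  have h1 : (n : ℤ) * (κ - 1) = ((n * (κ - 1) : ℕ) : ℤ) := by
    rw [Nat.cast_mul, Nat.cast_sub hκ, Nat.cast_one]
  rw [h, h1, sub_self] at h0
  have h2 := (Finset.sum_eq_zero_iff_of_nonneg fun ρ _ => sq_nonneg _).mp h0 ρ (Finset.mem_univ ρ)
  have h3 : (cls I a n ρ : ℤ) - κ = 0 := pow_eq_zero_iff (two_ne_zero) |>.mp h2
  omega

variable [Infinite R]

/-- the valuation of the product of the differences -/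
theorem sum_val {p : Ideal R} (hp : p.IsPrime) (h0 : p ≠ ⊥) {a : ℕ → R} {n J : ℕ}
    (hJ : ∀ k ∈ range n, ∀ l ∈ (range n).erase k, a k - a l ∉ p ^ (J + 1)) :
    ∑ k ∈ range n, val p (∏ l ∈ (range n).erase k, (a k - a l)) =
      ((∑ i ∈ Finset.Icc 1 J, prs (p ^ i) a n : ℕ) : ℕ∞) := by
  classical
  have h1 : ∀ k ∈ range n, val p (∏ l ∈ (range n).erase k, (a k - a l)) =
      ((∑ i ∈ Finset.Icc 1 J, (((range n).erase k).filter fun l => a k - a l ∈ p ^ i).card : ℕ) :
        ℕ∞) := by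
    intro k hk
    rw [val_prod hp h0, Finset.sum_congr rfl fun l hl => val_eq_tv (hJ k hk l hl), ← Nat.cast_sum,
      sum_tv]
  rw [Finset.sum_congr rfl h1, ← Nat.cast_sum, Finset.sum_comm]
  rfl

theorem exists_level {p : Ideal R} (hp : p.IsPrime) (h0 : p ≠ ⊥) {a : ℕ → R}
    (ha : Function.Injective a) (n : ℕ) :
    ∃ J₀ : ℕ, ∀ J ≥ J₀, ∀ k ∈ range n, ∀ l ∈ (range n).erase k, a k - a l ∉ p ^ (J + 1) := by
  refine ⟨∑ k ∈ range n, ∑ l ∈ range n, nrm (a k - a l), fun J hJ k hk l hl hmem => ?_⟩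
  have h1 : nrm (a k - a l) ≤ ∑ l ∈ range n, nrm (a k - a l) :=
    Finset.single_le_sum (f := fun l => nrm (a k - a l)) (fun _ _ => Nat.zero_le _)
      (Finset.mem_erase.mp hl).2
  have h2 : ∑ l ∈ range n, nrm (a k - a l) ≤ ∑ k ∈ range n, ∑ l ∈ range n, nrm (a k - a l) :=
    Finset.single_le_sum (f := fun k => ∑ l ∈ range n, nrm (a k - a l)) (fun _ _ => Nat.zero_le _)
      hk
  have h3 : nrm (a k - a l) < 2 ^ (J + 1) := by
    have h4 : J < 2 ^ J := Nat.lt_two_pow_self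
    have h5 : 2 ^ J ≤ 2 ^ (J + 1) := Nat.pow_le_pow_right (by norm_num) (by omega)
    omega
  have h6 := mem_pow_imp_eq_zero hp h0 h3 hmem
  exact (Finset.mem_erase.mp hl).1 (ha (sub_eq_zero.mp h6)).symm

/-- the two cases of the comparison at one level -/
theorem level_le {p : Ideal R} (_hp : p.IsPrime) (h0 : p ≠ ⊥) (a : ℕ → R) {n : ℕ} (hn : 0 < n)
    (hdiv : ∀ i, Nm p ^ i ∣ n ∨ n ≤ Nm p ^ i) (i : ℕ) :
    2 * ∑ k ∈ range n, k / Nm p ^ i ≤ prs (p ^ i) a n := by
  rcases hdiv i with ⟨κ, hκ⟩ | h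
  · have hκ1 : 1 ≤ κ := by
      rcases Nat.eq_zero_or_pos κ with h | h
      · rw [h, mul_zero] at hκ; omega
      · exact h
    have h1 : n = κ * Nm (p ^ i) := by rw [Nm_pow, mul_comm]; exact hκ
    refine (floor_sum_le (pow_pos (Nm_pos h0) i) hκ1 (by rw [mul_comm]; exact hκ.le)).trans ?_
    exact prs_ge (pow_ne_zero i h0) a h1 hκ1
  · have h1 : ∑ k ∈ range n, k / Nm p ^ i = 0 :=
      Finset.sum_eq_zero fun k hk => Nat.div_eq_of_lt (lt_of_lt_of_le (Finset.mem_range.mp hk) h)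
    rw [h1, mul_zero]
    exact Nat.zero_le _

/-- equality at every level -/
theorem level_eq {p : Ideal R} (hp : p.IsPrime) (h0 : p ≠ ⊥) {a : ℕ → R}
    (ha : IsPOrdering Set.univ p a) {n : ℕ} (hn : 0 < n)
    (hdiv : ∀ i, Nm p ^ i ∣ n ∨ n ≤ Nm p ^ i) {i : ℕ} (hi : 1 ≤ i) :
    prs (p ^ i) a n = 2 * ∑ k ∈ range n, k / Nm p ^ i := by
  obtain ⟨J₀, hJ₀⟩ := exists_level hp h0 (ordering_injective hp h0 ha) n
  set J := J₀ + n + i with hJ
  have hNJ : ∀ k < n, k < Nm p ^ (J + 1) := by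
    intro k hk
    have h1 : k < 2 ^ k := Nat.lt_two_pow_self
    have h2 : 2 ^ k ≤ 2 ^ (J + 1) := Nat.pow_le_pow_right (by norm_num) (by omega)
    have h3 : 2 ^ (J + 1) ≤ Nm p ^ (J + 1) := Nat.pow_le_pow_left (one_lt_Nm hp h0) _
    omega
  have h1 := sum_val hp h0 (hJ₀ J (by omega))
  have h2 : ∑ k ∈ range n, val p (∏ l ∈ (range n).erase k, (a k - a l)) =
      2 * ∑ k ∈ range n, val p (∏ l ∈ range k, (a k - a l)) := by
    rw [Finset.sum_congr rfl fun k _ => val_prod hp h0 ((range n).erase k) fun l => a k - a l]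
    rw [sum_erase_symm (fun k l => val p (a k - a l)) (fun k l => val_sub_comm p _ _)]
    congr 1
    exact Finset.sum_congr rfl fun k _ => (val_prod hp h0 (range k) fun l => a k - a l).symm
  have h3 : ∑ k ∈ range n, val p (∏ l ∈ range k, (a k - a l)) ≤
      ((∑ k ∈ range n, ∑ i ∈ Finset.Icc 1 J, k / Nm p ^ i : ℕ) : ℕ∞) := by
    rw [Nat.cast_sum]
    refine Finset.sum_le_sum fun k hk => ?_
    rw [Finset.mem_range] at hk
    exact ordering_val_le hp h0 ha (hNJ k hk)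
  have h4 : ∑ i ∈ Finset.Icc 1 J, prs (p ^ i) a n ≤
      ∑ i ∈ Finset.Icc 1 J, 2 * ∑ k ∈ range n, k / Nm p ^ i := by
    have h5 : ((∑ i ∈ Finset.Icc 1 J, prs (p ^ i) a n : ℕ) : ℕ∞) ≤
        ((∑ i ∈ Finset.Icc 1 J, 2 * ∑ k ∈ range n, k / Nm p ^ i : ℕ) : ℕ∞) := by
      rw [← h1, h2]
      refine (mul_le_mul_right h3 2).trans (le_of_eq ?_)
      rw [Finset.sum_comm, ← Finset.mul_sum]
      push_cast
      rfl
    exact_mod_cast h5
  have h6 := (Finset.sum_eq_sum_iff_of_le (s := Finset.Icc 1 J)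
    (f := fun i => 2 * ∑ k ∈ range n, k / Nm p ^ i) (g := fun i => prs (p ^ i) a n)
    fun i _ => level_le hp h0 a hn hdiv i).mp
      (le_antisymm (Finset.sum_le_sum fun i _ => level_le hp h0 a hn hdiv i) h4)
  exact (h6 i (Finset.mem_Icc.mpr ⟨hi, by omega⟩)).symm

end

open scoped Classical in
theorem opt_of_ordering {R : Type u} [CommRing R] [IsDedekindDomain R]
    [Ring.HasFiniteQuotients R] [Infinite R] {S : Type u} [Fintype S] (P : Pack R S) {a : ℕ → R}
    (hinj : Function.Injective a)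
    (ha : ∀ p : Ideal R, p.IsPrime → p ≠ ⊥ → IsPOrdering Set.univ p a) (j : ℕ) :
    P.Opt j ((range (P.q ^ j)).image a) := by
  have hq := P.two_le_q
  have hn : 0 < P.q ^ j := pow_pos (by omega) j
  have hcnt : ∀ (p : Ideal R) (k : ℕ) (x : R),
      (((range (P.q ^ j)).image a).filter fun b => x - b ∈ p ^ k).card =
        cls (p ^ k) a (P.q ^ j) (Ideal.Quotient.mk (p ^ k) x) := by
    intro p k x
    rw [Finset.filter_image, Finset.card_image_of_injective _ hinj]
    unfold cls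
    congr 1
    refine Finset.filter_congr fun l _ => ?_
    rw [eq_comm (a := Ideal.Quotient.mk (p ^ k) (a l)), Ideal.Quotient.eq]
  have hN : ∀ p : Ideal R, p ≠ ⊥ → ∀ i, Nm p ^ i = P.q ^ (i * P.dg p) := by
    intro p h0 i
    rw [P.Nm_eq h0, ← pow_mul, mul_comm]
  have hdiv : ∀ p : Ideal R, p ≠ ⊥ → ∀ i, Nm p ^ i ∣ P.q ^ j ∨ P.q ^ j ≤ Nm p ^ i := by
    intro p h0 i
    rw [hN p h0]
    rcases le_total (i * P.dg p) j with h | h
    · exact Or.inl (pow_dvd_pow _ h)
    · exact Or.inr (Nat.pow_le_pow_right (by omega) h)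
  refine ⟨?_, ?_, ?_⟩
  · rw [Finset.card_image_of_injective _ hinj, Finset.card_range]
  · intro p hp h0 k hk hkj x
    rw [hcnt]
    have h1 : P.q ^ j = P.q ^ (j - k * P.dg p) * Nm (p ^ k) := by
      rw [Nm_pow, hN p h0, ← pow_add, Nat.sub_add_cancel hkj]
    have h2 : 1 ≤ P.q ^ (j - k * P.dg p) := Nat.one_le_pow _ _ (by omega)
    refine cls_eq (pow_ne_zero k h0) h1 h2 ?_ _
    refine le_antisymm ?_ (prs_ge (pow_ne_zero k h0) a h1 h2)
    rw [level_eq hp h0 (ha p hp h0) hn (hdiv p h0) hk]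
    refine floor_sum_le (pow_pos (Nm_pos h0) k) h2 (le_of_eq ?_)
    rw [← Nm_pow]
    exact h1
  · intro p hp h0 k hk hkj x
    rw [hcnt]
    have h1 : prs (p ^ k) a (P.q ^ j) = 0 := by
      rw [level_eq hp h0 (ha p hp h0) hn (hdiv p h0) hk]
      have h2 : ∑ l ∈ range (P.q ^ j), l / Nm p ^ k = 0 := by
        refine Finset.sum_eq_zero fun l hl => Nat.div_eq_of_lt ?_
        rw [hN p h0]
        exact lt_of_lt_of_le (Finset.mem_range.mp hl) (Nat.pow_le_pow_right (by omega) hkj)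
      rw [h2, mul_zero]
    unfold cls
    rw [Finset.card_le_one]
    intro l hl l' hl'
    rw [Finset.mem_filter] at hl hl'
    by_contra hne
    have h2 : a l - a l' ∈ p ^ k := by
      rw [← Ideal.Quotient.eq, hl.2, hl'.2]
    have h3 : (((range (P.q ^ j)).erase l).filter fun i => a l - a i ∈ p ^ k).card = 0 :=
      (Finset.sum_eq_zero_iff.mp h1) l hl.1
    rw [Finset.card_eq_zero] at h3
    have h4 : l' ∈ ((range (P.q ^ j)).erase l).filter fun i => a l - a i ∈ p ^ k :=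
      Finset.mem_filter.mpr ⟨Finset.mem_erase.mpr ⟨fun h => hne h.symm, hl'.1⟩, h2⟩
    rw [h3] at h4
    exact absurd h4 (Finset.notMem_empty _)

theorem stmt_Opt : Stmt_Opt.{u} := by
  classical
  intro R _ _ _ _ S _ P hprime hord
  obtain ⟨p, hp, h0⟩ := hprime
  obtain ⟨a, ha⟩ := hord
  have hinj : Function.Injective a := ordering_injective hp h0 (ha p hp h0)
  refine ⟨fun j => (range (P.q ^ j)).image a, fun j => ?_, fun j => ?_⟩
  · have h := opt_of_ordering P hinj ha j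
    convert h
  · refine Finset.image_subset_image (Finset.range_subset_range.mpr ?_)
    exact Nat.pow_le_pow_right (by have := P.two_le_q; omega) (Nat.le_succ j)

end Pool.Agent.Work.MP_b29d7f_nt.FF
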