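import Pool.Agent.Work.MP_b29d7f_nt.FF.Interface

/-!
# Basic API of packs
-/

set_option linter.unusedSectionVars false

namespace Pool.Agent.Work.MP_b29d7f_nt.FF

open Finset Polynomial
open Pool.Agent.Work.MP_b29d7f_nt.Ded

universe u

namespace Pack

variable {R : Type u} [CommRing R] [IsDedekindDomain R] [Ring.HasFiniteQuotients R] [Infinite R]
  {S : Type u} [Fintype S] (P : Pack R S)

/-! ### levels and balls -/

theorem lev_one (v : S) : P.lev v 1 = 0 := by
  have h := P.lev_mul v 1 1 one_ne_zero one_ne_zero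
  rw [mul_one] at h
  linarith

theorem lev_neg (v : S) (x : R) : P.lev v (-x) = P.lev v x := by
  by_cases hx : x = 0
  · rw [hx, neg_zero]
  have h1 : (-1 : R) ≠ 0 := neg_ne_zero.mpr one_ne_zero
  have h2 := P.lev_mul v (-1) (-1) h1 h1
  rw [neg_mul_neg, mul_one, P.lev_one] at h2
  have h3 := P.lev_mul v (-1) x h1 hx
  rw [neg_one_mul] at h3
  linarith

theorem lev_pow (v : S) {x : R} (hx : x ≠ 0) (n : ℕ) : P.lev v (x ^ n) = n * P.lev v x := by
  induction n with
  | zero => rw [pow_zero, P.lev_one]; simp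
  | succ n ih =>
    rw [pow_succ, P.lev_mul v _ _ (pow_ne_zero n hx) hx, ih]
    push_cast; ring

theorem lev_sub_comm (v : S) (x y : R) : P.lev v (x - y) = P.lev v (y - x) := by
  rw [← P.lev_neg, neg_sub]

theorem near_refl (v : S) (l : ℤ) (x : R) : P.Near v l x x := Or.inl rfl

variable {P}

theorem near_symm {v : S} {l : ℤ} {x y : R} (h : P.Near v l x y) : P.Near v l y x := by
  rcases h with h | h
  · exact Or.inl h.symm
  · exact Or.inr (by rwa [P.lev_sub_comm])

theorem near_comm {v : S} {l : ℤ} {x y : R} : P.Near v l x y ↔ P.Near v l y x :=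
  ⟨near_symm, near_symm⟩

theorem near_mono {v : S} {l l' : ℤ} (h : l ≤ l') {x y : R} (hxy : P.Near v l x y) :
    P.Near v l' x y := hxy.imp id fun h1 => h1.trans h

theorem near_trans {v : S} {l : ℤ} {x y z : R} (h : P.Near v l x y) (h' : P.Near v l y z) :
    P.Near v l x z := by
  rcases eq_or_ne x y with hxy | hxy
  · rwa [hxy]
  rcases eq_or_ne y z with hyz | hyz
  · rwa [← hyz]
  rcases eq_or_ne x z with hxz | hxz
  · exact Or.inl hxz
  right
  have h1 := h.resolve_left hxy
  have h2 := h'.resolve_left hyz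
  have h3 := P.lev_add v (x - y) (y - z) (sub_ne_zero.mpr hxy) (sub_ne_zero.mpr hyz)
    (by rw [sub_add_sub_cancel]; exact sub_ne_zero.mpr hxz)
  rw [sub_add_sub_cancel] at h3
  exact h3.trans (max_le h1 h2)

theorem near_add_right {v : S} {l : ℤ} {x y z : R} : P.Near v l (x + z) (y + z) ↔ P.Near v l x y := by
  unfold Near
  rw [add_sub_add_right_eq_sub, add_left_inj]

theorem near_sub_right {v : S} {l : ℤ} {x y z : R} : P.Near v l (x - z) (y - z) ↔ P.Near v l x y := by
  unfold Near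
  rw [sub_sub_sub_cancel_right, sub_left_inj]

theorem near_zero {v : S} {l : ℤ} {x : R} : P.Near v l x 0 ↔ x = 0 ∨ P.lev v x ≤ l := by
  unfold Near
  rw [sub_zero]

theorem near_sub_zero {v : S} {l : ℤ} {x y : R} : P.Near v l (x - y) 0 ↔ P.Near v l x y := by
  rw [near_zero, sub_eq_zero]; rfl

theorem near_mul {v : S} {l : ℤ} {z : R} (hz : z ≠ 0) {x y : R} :
    P.Near v (l + P.lev v z) (z * x) (z * y) ↔ P.Near v l x y := by
  rcases eq_or_ne x y with hxy | hxy
  · rw [hxy]; exact ⟨fun _ => P.near_refl _ _ _, fun _ => P.near_refl _ _ _⟩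
  have h1 : z * x ≠ z * y := fun h => hxy (mul_left_cancel₀ hz h)
  unfold Near
  simp only [hxy, h1, false_or]
  rw [← mul_sub, P.lev_mul v z _ hz (sub_ne_zero.mpr hxy)]
  constructor <;> intro h <;> linarith

variable (P)

/-! ### the kernels -/

theorem ln_self (x : R) : P.ln x x = 0 := by
  unfold ln; rw [if_pos rfl]

theorem ln_comm (x y : R) : P.ln x y = P.ln y x := by
  unfold ln
  rw [← Ideal.span_singleton_neg (x - y), neg_sub]
  by_cases h : x = y
  · rw [if_pos h, if_pos h.symm]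
  · rw [if_neg h, if_neg (fun h' => h h'.symm)]

theorem ln_of_ne {x y : R} (h : x ≠ y) : P.ln x y = P.dg (Ideal.span {x - y}) := by
  unfold ln; rw [if_neg h]

theorem ln_nonneg (x y : R) : 0 ≤ P.ln x y := by
  unfold ln; split_ifs <;> positivity

theorem ln_eq_sum {x y : R} (h : x ≠ y) :
    P.ln x y = ∑ v, (P.d v : ℝ) * (P.lev v (x - y) : ℝ) := by
  rw [P.ln_of_ne h]
  have h1 := P.dg_span (x - y) (sub_ne_zero.mpr h)
  have h2 : ((P.dg (Ideal.span {x - y}) : ℤ) : ℝ) = ((∑ v, (P.d v : ℤ) * P.lev v (x - y) : ℤ) : ℝ) := by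
    rw [h1]
  push_cast at h2
  exact h2

theorem cap_self (v : S) (l : ℤ) (x : R) : P.cap v l x x = P.d v * l := by
  unfold cap; rw [if_pos rfl]

theorem cap_of_ne (v : S) (l : ℤ) {x y : R} (h : x ≠ y) :
    P.cap v l x y = P.d v * (max (P.lev v (x - y)) l : ℤ) := by
  unfold cap; rw [if_neg h]

theorem cap_comm (v : S) (l : ℤ) (x y : R) : P.cap v l x y = P.cap v l y x := by
  rcases eq_or_ne x y with h | h
  · rw [h]
  · rw [P.cap_of_ne v l h, P.cap_of_ne v l h.symm, P.lev_sub_comm]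

theorem le_cap (v : S) (l : ℤ) (x y : R) : P.d v * l ≤ P.cap v l x y := by
  rcases eq_or_ne x y with h | h
  · rw [h, P.cap_self]
  · rw [P.cap_of_ne v l h]
    have : (l : ℝ) ≤ ((max (P.lev v (x - y)) l : ℤ) : ℝ) := by exact_mod_cast le_max_right _ _
    exact mul_le_mul_of_nonneg_left this (by positivity)

theorem cap_of_near (v : S) (l : ℤ) {x y : R} (h : P.Near v l x y) : P.cap v l x y = P.d v * l := by
  rcases eq_or_ne x y with h' | h'
  · rw [h', P.cap_self]
  · rw [P.cap_of_ne v l h', max_eq_right (h.resolve_left h')]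

theorem cap_of_not_near (v : S) (l : ℤ) {x y : R} (h : ¬ P.Near v l x y) :
    P.cap v l x y = P.d v * P.lev v (x - y) := by
  have h' : x ≠ y := fun h' => h (Or.inl h')
  have h2 : l < P.lev v (x - y) := by
    by_contra hcon
    exact h (Or.inr (not_lt.mp hcon))
  rw [P.cap_of_ne v l h', max_eq_left h2.le]

/-- two elements far from each other have the same level from everything in the ball of one of
them -/
theorem lev_eq_of_near {v : S} {l : ℤ} {x x' y : R} (h : P.Near v l x x') (hy : ¬ P.Near v l x y) :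
    P.lev v (x - y) = P.lev v (x' - y) := by
  have hy' : ¬ P.Near v l x' y := fun h' => hy (near_trans h h')
  rcases eq_or_ne x x' with hx | hx
  · rw [hx]
  have hxy : x ≠ y := fun h' => hy (Or.inl h')
  have hxy' : x' ≠ y := fun h' => hy' (Or.inl h')
  have h1 := h.resolve_left hx
  have h2 : l < P.lev v (x - y) := by
    by_contra hcon
    exact hy (Or.inr (not_lt.mp hcon))
  have h3 : l < P.lev v (x' - y) := by
    by_contra hcon
    exact hy' (Or.inr (not_lt.mp hcon))
  have h4 := P.lev_add v (x - x') (x' - y) (sub_ne_zero.mpr hx) (sub_ne_zero.mpr hxy')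
    (by rw [sub_add_sub_cancel]; exact sub_ne_zero.mpr hxy)
  rw [sub_add_sub_cancel] at h4
  have h5 := P.lev_add v (x' - x) (x - y) (sub_ne_zero.mpr hx.symm) (sub_ne_zero.mpr hxy)
    (by rw [sub_add_sub_cancel]; exact sub_ne_zero.mpr hxy')
  rw [sub_add_sub_cancel, P.lev_sub_comm v x' x] at h5
  rcases max_cases (P.lev v (x - x')) (P.lev v (x' - y)) with h6 | h6 <;>
  rcases max_cases (P.lev v (x - x')) (P.lev v (x - y)) with h7 | h7 <;>
  omega

theorem cap_congr {v : S} {l : ℤ} {x x' : R} (h : P.Near v l x x') (y : R) :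
    P.cap v l x y = P.cap v l x' y := by
  by_cases hy : P.Near v l x y
  · rw [P.cap_of_near v l hy, P.cap_of_near v l (near_trans (near_symm h) hy)]
  · rw [P.cap_of_not_near v l hy, P.cap_of_not_near v l fun h' => hy (near_trans h h'),
      P.lev_eq_of_near h hy]

theorem cap_congr_right {v : S} {l : ℤ} {y y' : R} (h : P.Near v l y y') (x : R) :
    P.cap v l x y = P.cap v l x y' := by
  rw [P.cap_comm, P.cap_congr h, P.cap_comm]

open scoped Classical in
/-- the capped kernel counts the balls which do not contain both points -/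
theorem cap_eq_sum {v : S} {l : ℤ} {x y : R} {T : ℕ} (hT : P.Near v (l + T) x y) :
    P.cap v l x y = P.d v * (l + ∑ i ∈ range T, if P.Near v (l + i) x y then (0 : ℝ) else 1) := by
  by_cases h : P.Near v l x y
  · rw [P.cap_of_near v l h]
    have h1 : ∀ i ∈ range T, (if P.Near v (l + i) x y then (0 : ℝ) else 1) = 0 := fun i _ =>
      if_pos (near_mono (by omega) h)
    rw [Finset.sum_congr rfl h1, Finset.sum_const_zero, add_zero]
  · rw [P.cap_of_not_near v l h]
    have hne : x ≠ y := fun h' => h (Or.inl h')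
    have h2 : l < P.lev v (x - y) := by
      by_contra hcon
      exact h (Or.inr (not_lt.mp hcon))
    obtain ⟨t, ht⟩ := Int.le.dest h2.le
    have h3 : ∀ i : ℕ, P.Near v (l + i) x y ↔ t ≤ i := by
      intro i
      unfold Near
      simp only [hne, false_or]
      omega
    have h4 : t ≤ T := (h3 T).mp hT
    have h5 : ∑ i ∈ range T, (if P.Near v (l + i) x y then (0 : ℝ) else 1) = t := by
      have h6 : ∑ i ∈ range T, (if P.Near v (l + i) x y then (0 : ℝ) else 1) =
          ∑ i ∈ range T, (if i < t then (1 : ℝ) else 0) := by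
        refine Finset.sum_congr rfl fun i _ => ?_
        rw [h3]
        by_cases h7 : t ≤ i
        · rw [if_pos h7, if_neg (by omega)]
        · rw [if_neg h7, if_pos (by omega)]
      rw [h6, Finset.sum_ite, Finset.sum_const_zero, add_zero, Finset.sum_const, nsmul_eq_mul,
        mul_one]
      have h8 : (range T).filter (fun i => i < t) = range t := by
        ext i
        rw [Finset.mem_filter, Finset.mem_range, Finset.mem_range]
        omega
      rw [h8, Finset.card_range]
    rw [h5, ← ht]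
    push_cast
    ring

theorem kap_self (m : S → ℤ) (x : R) : P.kap m x x = P.deg m := by
  unfold kap deg
  push_cast
  exact Finset.sum_congr rfl fun v _ => P.cap_self v (m v) x

theorem kap_comm (m : S → ℤ) (x y : R) : P.kap m x y = P.kap m y x :=
  Finset.sum_congr rfl fun v _ => P.cap_comm v (m v) x y

theorem deg_le_kap (m : S → ℤ) (x y : R) : (P.deg m : ℝ) ≤ P.kap m x y := by
  unfold kap deg
  push_cast
  exact Finset.sum_le_sum fun v _ => P.le_cap v (m v) x y

theorem kap_eq (m : S → ℤ) (x y : R) : P.kap m x y = P.ln x y + P.gap m x y := by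
  unfold gap; ring

theorem gap_comm (m : S → ℤ) (x y : R) : P.gap m x y = P.gap m y x := by
  unfold gap; rw [P.kap_comm, P.ln_comm]

theorem gap_self (m : S → ℤ) (x : R) : P.gap m x x = P.deg m := by
  unfold gap; rw [P.kap_self, P.ln_self, sub_zero]

theorem gap_of_ne (m : S → ℤ) {x y : R} (h : x ≠ y) :
    P.gap m x y = ∑ v, (P.d v : ℝ) * ((max (m v - P.lev v (x - y)) 0 : ℤ) : ℝ) := by
  unfold gap kap
  rw [P.ln_eq_sum h, ← Finset.sum_sub_distrib]
  refine Finset.sum_congr rfl fun v _ => ?_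
  rw [P.cap_of_ne v _ h, ← mul_sub]
  congr 1
  have h1 : max (P.lev v (x - y)) (m v) - P.lev v (x - y) = max (m v - P.lev v (x - y)) 0 := by
    rcases max_cases (P.lev v (x - y)) (m v) with h2 | h2 <;>
    rcases max_cases (m v - P.lev v (x - y)) 0 with h3 | h3 <;> omega
  rw [← h1]
  push_cast
  ring

theorem gap_nonneg_of_ne (m : S → ℤ) {x y : R} (h : x ≠ y) : 0 ≤ P.gap m x y := by
  rw [P.gap_of_ne m h]
  refine Finset.sum_nonneg fun v _ => mul_nonneg (by positivity) ?_
  exact_mod_cast le_max_right _ _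

theorem gap_nonneg {m : S → ℤ} (hm : 0 ≤ P.deg m) (x y : R) : 0 ≤ P.gap m x y := by
  rcases eq_or_ne x y with h | h
  · rw [h, P.gap_self]; exact_mod_cast hm
  · exact P.gap_nonneg_of_ne m h

theorem le_gap_of_near {m : S → ℤ} {x y : R} (h : x ≠ y) {v : S} (hv : P.Near v (m v - 1) x y) :
    (P.d v : ℝ) ≤ P.gap m x y := by
  rw [P.gap_of_ne m h]
  have h1 := hv.resolve_left h
  have h2 : (P.d v : ℝ) * 1 ≤ (P.d v : ℝ) * ((max (m v - P.lev v (x - y)) 0 : ℤ) : ℝ) := by
    refine mul_le_mul_of_nonneg_left ?_ (by positivity)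
    have : (1 : ℤ) ≤ max (m v - P.lev v (x - y)) 0 := le_max_of_le_left (by omega)
    exact_mod_cast this
  rw [mul_one] at h2
  refine h2.trans (Finset.single_le_sum (f := fun v =>
    (P.d v : ℝ) * ((max (m v - P.lev v (x - y)) 0 : ℤ) : ℝ)) (fun w _ => mul_nonneg (by positivity) ?_)
      (Finset.mem_univ v))
  exact_mod_cast le_max_right _ _

theorem gap_eq_zero {m : S → ℤ} {x y : R} (h : x ≠ y) (hv : ∀ v, ¬ P.Near v (m v - 1) x y) :
    P.gap m x y = 0 := by
  rw [P.gap_of_ne m h]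
  refine Finset.sum_eq_zero fun v _ => ?_
  have h1 : ¬ P.lev v (x - y) ≤ m v - 1 := fun h' => hv v (Or.inr h')
  have h2 : max (m v - P.lev v (x - y)) 0 = 0 := max_eq_right (by omega)
  rw [h2]; simp

/-- translation invariance -/
theorem ln_sub (x y z : R) : P.ln (x - z) (y - z) = P.ln x y := by
  unfold ln
  rw [sub_sub_sub_cancel_right, sub_left_inj]

/-! ### norms of ideals -/

theorem q_pos : 0 < P.q := by have := P.two_le_q; omega

theorem q_pos' : (0 : ℝ) < P.q := by exact_mod_cast P.q_pos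

theorem one_lt_q' : (1 : ℝ) < P.q := by
  have := P.two_le_q
  exact_mod_cast (by omega : 1 < P.q)

theorem Nm_eq {I : Ideal R} (hI : I ≠ ⊥) : Nm I = P.q ^ P.dg I := P.card_quot I hI

theorem pow_inj {a b : ℕ} (h : P.q ^ a = P.q ^ b) : a = b := Nat.pow_right_injective P.two_le_q h

theorem dg_top : P.dg (⊤ : Ideal R) = 0 := by
  apply P.pow_inj
  rw [← P.Nm_eq top_ne_bot, Nm_top, pow_zero]

theorem dg_mul {I J : Ideal R} (hI : I ≠ ⊥) (hJ : J ≠ ⊥) : P.dg (I * J) = P.dg I + P.dg J := by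
  apply P.pow_inj
  rw [← P.Nm_eq (mul_ne_zero hI hJ : I * J ≠ 0), Nm_mul, P.Nm_eq hI, P.Nm_eq hJ, pow_add]

theorem dg_pow {I : Ideal R} (hI : I ≠ ⊥) (n : ℕ) : P.dg (I ^ n) = n * P.dg I := by
  apply P.pow_inj
  rw [← P.Nm_eq (pow_ne_zero n hI : I ^ n ≠ 0), Nm_pow, P.Nm_eq hI, ← pow_mul, mul_comm]

theorem dg_eq_zero {I : Ideal R} (hI : I ≠ ⊥) : P.dg I = 0 ↔ I = ⊤ := by
  rw [← Nm_eq_one, P.Nm_eq hI]
  constructor
  · intro h; rw [h, pow_zero]
  · intro h
    apply P.pow_inj
    rw [h, pow_zero]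

theorem one_le_dg {p : Ideal R} (hp : p.IsPrime) (h0 : p ≠ ⊥) : 1 ≤ P.dg p := by
  have h := (P.dg_eq_zero h0).not.mpr hp.ne_top
  omega

theorem dg_le_dg {I J : Ideal R} (hI : I ≠ ⊥) (h : I ≤ J) : P.dg J ≤ P.dg I := by
  obtain ⟨K, hK⟩ := Ideal.dvd_iff_le.mpr h
  have hJ : J ≠ ⊥ := by
    rintro rfl
    exact hI (le_bot_iff.mp h)
  have hK0 : K ≠ ⊥ := by
    rintro rfl
    rw [Ideal.mul_bot] at hK
    exact hI hK
  rw [hK, P.dg_mul hJ hK0]
  omega

theorem mem_primes {i : ℕ} {p : Ideal R} :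
    p ∈ P.primes i ↔ p.IsPrime ∧ p ≠ ⊥ ∧ P.dg p ≤ i := by
  classical
  unfold primes
  rw [Finset.mem_filter, Set.Finite.mem_toFinset, Set.mem_ofPred_eq]
  tauto

theorem cast_card_quot {I : Ideal R} (hI : I ≠ ⊥) : ((Nm I : ℕ) : ℝ) = (P.q : ℝ) ^ P.dg I := by
  rw [P.Nm_eq hI]; push_cast; rfl

/-! ### boxes -/

theorem deg_add (m m' : S → ℤ) : P.deg (m + m') = P.deg m + P.deg m' := by
  unfold deg
  rw [← Finset.sum_add_distrib]
  exact Finset.sum_congr rfl fun v _ => by rw [Pi.add_apply]; ring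

theorem deg_mono {m m' : S → ℤ} (h : ∀ v, m v ≤ m' v) : P.deg m ≤ P.deg m' :=
  Finset.sum_le_sum fun v _ => mul_le_mul_of_nonneg_left (h v) (by positivity)

theorem deg_const (T : ℤ) : P.deg (fun _ => T) = T * ∑ v, (P.d v : ℤ) := by
  unfold deg
  rw [Finset.mul_sum]
  exact Finset.sum_congr rfl fun v _ => mul_comm _ _

open scoped Classical in
theorem deg_update (m : S → ℤ) (v : S) (l : ℤ) :
    P.deg (Function.update m v l) = P.deg m + P.d v * (l - m v) := by
  unfold deg
  rw [← Finset.add_sum_erase _ _ (Finset.mem_univ v), ← Finset.add_sum_erase _ _ (Finset.mem_univ v),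
    Function.update_self]
  have h : ∑ w ∈ univ.erase v, (P.d w : ℤ) * Function.update m v l w =
      ∑ w ∈ univ.erase v, (P.d w : ℤ) * m w :=
    Finset.sum_congr rfl fun w hw => by rw [Function.update_of_ne (Finset.ne_of_mem_erase hw)]
  rw [h]
  ring

theorem finite_cell (I : Ideal R) (m : S → ℤ) (y : S → R) :
    {x : R | x ∈ I ∧ ∀ v, x = y v ∨ P.lev v (x - y v) ≤ m v}.Finite := by
  rcases Set.eq_empty_or_nonempty {x : R | x ∈ I ∧ ∀ v, x = y v ∨ P.lev v (x - y v) ≤ m v} with h | h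
  · rw [h]; exact Set.finite_empty
  obtain ⟨x₀, hx₀⟩ := h
  refine Set.Finite.subset ((P.finite_box m).image fun x => x + x₀) fun x hx => ?_
  refine ⟨x - x₀, fun v => ?_, sub_add_cancel _ _⟩
  have h1 : P.Near v (m v) x (y v) := hx.2 v
  have h2 : P.Near v (m v) x₀ (y v) := hx₀.2 v
  exact near_zero.mp (near_sub_zero.mpr (near_trans h1 (near_symm h2)))

/-- the elements of `I` in a tuple of cells -/
noncomputable def cell (I : Ideal R) (m : S → ℤ) (y : S → R) : Finset R :=
  (P.finite_cell I m y).toFinset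

theorem mem_cell {I : Ideal R} {m : S → ℤ} {y : S → R} {x : R} :
    x ∈ P.cell I m y ↔ x ∈ I ∧ ∀ v, P.Near v (m v) x (y v) := by
  unfold cell
  rw [Set.Finite.mem_toFinset]
  rfl

theorem card_cell {I : Ideal R} (hI : I ≠ ⊥) {m : S → ℤ} (h : (P.c₀ : ℤ) ≤ P.deg m - P.dg I)
    (y : S → R) : ((P.cell I m y).card : ℝ) = (P.q : ℝ) ^ (P.deg m - P.dg I + P.χ) := by
  have h1 := P.card_eq I hI m h y
  change _ = (P.q : ℝ) ^ ((∑ v, (P.d v : ℤ) * m v) - P.dg I + P.χ)
  rw [← h1]
  unfold cell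
  rw [← Set.ncard_eq_toFinset_card _ (P.finite_cell I m y), ← Nat.card_coe_set_eq]
  rfl

theorem cell_nonempty {I : Ideal R} (hI : I ≠ ⊥) {m : S → ℤ} (h : (P.c₀ : ℤ) ≤ P.deg m - P.dg I)
    (y : S → R) : (P.cell I m y).Nonempty := by
  rw [← Finset.card_pos]
  have h1 := P.card_cell hI h y
  have h2 : (0 : ℝ) < (P.q : ℝ) ^ (P.deg m - P.dg I + P.χ) := zpow_pos P.q_pos' _
  rw [← h1] at h2
  exact_mod_cast h2

/-- the elements of `I` in a box, as a finset -/
noncomputable def box (I : Ideal R) (m : S → ℤ) : Finset R := P.cell I m fun _ => 0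

theorem mem_box' {I : Ideal R} {m : S → ℤ} {x : R} :
    x ∈ P.box I m ↔ x ∈ I ∧ ∀ v, P.Near v (m v) x 0 := P.mem_cell

theorem mem_box {I : Ideal R} {m : S → ℤ} {x : R} :
    x ∈ P.box I m ↔ x ∈ I ∧ ∀ v, x = 0 ∨ P.lev v x ≤ m v := by
  rw [P.mem_box']
  simp_rw [near_zero]

theorem card_box (I : Ideal R) (m : S → ℤ) :
    (P.box I m).card = Nat.card {x : R // x ∈ I ∧ ∀ v, x = 0 ∨ P.lev v x ≤ m v} := by
  unfold box cell
  rw [← Set.ncard_eq_toFinset_card _ (P.finite_cell I m _), ← Nat.card_coe_set_eq]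
  simp only [sub_zero]
  rfl

theorem zero_mem_box (I : Ideal R) (m : S → ℤ) : (0 : R) ∈ P.box I m :=
  P.mem_box.mpr ⟨I.zero_mem, fun _ => Or.inl rfl⟩

theorem box_mono {I : Ideal R} {m m' : S → ℤ} (h : ∀ v, m v ≤ m' v) : P.box I m ⊆ P.box I m' := by
  intro x hx
  rw [P.mem_box'] at hx ⊢
  exact ⟨hx.1, fun v => near_mono (h v) (hx.2 v)⟩

theorem one_le_card_box (I : Ideal R) (m : S → ℤ) : 1 ≤ (P.box I m).card :=
  Finset.card_pos.mpr ⟨0, P.zero_mem_box I m⟩

theorem le_card_box {I : Ideal R} (hI : I ≠ ⊥) (m : S → ℤ) :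
    (P.q : ℝ) ^ (P.deg m - P.dg I + P.χ) ≤ (P.box I m).card := by
  rw [P.card_box]
  exact P.card_ge I hI m

theorem card_box_eq {I : Ideal R} (hI : I ≠ ⊥) {m : S → ℤ} (h : (P.c₀ : ℤ) ≤ P.deg m - P.dg I) :
    ((P.box I m).card : ℝ) = (P.q : ℝ) ^ (P.deg m - P.dg I + P.χ) := P.card_cell hI h _

/-- the number of elements of `I` in a box of small degree is bounded -/
theorem exists_card_box_le [Nonempty S] : ∃ c₁ : ℕ, ∀ I : Ideal R, I ≠ ⊥ → ∀ m : S → ℤ,
    ((P.box I m).card : ℝ) ≤ max ((P.q : ℝ) ^ (P.deg m - P.dg I + P.χ)) ((P.q : ℝ) ^ c₁) := by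
  classical
  obtain ⟨v⟩ := (inferInstance : Nonempty S)
  refine ⟨(P.c₀ + P.d v + P.χ).toNat, fun I hI m => ?_⟩
  rcases le_or_gt (P.c₀ : ℤ) (P.deg m - P.dg I) with h | h
  · rw [P.card_box_eq hI h]; exact le_max_left _ _
  · -- raise the level at `v`
    have hd := P.one_le_d v
    set D := P.deg m - P.dg I with hD
    set T : ℤ := (P.c₀ - D) / P.d v + 1 with hT
    have hT1 : (P.c₀ : ℤ) - D ≤ P.d v * T := by
      have := Int.lt_ediv_add_one_mul_self ((P.c₀ : ℤ) - D) (b := (P.d v : ℤ)) (by omega)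
      rw [hT]; nlinarith
    have hT2 : (P.d v : ℤ) * T ≤ (P.c₀ : ℤ) - D + P.d v := by
      have := Int.ediv_mul_le ((P.c₀ : ℤ) - D) (b := (P.d v : ℤ)) (by omega)
      rw [hT]; nlinarith
    have hT0 : 0 ≤ T := by
      rw [hT]
      have := Int.ediv_nonneg (a := (P.c₀ : ℤ) - D) (b := (P.d v : ℤ)) (by omega) (by omega)
      omega
    have hdeg : P.deg (Function.update m v (m v + T)) = P.deg m + P.d v * T := by
      rw [P.deg_update]; ring
    have h1 : ((P.box I m).card : ℝ) ≤ (P.box I (Function.update m v (m v + T))).card := by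
      exact_mod_cast Finset.card_le_card (P.box_mono fun w => by
        by_cases hw : w = v
        · subst hw; rw [Function.update_self]; omega
        · rw [Function.update_of_ne hw])
    rw [P.card_box_eq hI (m := Function.update m v (m v + T)) (by rw [hdeg]; omega), hdeg] at h1
    refine h1.trans (le_max_of_le_right ?_)
    rw [← zpow_natCast]
    refine zpow_le_zpow_right₀ P.one_lt_q'.le ?_
    refine le_trans ?_ (Int.self_le_toNat _)
    omega

theorem exists_ne_zero_mem_box {I : Ideal R} (hI : I ≠ ⊥) {m : S → ℤ}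
    (h : 1 ≤ P.deg m - P.dg I + P.χ) : ∃ x ∈ P.box I m, x ≠ 0 := by
  have h1 := P.le_card_box hI m
  have h2 : (P.q : ℝ) ^ (1 : ℤ) ≤ (P.q : ℝ) ^ (P.deg m - P.dg I + P.χ) :=
    zpow_le_zpow_right₀ P.one_lt_q'.le h
  rw [zpow_one] at h2
  have h3 : P.q ≤ (P.box I m).card := by exact_mod_cast h2.trans h1
  have h4 : 1 < (P.box I m).card := lt_of_lt_of_le (by have := P.two_le_q; omega) h3
  obtain ⟨x, hx, hx0⟩ := Finset.exists_mem_ne h4 0
  exact ⟨x, hx, hx0⟩

/-- every vector of levels of large degree is attained -/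
theorem exists_lev_eq {m : S → ℤ} (h : (P.c₀ : ℤ) + ∑ v, (P.d v : ℤ) ≤ P.deg m) :
    ∃ x : R, x ≠ 0 ∧ ∀ v, P.lev v x = m v := by
  classical
  have htop : (⊤ : Ideal R) ≠ ⊥ := top_ne_bot
  have hd : ∀ v, (P.d v : ℤ) ≤ ∑ v, (P.d v : ℤ) := fun v =>
    Finset.single_le_sum (f := fun v => (P.d v : ℤ)) (fun _ _ => by positivity) (Finset.mem_univ v)
  have h1 : ∀ v, ∃ y : R, y ≠ 0 ∧ P.lev v y = m v := by
    intro v
    have hdv := P.one_le_d v
    have hm' : P.deg (Function.update m v (m v - 1)) = P.deg m - P.d v := by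
      rw [P.deg_update]; ring
    have h2 := P.card_box_eq htop (m := m) (by rw [P.dg_top]; have := hd v; push_cast; omega)
    have h3 := P.card_box_eq htop (m := Function.update m v (m v - 1))
      (by rw [P.dg_top, hm']; have := hd v; push_cast; omega)
    have h4 : ((P.box ⊤ (Function.update m v (m v - 1))).card : ℝ) < (P.box ⊤ m).card := by
      rw [h2, h3, hm']
      exact zpow_lt_zpow_right₀ P.one_lt_q' (by omega)
    have h5 : ∃ y ∈ P.box (⊤ : Ideal R) m, y ∉ P.box ⊤ (Function.update m v (m v - 1)) := by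
      by_contra hcon
      push Not at hcon
      have := Finset.card_le_card (show P.box (⊤ : Ideal R) m ⊆ _ from hcon)
      have h6 : (P.box ⊤ (Function.update m v (m v - 1))).card < (P.box ⊤ m).card := by
        exact_mod_cast h4
      omega
    obtain ⟨y, hy, hy'⟩ := h5
    rw [P.mem_box'] at hy hy'
    have hy0 : y ≠ 0 := by
      rintro rfl
      exact hy' ⟨trivial, fun w => P.near_refl _ _ _⟩
    refine ⟨y, hy0, le_antisymm ((near_zero.mp (hy.2 v)).resolve_left hy0) ?_⟩
    by_contra hcon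
    apply hy'
    refine ⟨trivial, fun w => ?_⟩
    by_cases hw : w = v
    · subst hw
      rw [Function.update_self]
      exact near_zero.mpr (Or.inr (by omega))
    · rw [Function.update_of_ne hw]
      exact hy.2 w
  choose y hy0 hy using h1
  have hm' : P.deg (fun v => m v - 1) = P.deg m - ∑ v, (P.d v : ℤ) := by
    unfold deg
    rw [← Finset.sum_sub_distrib]
    exact Finset.sum_congr rfl fun v _ => by ring
  obtain ⟨x, hx⟩ := P.cell_nonempty htop (m := fun v => m v - 1)
    (by rw [P.dg_top, hm']; push_cast; omega) y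
  rw [P.mem_cell] at hx
  have hne : ∀ v, x ≠ 0 ∧ P.lev v x = m v := by
    intro v
    have h2 := hx.2 v
    have h3 : ¬ P.Near v (m v - 1) 0 (y v) := by
      intro h4
      have h5 := (near_zero.mp (near_symm h4)).resolve_left (hy0 v)
      rw [hy v] at h5
      omega
    have hx0 : x ≠ 0 := by
      rintro rfl
      exact h3 h2
    refine ⟨hx0, ?_⟩
    have h4 := P.lev_eq_of_near (near_symm h2) (y := 0) (fun h5 => h3 (near_symm h5))
    rw [sub_zero, sub_zero, hy v] at h4
    exact h4.symm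
  rcases isEmpty_or_nonempty S with hS | hS
  · exact ⟨1, one_ne_zero, fun v => (hS.false v).elim⟩
  · obtain ⟨v⟩ := hS
    exact ⟨x, (hne v).1, fun w => (hne w).2⟩

/-- the number of balls of level `l` in a ball of level `l + n` is at most `q_v ^ n` -/
theorem branch {v : S} {l : ℤ} {n : ℕ} {F : Finset R} (hF : ∀ x ∈ F, ∀ y ∈ F, P.Near v (l + n) x y)
    (hsep : P.Sep v l F) : F.card ≤ (P.q ^ P.d v) ^ n := by
  classical
  rcases F.eq_empty_or_nonempty with h | h
  · rw [h, Finset.card_empty]; exact Nat.zero_le _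
  obtain ⟨x₀, hx₀⟩ := h
  have htop : (⊤ : Ideal R) ≠ ⊥ := top_ne_bot
  set sd : ℤ := ∑ v, (P.d v : ℤ) with hsd
  have hdv := P.one_le_d v
  have hsd1 : 1 ≤ sd := by
    have h1 : (P.d v : ℤ) ≤ ∑ v, (P.d v : ℤ) :=
      Finset.single_le_sum (f := fun v => (P.d v : ℤ)) (fun _ _ => by positivity) (Finset.mem_univ v)
    omega
  set T : ℤ := P.c₀ + sd + P.d v * |l| with hT
  have habs : 0 ≤ (P.d v : ℤ) * |l| := by positivity
  have hT0 : 0 ≤ T := by rw [hT]; positivity
  obtain ⟨z, hz0, hz⟩ := P.exists_lev_eq (m := fun _ => T) (by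
    rw [P.deg_const, ← hsd]; nlinarith)
  set m : S → ℤ := Function.update (fun _ => T) v (l + T) with hm
  set m' : S → ℤ := Function.update (fun _ => T) v (l + n + T) with hm'
  have hdeg : P.deg m = T * sd + P.d v * l := by
    rw [hm, P.deg_update, P.deg_const, ← hsd]; ring
  have hdeg' : P.deg m' = P.deg m + P.d v * n := by
    rw [hdeg, hm', P.deg_update, P.deg_const, ← hsd]; ring
  have hc : (P.c₀ : ℤ) ≤ P.deg m - P.dg (⊤ : Ideal R) := by
    rw [P.dg_top, hdeg]
    have h1 : -((P.d v : ℤ) * |l|) ≤ P.d v * l := by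
      rw [← mul_neg]
      exact mul_le_mul_of_nonneg_left (neg_abs_le l) (by positivity)
    push_cast
    nlinarith
  have hc' : (P.c₀ : ℤ) ≤ P.deg m' - P.dg (⊤ : Ideal R) := by
    rw [hdeg']
    have : (0 : ℤ) ≤ P.d v * n := by positivity
    omega
  -- the small cells
  have hdisj : Set.PairwiseDisjoint (F : Set R)
      (fun x => P.cell ⊤ m (Function.update (fun _ => 0) v (z * x))) := by
    intro x hx y hy hxy
    change Disjoint _ _
    rw [Finset.disjoint_left]
    intro w hw hw'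
    rw [P.mem_cell] at hw hw'
    apply hxy
    apply hsep x hx y hy
    have h1 := hw.2 v
    have h2 := hw'.2 v
    rw [hm, Function.update_self, Function.update_self] at h1 h2
    have h3 := near_trans (near_symm h1) h2
    rw [← hz v] at h3
    exact (near_mul hz0).mp h3
  have hsub : F.biUnion (fun x => P.cell ⊤ m (Function.update (fun _ => 0) v (z * x))) ⊆
      P.cell ⊤ m' (Function.update (fun _ => 0) v (z * x₀)) := by
    intro w hw
    rw [Finset.mem_biUnion] at hw
    obtain ⟨x, hx, hw⟩ := hw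
    rw [P.mem_cell] at hw ⊢
    refine ⟨trivial, fun u => ?_⟩
    have h1 := hw.2 u
    by_cases hu : u = v
    · subst hu
      rw [hm, Function.update_self, Function.update_self] at h1
      rw [hm', Function.update_self, Function.update_self]
      refine near_trans (near_mono (by omega) h1) ?_
      have h2 := (near_mul hz0).mpr (hF x hx x₀ hx₀)
      rwa [hz u] at h2
    · rw [hm, Function.update_of_ne hu, Function.update_of_ne hu] at h1
      rw [hm', Function.update_of_ne hu, Function.update_of_ne hu]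
      exact h1
  have h1 := Finset.card_le_card hsub
  rw [Finset.card_biUnion fun x hx y hy hxy => hdisj hx hy hxy] at h1
  have h2 : ((∑ x ∈ F, (P.cell ⊤ m (Function.update (fun _ => 0) v (z * x))).card : ℕ) : ℝ) ≤
      ((P.cell ⊤ m' (Function.update (fun _ => 0) v (z * x₀))).card : ℝ) := by exact_mod_cast h1
  push_cast at h2
  rw [Finset.sum_congr rfl fun x _ => P.card_cell htop hc _, P.card_cell htop hc', Finset.sum_const,
    nsmul_eq_mul, hdeg'] at h2
  have h3 : P.deg m + P.d v * n - P.dg (⊤ : Ideal R) + P.χ =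
      (P.d v * n : ℤ) + (P.deg m - P.dg (⊤ : Ideal R) + P.χ) := by ring
  rw [h3] at h2
  generalize P.deg m - P.dg (⊤ : Ideal R) + P.χ = E at h2
  rw [zpow_add₀ P.q_pos'.ne'] at h2
  have h4 := le_of_mul_le_mul_right h2 (zpow_pos P.q_pos' _)
  have h5 : (P.q : ℝ) ^ ((P.d v : ℤ) * n) = (((P.q ^ P.d v) ^ n : ℕ) : ℝ) := by
    push_cast
    rw [← pow_mul, ← zpow_natCast]
    push_cast
    rfl
  rw [h5] at h4
  exact_mod_cast h4

end Pack

end Pool.Agent.Work.MP_b29d7f_nt.FF
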