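import Pool.Agent.Work.MP_b29d7f_nt.FF.Count

/-!
# Sums over products of sets of cells (used in LOWER and BALL)
-/

set_option linter.unusedSectionVars false

namespace Pool.Agent.Work.MP_b29d7f_nt.FF

open Finset Polynomial
open Pool.Agent.Work.MP_b29d7f_nt.Ded

universe u

namespace Pack

variable {R : Type u} [CommRing R] [IsDedekindDomain R] [Ring.HasFiniteQuotients R] [Infinite R]
  {S : Type u} [Fintype S] (P : Pack R S)

open scoped Classical in
/-- sum over a product of sets of cells of a function of the `v`-cell -/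
theorem sum_cells {m : S → ℤ} (hm : (P.c₀ : ℤ) ≤ P.deg m) {M : S → Finset R}
    (hM : ∀ v, P.Sep v (m v) (M v)) {A : Finset R} (hA : ∀ y, y ∈ A ↔ P.InCells m M y) (v : S)
    (g : R → ℝ) (hg : ∀ b c, P.Near v (m v) b c → g b = g c) :
    ∑ b ∈ A, g b = ((A.card : ℝ) / (M v).card) * ∑ c ∈ M v, g c := by
  have h1 : A = (M v).biUnion fun c => A.filter fun y => P.Near v (m v) y c := by
    ext y
    rw [Finset.mem_biUnion]
    constructor
    · intro h
      obtain ⟨c, hc, hc'⟩ := (hA y).mp h v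
      exact ⟨c, hc, Finset.mem_filter.mpr ⟨h, hc'⟩⟩
    · rintro ⟨c, -, h⟩
      exact (Finset.mem_filter.mp h).1
  have h2 : ∀ c ∈ M v, ∀ c' ∈ M v, c ≠ c' → Disjoint (A.filter fun y => P.Near v (m v) y c)
      (A.filter fun y => P.Near v (m v) y c') := by
    intro c hc c' hc' hne
    rw [Finset.disjoint_left]
    intro y hy hy'
    exact hne (hM v c hc c' hc' (near_trans (near_symm (Finset.mem_filter.mp hy).2)
      (Finset.mem_filter.mp hy').2))
  have h3 : ∀ c ∈ M v, ∑ b ∈ A.filter (fun y => P.Near v (m v) y c), g b =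
      ((A.card : ℝ) / (M v).card) * g c := by
    intro c hc
    have h4 : (((A.filter fun y => P.Near v (m v) y c).card * (M v).card : ℕ) : ℝ) = (A.card : ℝ) := by
      rw [(stmt_Count R S P m hm M hM A hA).2 v c hc]
    have h5 : ((M v).card : ℝ) ≠ 0 := Nat.cast_ne_zero.mpr (Finset.card_pos.mpr ⟨c, hc⟩).ne'
    rw [Finset.sum_congr rfl fun b hb => hg b c (Finset.mem_filter.mp hb).2, Finset.sum_const,
      nsmul_eq_mul, ← h4]
    rw [Nat.cast_mul, mul_div_assoc, div_self h5, mul_one]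
  rw [Finset.mul_sum, ← Finset.sum_congr rfl h3, ← Finset.sum_biUnion h2, ← h1]

open scoped Classical in
theorem sum_kap_cells {m : S → ℤ} (hm : (P.c₀ : ℤ) ≤ P.deg m) {M : S → Finset R}
    (hM : ∀ v, P.Sep v (m v) (M v)) {A : Finset R} (hA : ∀ y, y ∈ A ↔ P.InCells m M y) (x : R) :
    ∑ b ∈ A, P.kap m x b =
      ∑ v, ((A.card : ℝ) / (M v).card) * ∑ c ∈ M v, P.cap v (m v) x c := by
  unfold kap
  rw [Finset.sum_comm]
  exact Finset.sum_congr rfl fun v _ => P.sum_cells hm hM hA v (fun b => P.cap v (m v) x b)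
    fun b c h => P.cap_congr_right h x

theorem lg_card_cells {m : S → ℤ} (hm : (P.c₀ : ℤ) ≤ P.deg m) {M : S → Finset R}
    (hM : ∀ v, P.Sep v (m v) (M v)) {A : Finset R} (hA : ∀ y, y ∈ A ↔ P.InCells m M y)
    (hne : ∀ v, (M v).Nonempty) :
    P.lg A.card = P.deg m + P.χ + ∑ v, P.lg (M v).card := by
  have h1 : ∀ v ∈ (univ : Finset S), ((M v).card : ℝ) ≠ 0 := fun v _ =>
    Nat.cast_ne_zero.mpr (Finset.card_pos.mpr (hne v)).ne'
  rw [P.card_of_inCells hm hM hA]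
  unfold lg
  rw [Real.logb_mul (zpow_pos P.q_pos' _).ne' (Finset.prod_ne_zero_iff.mpr h1),
    Real.logb_prod _ _ h1, ← Real.rpow_intCast, Real.logb_rpow P.q_pos' P.one_lt_q'.ne']
  push_cast
  rfl

/-- the defect of `x` at `v` -/
noncomputable def defect (m : S → ℤ) (M : S → Finset R) (x : R) (v : S) : ℝ :=
  ∑ c ∈ M v, P.cap v (m v) x c -
    ((M v).card : ℝ) * (P.d v * m v + P.lg (M v).card - (P.d v : ℝ) / ((P.q : ℝ) ^ P.d v - 1))

open scoped Classical in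
/-- energy of `x` in a product of sets of cells -/
theorem sum_kap_cells' {m : S → ℤ} (hm : (P.c₀ : ℤ) ≤ P.deg m) {M : S → Finset R}
    (hM : ∀ v, P.Sep v (m v) (M v)) {A : Finset R} (hA : ∀ y, y ∈ A ↔ P.InCells m M y)
    (hne : ∀ v, (M v).Nonempty) (x : R) :
    ∑ b ∈ A, P.kap m x b = A.card * (P.lg A.card - P.χ - P.cc) +
      ∑ v, ((A.card : ℝ) / (M v).card) * P.defect m M x v := by
  rw [P.sum_kap_cells hm hM hA, P.lg_card_cells hm hM hA hne]
  have h1 : ∀ v, ((M v).card : ℝ) ≠ 0 := fun v =>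
    Nat.cast_ne_zero.mpr (Finset.card_pos.mpr (hne v)).ne'
  have h2 : ∀ v, ((A.card : ℝ) / (M v).card) * ∑ c ∈ M v, P.cap v (m v) x c =
      A.card * (P.d v * m v) + A.card * P.lg (M v).card
        - A.card * ((P.d v : ℝ) / ((P.q : ℝ) ^ P.d v - 1)) +
      ((A.card : ℝ) / (M v).card) * P.defect m M x v := by
    intro v
    unfold defect
    have h3 := h1 v
    have h4 : ((A.card : ℝ) / (M v).card) * (((M v).card : ℝ) *
        (P.d v * m v + P.lg (M v).card - (P.d v : ℝ) / ((P.q : ℝ) ^ P.d v - 1))) =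
        A.card * (P.d v * m v + P.lg (M v).card - (P.d v : ℝ) / ((P.q : ℝ) ^ P.d v - 1)) := by
      rw [← mul_assoc, div_mul_cancel₀ _ h3]
    rw [mul_sub, h4]
    ring
  rw [Finset.sum_congr rfl fun v _ => h2 v, Finset.sum_add_distrib, Finset.sum_sub_distrib,
    Finset.sum_add_distrib, ← Finset.mul_sum, ← Finset.mul_sum, ← Finset.mul_sum]
  have h5 : (P.deg m : ℝ) = ∑ v, (P.d v : ℝ) * (m v : ℝ) := by
    unfold deg
    push_cast
    rfl
  rw [← h5]
  unfold cc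
  ring

end Pack

/-! ### limits -/

open Filter Topology in
theorem tendsto_sqrt_mul {C ρ : ℝ} (hC : 0 < C) (hρ : 0 < ρ) (hρ1 : ρ < 1) (K : ℝ) :
    Tendsto (fun j : ℕ => Real.sqrt (C * ρ ^ j) * (j + K)) atTop (𝓝 0) := by
  have h1 : ∀ j : ℕ, Real.sqrt (C * ρ ^ j) * (j + K) =
      Real.sqrt C * (j * (Real.sqrt ρ) ^ j) + Real.sqrt C * K * (Real.sqrt ρ) ^ j := by
    intro j
    have h2 : Real.sqrt (ρ ^ j) = (Real.sqrt ρ) ^ j := by
      rw [Real.sqrt_eq_iff_mul_self_eq (by positivity) (by positivity), ← mul_pow,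
        Real.mul_self_sqrt hρ.le]
    rw [Real.sqrt_mul hC.le, h2]
    ring
  simp_rw [h1]
  have h2 : 0 ≤ Real.sqrt ρ := Real.sqrt_nonneg _
  have h3 : Real.sqrt ρ < 1 := by
    rw [Real.sqrt_lt' one_pos]
    simpa using hρ1
  have h4 := tendsto_self_mul_const_pow_of_lt_one h2 h3
  have h5 := tendsto_pow_atTop_nhds_zero_of_lt_one h2 h3
  have h6 := (h4.const_mul (Real.sqrt C)).add (h5.const_mul (Real.sqrt C * K))
  simpa using h6

open Filter Topology in
/-- the error terms are small for large `j` -/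
theorem exists_small_rho {C ρ : ℝ} (hC : 0 < C) (hρ : 0 < ρ) (hρ1 : ρ < 1) (K : ℝ) {ε : ℝ}
    (hε : 0 < ε) : ∃ j₀ : ℕ, ∀ j ≥ j₀, 0 < C * ρ ^ j ∧ C * ρ ^ j ≤ ε ∧
      Real.sqrt (C * ρ ^ j) ≤ ε ∧ K ≤ j ∧ Real.sqrt (C * ρ ^ j) * (j + K) ≤ ε := by
  have h1 := tendsto_sqrt_mul hC hρ hρ1 K
  have h2 := tendsto_sqrt_mul hC hρ hρ1 0
  have h3 : Tendsto (fun j : ℕ => C * ρ ^ j) atTop (𝓝 0) := by
    simpa using (tendsto_pow_atTop_nhds_zero_of_lt_one hρ.le hρ1).const_mul C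
  have h4 : ∀ᶠ j : ℕ in atTop, K ≤ j := tendsto_natCast_atTop_atTop.eventually_ge_atTop K
  have h5 : ∀ᶠ j : ℕ in atTop, (1 : ℝ) ≤ j := tendsto_natCast_atTop_atTop.eventually_ge_atTop 1
  have h6 := ((h1.eventually_le_const hε).and (h2.eventually_le_const hε)).and
    ((h3.eventually_le_const hε).and (h4.and h5))
  obtain ⟨j₀, hj₀⟩ := Filter.eventually_atTop.mp h6
  refine ⟨j₀, fun j hj => ?_⟩
  obtain ⟨⟨h7, h8⟩, h9, h10, h11⟩ := hj₀ j hj
  refine ⟨by positivity, h9, ?_, h10, h7⟩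
  rw [add_zero] at h8
  have h12 : Real.sqrt (C * ρ ^ j) * 1 ≤ Real.sqrt (C * ρ ^ j) * j :=
    mul_le_mul_of_nonneg_left h11 (Real.sqrt_nonneg _)
  linarith

end Pool.Agent.Work.MP_b29d7f_nt.FF
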