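import Pool.Agent.Work.MP_b29d7f_nt.Ded.Defs

/-!
# The classification of rings and dense sets with simultaneous orderings: definitions
-/

namespace Pool.Agent.Work.MP_b29d7f_nt.FF

open Polynomial
open Pool.Agent.Work.MP_b29d7f_nt.Ded

universe u

/-- `R` is isomorphic to `k[X][1/g]`, for a finite field `k` and a nonzero polynomial `g` -/
def IsAwayPoly (R : Type u) [CommRing R] : Prop :=
  ∃ (k : Type u) (_ : Field k) (_ : Finite k) (g : k[X]) (f : k[X] →+* R),
    g ≠ 0 ∧ @IsLocalization.Away k[X] _ g R _ f.toAlgebra

/-- `S` contains a set `b + c f(k[X])`, where `k` is a finite field, `f : k[X] → R` is a ring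
homomorphism inducing an isomorphism of `k[X][1/g]` and `R` for some nonzero `g`, and `c` generates
the ideal `I` -/
def ContainsPolyCoset {R : Type u} [CommRing R] (S : Set R) (I : Ideal R) : Prop :=
  ∃ (k : Type u) (_ : Field k) (_ : Finite k) (g : k[X]) (f : k[X] →+* R),
    g ≠ 0 ∧ @IsLocalization.Away k[X] _ g R _ f.toAlgebra ∧
      ∃ b c : R, I = Ideal.span {c} ∧ ∀ h : k[X], b + c * f h ∈ S

/-- The classification: `R` itself has a simultaneous ordering if and only if it is isomorphic to
`k[X][1/g]` for a finite field `k` and a nonzero polynomial `g`, and a dense subset `S` of a coset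
`b + I` of a nonzero ideal has one if and only if `ContainsPolyCoset S I`. -/
def Classified (R : Type u) [CommRing R] : Prop :=
  (HasSimultaneousOrdering (Set.univ : Set R) ↔ IsAwayPoly R) ∧
  ∀ (S : Set R) (b : R) (I : Ideal R), I ≠ ⊥ → DenseInCoset S b I →
    (HasSimultaneousOrdering S ↔ ContainsPolyCoset S I)

end Pool.Agent.Work.MP_b29d7f_nt.FF
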