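import Pool.Agent.Work.MP_b29d7f_nt.FF.Interface
import Pool.Agent.Work.MP_b29d7f_nt.Ded.Place

/-!
# Block CONV: localizations of `k[X]` have simultaneous orderings of all cosets
-/

set_option linter.unusedSectionVars false

namespace Pool.Agent.Work.MP_b29d7f_nt.FF

open Finset Polynomial
open Pool.Agent.Work.MP_b29d7f_nt.Ded

universe u

theorem stmt_Conv : Stmt_Conv.{u} := by
  classical
  intro R _ _ _ _ hloc b I
  obtain ⟨k, _, _, M, f, hM, hfM⟩ := hloc
  by_cases hI : I = ⊥
  · refine ⟨fun _ => b, fun p _ _ => ⟨fun _ => ?_, fun n s hs => ?_⟩⟩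
    · rw [Set.mem_ofPred_eq, sub_self]; exact zero_mem _
    · rw [Set.mem_ofPred_eq, hI, Ideal.mem_bot, sub_eq_zero] at hs
      rw [hs]
  let _ : Algebra k[X] R := f.toAlgebra
  have hloc : IsLocalization M R := hfM
  have hf : ∀ a : k[X], algebraMap k[X] R a = f a := fun _ => rfl
  have hinj : Function.Injective f := IsLocalization.injective R hM
  have hAq : Ring.HasFiniteQuotients k[X] := hasFiniteQuotients_poly k
  -- principal ideals
  obtain ⟨c, hc⟩ : ∃ c, I = Ideal.span {c} := by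
    have h1 : Ideal.map (algebraMap k[X] R) (Ideal.under k[X] I) = I := IsLocalization.map_under M R I
    obtain ⟨g, hg⟩ := (IsPrincipalIdealRing.principal (Ideal.under k[X] I)).principal
    refine ⟨f g, ?_⟩
    rw [← h1, hg]
    change Ideal.map (algebraMap k[X] R) (Ideal.span {g}) = _
    rw [Ideal.map_span, Set.image_singleton]
    rfl
  rw [hc]
  obtain ⟨α, hα⟩ := ordering_of_equiv (RingEquiv.refl k[X])
  refine coset_ordering (α := fun n => f (α n)) (fun P hP hP0 => ?_) b c
  set p : Ideal k[X] := Ideal.under k[X] P with hp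
  have hpP : Ideal.map (algebraMap k[X] R) p = P := IsLocalization.map_under M R P
  have hpprime : p.IsPrime := hP.under k[X]
  have hp0 : p ≠ ⊥ := by
    intro h
    apply hP0
    rw [← hpP, h, Ideal.map_bot]
  have hpmax : p.IsMaximal := Ring.HasFiniteQuotients.maximalOfPrime hp0
  have hmem : ∀ x : k[X], x ∈ p ↔ f x ∈ P := fun x => Iff.rfl
  -- units modulo powers of `p`
  have hunit : ∀ m ∈ M, ∀ n : ℕ, ∃ m' : k[X], m * m' - 1 ∈ p ^ n := by
    intro m hm n
    have hmp : m ∉ p := by
      intro h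
      rw [hmem] at h
      have h1 : IsUnit (f m) := IsLocalization.map_units R (⟨m, hm⟩ : M)
      exact hP.ne_top (Ideal.eq_top_of_isUnit_mem _ h h1)
    have h1 : IsCoprime (Ideal.span {m}) p := by
      rw [Ideal.isCoprime_iff_sup_eq]
      refine hpmax.out.2 _ (lt_of_le_of_ne le_sup_right fun h => hmp ?_)
      have h2 : m ∈ Ideal.span {m} ⊔ p := Ideal.mem_sup_left (Ideal.mem_span_singleton_self m)
      rwa [← h] at h2
    have h2 : IsCoprime (Ideal.span {m}) (p ^ n) := h1.pow_right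
    rw [Ideal.isCoprime_iff_exists] at h2
    obtain ⟨i, hi, j, hj, hij⟩ := h2
    obtain ⟨m', rfl⟩ := Ideal.mem_span_singleton.mp hi
    refine ⟨m', ?_⟩
    have : m * m' - 1 = -j := by rw [← hij]; ring
    rw [this]
    exact (p ^ n).neg_mem hj
  have hPn : ∀ n, Ideal.map (algebraMap k[X] R) (p ^ n) = P ^ n := fun n => by
    rw [Ideal.map_pow, hpP]
  have hmemn : ∀ (n : ℕ) (x : k[X]), f x ∈ P ^ n ↔ x ∈ p ^ n := by
    intro n x
    constructor
    · intro h
      rw [← hPn n, IsLocalization.mem_map_algebraMap_iff M R] at h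
      obtain ⟨⟨⟨a, ha⟩, ⟨m, hm⟩⟩, h⟩ := h
      have h1 : x * m = a := by
        apply hinj
        rw [map_mul]
        exact h
      obtain ⟨m', hm'⟩ := hunit m hm n
      have h2 : x = a * m' - x * (m * m' - 1) := by rw [← h1]; ring
      rw [h2]
      exact (p ^ n).sub_mem (Ideal.mul_mem_right _ _ ha) (Ideal.mul_mem_left _ _ hm')
    · intro h
      rw [← hPn n]
      exact Ideal.mem_map_of_mem _ h
  refine ⟨fun _ => Set.mem_univ _, fun n s _ => ?_⟩
  rw [val_le_val_iff]
  intro N hN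
  -- approximate `s` by an element of `k[X]`
  obtain ⟨y, hy⟩ : ∃ y : k[X], s - f y ∈ P ^ N := by
    obtain ⟨⟨a, ⟨m, hm⟩⟩, h⟩ := IsLocalization.surj M s
    obtain ⟨m', hm'⟩ := hunit m hm N
    refine ⟨a * m', ?_⟩
    have h1 : s * f m = f a := h
    have h2 : s - f (a * m') = s * -(f (m * m' - 1)) := by
      rw [map_mul, ← h1, map_sub, map_mul, map_one]; ring
    rw [h2]
    exact Ideal.mul_mem_left _ _ ((P ^ N).neg_mem ((hmemn N _).mpr hm'))
  have h1 := prod_sub_mem (n := n) (a := fun i => f (α i)) hy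
  have h2 : ∏ i ∈ range n, (f y - f (α i)) ∈ P ^ N := by
    have h3 : ∏ i ∈ range n, (f (α n) - f (α i)) = f (∏ i ∈ range n, (α n - α i)) := by
      rw [map_prod]
      exact Finset.prod_congr rfl fun i _ => (map_sub _ _ _).symm
    have h4 : ∏ i ∈ range n, (f y - f (α i)) = f (∏ i ∈ range n, (y - α i)) := by
      rw [map_prod]
      exact Finset.prod_congr rfl fun i _ => (map_sub _ _ _).symm
    rw [h3, hmemn] at hN
    rw [h4, hmemn]
    exact (val_le_val_iff.mp ((hα p hpprime hp0).2 n y (Set.mem_univ _))) N hN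
  have h3 := (P ^ N).add_mem h1 h2
  rwa [sub_add_cancel] at h3

end Pool.Agent.Work.MP_b29d7f_nt.FF
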