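import Pool.Agent.Work.MP_b29d7f_nt.Ded.Main

/-!
# Simultaneous orderings of rings of functions with several places at infinity: definitions

`Pack R S` is the list of the facts about a ring `R` of `S`-integers of a global function field
which the proof uses (`S`: the finite set of the places at infinity).
-/

set_option linter.unusedSectionVars false

namespace Pool.Agent.Work.MP_b29d7f_nt.FF

open Finset Polynomial
open Pool.Agent.Work.MP_b29d7f_nt.Ded

universe u

/-- `R` is a localization of a polynomial ring `k[X]` over a finite field `k` -/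
def IsLocPoly (R : Type u) [CommRing R] : Prop :=
  ∃ (k : Type u) (_ : Field k) (_ : Finite k) (M : Submonoid k[X]) (f : k[X] →+* R),
    M ≤ nonZeroDivisors k[X] ∧ @IsLocalization k[X] _ M R _ f.toAlgebra

/-- arithmetic data of a ring `R` of functions on a curve over a finite field with `q` elements,
regular outside the finite set `S` of places. `d v` is the degree of `v`, `lev v x` the order of the
pole of `x` at `v` (for `x ≠ 0`; negative for a zero), `dg I = log_q |R / I|`, and `χ` is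
`1 - genus`. -/
structure Pack (R : Type u) [CommRing R] (S : Type u) [Fintype S] where
  q : ℕ
  χ : ℤ
  c₀ : ℕ
  d : S → ℕ
  lev : S → R → ℤ
  dg : Ideal R → ℕ
  two_le_q : 2 ≤ q
  one_le_c₀ : 1 ≤ c₀
  one_le_d : ∀ v, 1 ≤ d v
  card_quot : ∀ I : Ideal R, I ≠ ⊥ → Nat.card (R ⧸ I) = q ^ dg I
  finite_ideals : ∀ D : ℕ, {I : Ideal R | I ≠ ⊥ ∧ dg I ≤ D}.Finite
  lev_mul : ∀ v (x y : R), x ≠ 0 → y ≠ 0 → lev v (x * y) = lev v x + lev v y
  lev_add : ∀ v (x y : R), x ≠ 0 → y ≠ 0 → x + y ≠ 0 → lev v (x + y) ≤ max (lev v x) (lev v y)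
  /-- the product formula -/
  dg_span : ∀ x : R, x ≠ 0 → (dg (Ideal.span {x}) : ℤ) = ∑ v, (d v : ℤ) * lev v x
  finite_box : ∀ m : S → ℤ, {x : R | ∀ v, x = 0 ∨ lev v x ≤ m v}.Finite
  /-- Riemann's inequality -/
  card_ge : ∀ I : Ideal R, I ≠ ⊥ → ∀ m : S → ℤ,
    (q : ℝ) ^ ((∑ v, (d v : ℤ) * m v) - dg I + χ) ≤
      (Nat.card {x : R // x ∈ I ∧ ∀ v, x = 0 ∨ lev v x ≤ m v} : ℝ)
  /-- Riemann-Roch for large degree, with prescribed principal parts at the places of `S` -/
  card_eq : ∀ I : Ideal R, I ≠ ⊥ → ∀ m : S → ℤ, (c₀ : ℤ) ≤ (∑ v, (d v : ℤ) * m v) - dg I →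
    ∀ y : S → R,
      (Nat.card {x : R // x ∈ I ∧ ∀ v, x = y v ∨ lev v (x - y v) ≤ m v} : ℝ) =
        (q : ℝ) ^ ((∑ v, (d v : ℤ) * m v) - dg I + χ)
  card_const : Nat.card {x : R // ∀ v, x = 0 ∨ lev v x ≤ 0} = q

namespace Pack

variable {R : Type u} [CommRing R] {S : Type u} [Fintype S] (P : Pack R S)

/-- the degree of a divisor supported on `S` -/
def deg (m : S → ℤ) : ℤ := ∑ v, (P.d v : ℤ) * m v

/-- `x` and `y` lie in the same `v`-ball of level `l` -/
def Near (v : S) (l : ℤ) (x y : R) : Prop := x = y ∨ P.lev v (x - y) ≤ l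

open scoped Classical in
/-- `log_q N(x - y)` (`0` on the diagonal) -/
noncomputable def ln (x y : R) : ℝ := if x = y then 0 else (P.dg (Ideal.span {x - y}) : ℝ)

open scoped Classical in
/-- the capped kernel at `v` -/
noncomputable def cap (v : S) (l : ℤ) (x y : R) : ℝ :=
  (P.d v : ℝ) * ((if x = y then l else max (P.lev v (x - y)) l : ℤ) : ℝ)

/-- the capped kernel -/
noncomputable def kap (m : S → ℤ) (x y : R) : ℝ := ∑ v, P.cap v (m v) x y

/-- the difference of the capped kernel and of `log_q N(x - y)`; on the diagonal it is `deg m` -/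
noncomputable def gap (m : S → ℤ) (x y : R) : ℝ := P.kap m x y - P.ln x y

/-- logarithm to base `q` -/
noncomputable def lg (x : ℝ) : ℝ := Real.logb P.q x

/-- `∑_v d_v / (q_v - 1)` -/
noncomputable def cc : ℝ := ∑ v, (P.d v : ℝ) / ((P.q : ℝ) ^ P.d v - 1)

open scoped Classical in
/-- the nonzero primes of degree at most `i` -/
noncomputable def primes (i : ℕ) : Finset (Ideal R) :=
  ((P.finite_ideals i).toFinset).filter fun p => p.IsPrime

/-- `N_i = ∑_{deg p ∣ i} deg p` -/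
noncomputable def Nn (i : ℕ) : ℕ := ∑ p ∈ (P.primes i).filter (fun p => P.dg p ∣ i), P.dg p

/-- `K₀(j) = ∑_{i ≤ j} N_i` -/
noncomputable def K0 (j : ℕ) : ℝ := ∑ i ∈ Icc 1 j, (P.Nn i : ℝ)

/-- `P_j = ∑_{i ≤ j} N_i (q^{j-i} - 1)`: the potential of an optimal set with `q^j` elements -/
noncomputable def pot (j : ℕ) : ℝ := ∑ i ∈ Icc 1 j, (P.Nn i : ℝ) * ((P.q : ℝ) ^ (j - i) - 1)

open scoped Classical in
/-- optimal sets with `q^j` elements: as equidistributed as possible modulo all prime powers -/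
structure Opt (j : ℕ) (A : Finset R) : Prop where
  card : A.card = P.q ^ j
  eq : ∀ p : Ideal R, p.IsPrime → p ≠ ⊥ → ∀ k, 1 ≤ k → k * P.dg p ≤ j → ∀ x : R,
    (A.filter fun b => x - b ∈ p ^ k).card = P.q ^ (j - k * P.dg p)
  le : ∀ p : Ideal R, p.IsPrime → p ≠ ⊥ → ∀ k, 1 ≤ k → j ≤ k * P.dg p → ∀ x : R,
    (A.filter fun b => x - b ∈ p ^ k).card ≤ 1

/-- `M` consists of elements in different `v`-balls of level `l` -/
def Sep (v : S) (l : ℤ) (M : Finset R) : Prop := ∀ c ∈ M, ∀ c' ∈ M, P.Near v l c c' → c = c'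

/-- all `v`-cells of `y` at level `m` are among those of `M` -/
def InCells (m : S → ℤ) (M : S → Finset R) (y : R) : Prop := ∀ v, ∃ c ∈ M v, P.Near v (m v) y c

open scoped Classical in
/-- up to `η q^j` elements, `A` is a product of sets of cells at level `m` -/
def HasCells (j : ℕ) (A : Finset R) (m : S → ℤ) (η : ℝ) : Prop :=
  ∃ M : S → Finset R, (∀ v, P.Sep v (m v) (M v)) ∧ (∀ y, P.InCells m M y → y ∈ A) ∧
    (1 - η) * (P.q : ℝ) ^ j ≤ ((A.filter fun y => P.InCells m M y).card : ℝ) ∧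
    ∃ x ∈ A, P.InCells m M x ∧ ∑ b ∈ A, P.gap m x b ≤ η * (P.q : ℝ) ^ j

end Pack

end Pool.Agent.Work.MP_b29d7f_nt.FF
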