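import Pool.Agent.Work.MP_b29d7f_nt.FF.ClassDefs
import Pool.Agent.Work.MP_b29d7f_nt.FF.Loc3
import Pool.Agent.Work.MP_b29d7f_nt.FF.Opt
import Pool.Agent.Work.MP_b29d7f_nt.Ded.Place

/-!
# Final assembly
-/

set_option linter.unusedSectionVars false

namespace Pool.Agent.Work.MP_b29d7f_nt.FF

open Finset Polynomial FunctionField
open Pool.Agent.Work.MP_b29d7f_nt.Ded

universe u w

theorem powers_le {k : Type u} [Field k] {g : k[X]} (hg : g ≠ 0) :
    Submonoid.powers g ≤ nonZeroDivisors k[X] := by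
  rintro _ ⟨n, rfl⟩
  rw [mem_nonZeroDivisors_iff_ne_zero]
  exact pow_ne_zero n hg

/-- it is enough to treat orderings of the whole ring -/
theorem classified_of_univ {R : Type u} [CommRing R] [IsDedekindDomain R]
    [Ring.HasFiniteQuotients R] [Infinite R] (hnf : ¬ IsField R) (hConv : Stmt_Conv2.{u})
    (h : ∀ α : ℕ → R, (∀ p : Ideal R, p.IsPrime → p ≠ ⊥ → IsPOrdering Set.univ p α) →
      ContainsPolyCoset (Set.range α) ⊤) : Classified R := by
  obtain ⟨p₀, hp₀0, hp₀⟩ := Ring.not_isField_iff_exists_prime.mp hnf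
  refine ⟨⟨?_, ?_⟩, fun S b I hI hd => ⟨?_, ?_⟩⟩
  · rintro ⟨α, hα⟩
    obtain ⟨k, hk, hkf, g, f, hg, hf, -⟩ := h α hα
    exact ⟨k, hk, hkf, g, f, hg, hf⟩
  · rintro ⟨k, hk, hkf, g, f, hg, hf⟩
    obtain ⟨α, hα⟩ := hConv R k _ f (powers_le hg) hf
    exact ⟨_, hα⟩
  · rintro ⟨a, ha⟩
    obtain ⟨c, hIc, α, haα, hα⟩ := reduce hI hd.1 hd.2 ⟨p₀, hp₀, hp₀0⟩ ha
    obtain ⟨k, hk, hkf, g₀, f, hM, hf, b', u, hu, hS⟩ := h α hα
    refine ⟨k, hk, hkf, g₀, f, hM, hf, a 0 + c * b', c * u, ?_, fun g => ?_⟩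
    · have h1 : IsUnit u := Ideal.span_singleton_eq_top.mp hu.symm
      rw [hIc]
      exact (Ideal.span_singleton_mul_right_unit h1 c).symm
    · obtain ⟨n, hn⟩ := hS g
      have h1 : a 0 + c * b' + c * u * f g = a n := by
        rw [haα n, hn]; ring
      rw [h1]
      exact (ha p₀ hp₀ hp₀0).1 n
  · rintro ⟨k, hk, hkf, g, f, hg, hf, b', c, hIc, hS⟩
    obtain ⟨α, hα⟩ := hConv R k _ f (powers_le hg) hf
    have hb' : b' - b ∈ I := by
      have h1 := hd.1 _ (hS 0)
      rwa [map_zero, mul_zero, add_zero] at h1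
    refine ⟨fun n => b' + c * f (α n), fun p hp h0 => ⟨fun n => hS (α n), fun n s hs => ?_⟩⟩
    have h1 : s - b' ∈ Ideal.span {c} := by
      rw [← hIc]
      have h2 := I.sub_mem (hd.1 s hs) hb'
      rwa [sub_sub_sub_cancel_right] at h2
    rw [Ideal.mem_span_singleton] at h1
    obtain ⟨t, ht⟩ := h1
    have h3 : ∀ y : R, ∏ i ∈ range n, (b' + c * y - (b' + c * f (α i))) =
        c ^ n * ∏ i ∈ range n, (y - f (α i)) := by
      intro y
      have h2 : ∀ i ∈ range n, b' + c * y - (b' + c * f (α i)) = c * (y - f (α i)) :=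
        fun i _ => by ring
      rw [Finset.prod_congr rfl h2, Finset.prod_mul_distrib, Finset.prod_const, Finset.card_range]
    have hs' : s = b' + c * t := by rw [← ht]; ring
    simp only
    rw [hs', h3, h3, val_mul hp h0, val_mul hp h0]
    exact add_le_add le_rfl ((hα p hp h0).2 n t (Set.mem_univ t))

/-- rings with a pack -/
theorem classified_of_pack (hOne : Stmt_One.{u}) (hChain : Stmt_Chain.{u}) (hLoc : Stmt_Loc3.{u})
    (hConv : Stmt_Conv2.{u}) {R : Type u} [CommRing R] [IsDedekindDomain R]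
    [Ring.HasFiniteQuotients R] [Infinite R] (hnf : ¬ IsField R) {S : Type u} [Fintype S]
    [Nonempty S] (P : Pack R S) : Classified R := by
  classical
  obtain ⟨p₀, hp₀0, hp₀⟩ := Ring.not_isField_iff_exists_prime.mp hnf
  refine classified_of_univ hnf hConv fun α hα => ?_
  have hinj : Function.Injective α := ordering_injective hp₀ hp₀0 (hα p₀ hp₀ hp₀0)
  set A : ℕ → Finset R := fun j => (range (P.q ^ j)).image α with hA
  have hA1 : ∀ j, P.Opt j (A j) := fun j => by
    have h := opt_of_ordering P hinj hα j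
    convert h
  have hA2 : ∀ j, A j ⊆ A (j + 1) := fun j => by
    refine Finset.image_subset_image (Finset.range_subset_range.mpr ?_)
    exact Nat.pow_le_pow_right (by have := P.two_le_q; omega) (Nat.le_succ j)
  obtain ⟨hχ, -⟩ := hOne R S P A hA1 hA2
  obtain ⟨v, hv, l, hl⟩ := hChain R S P A hA1 hA2
  obtain ⟨k, hk, hkf, g₀, f, hM, hf, u, hu, hug⟩ := hLoc R S P v hχ hv l
  refine ⟨k, hk, hkf, g₀, f, hM, hf, α 0, u, (Ideal.span_singleton_eq_top.mpr hu).symm,
    fun g => ?_⟩
  have h0 : α 0 ∈ A 0 := by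
    rw [hA]
    simp
  obtain ⟨j, hj⟩ := hl (α 0) h0 (α 0 + u * f g) fun w hw => by
    have h1 := hug g w hw
    have h2 := (Pack.near_add_right (P := P) (z := α 0)).mpr h1
    rw [zero_add] at h2
    have h3 := Pack.near_symm h2
    rwa [add_comm] at h3
  rw [hA] at hj
  obtain ⟨n, -, hn⟩ := Finset.mem_image.mp hj
  exact ⟨n, hn⟩

/-! ### transport -/

section transport

variable {R R' : Type u} [CommRing R] [CommRing R']

theorem isDedekindDomain_of_equiv [IsDedekindDomain R'] (e : R ≃+* R') : IsDedekindDomain R := by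
  have hdom : IsDomain R := e.toMulEquiv.isDomain R'
  have hnoe : IsNoetherianRing R := isNoetherianRing_of_ringEquiv R' e.symm
  have hic : IsIntegrallyClosed R := IsIntegrallyClosed.of_equiv e.symm
  have hdim : Ring.DimensionLEOne R := by
    refine ⟨fun {p} hp0 hp => ?_⟩
    have h1 : (p.comap (e.symm : R' →+* R)) ≠ ⊥ := by
      intro h
      apply hp0
      rw [eq_bot_iff]
      intro x hx
      have h2 : e x ∈ p.comap (e.symm : R' →+* R) := by
        rw [Ideal.mem_comap]
        simpa using hx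
      rw [h, Ideal.mem_bot] at h2
      rw [Ideal.mem_bot]
      exact (map_eq_zero_iff e e.injective).mp h2
    have h2 : (p.comap (e.symm : R' →+* R)).IsMaximal :=
      Ring.DimensionLEOne.maximalOfPrime h1 (Ideal.IsPrime.comap _)
    have h3 : p = (p.comap (e.symm : R' →+* R)).comap (e : R →+* R') := by
      ext x
      simp
    rw [h3]
    exact Ideal.comap_isMaximal_of_surjective (e : R →+* R') e.surjective
  exact {}

theorem loc_of_equiv (e : R ≃+* R') {k : Type u} [Field k] {M : Submonoid k[X]} {f : k[X] →+* R'}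
    (hf : @IsLocalization k[X] _ M R' _ f.toAlgebra) :
    @IsLocalization k[X] _ M R _ ((e.symm : R' →+* R).comp f).toAlgebra := by
  let _ : Algebra k[X] R' := f.toAlgebra
  let _ : Algebra k[X] R := ((e.symm : R' →+* R).comp f).toAlgebra
  have hloc : IsLocalization M R' := hf
  let φ : R' ≃ₐ[k[X]] R := { e.symm with commutes' := fun _ => rfl }
  exact IsLocalization.isLocalization_of_algEquiv M φ

theorem isAwayPoly_of_equiv (e : R ≃+* R') (h : IsAwayPoly R') : IsAwayPoly R := by
  obtain ⟨k, hk, hkf, g, f, hg, hf⟩ := h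
  exact ⟨k, hk, hkf, g, _, hg, loc_of_equiv e hf⟩

theorem containsPolyCoset_of_equiv (e : R ≃+* R') {T : Set R} {I : Ideal R}
    (h : ContainsPolyCoset (e '' T) (I.map (e : R →+* R'))) : ContainsPolyCoset T I := by
  obtain ⟨k, hk, hkf, g₀, f, hM, hf, b, c, hI, hT⟩ := h
  refine ⟨k, hk, hkf, g₀, _, hM, loc_of_equiv e hf, e.symm b, e.symm c, ?_, fun g => ?_⟩
  · have h1 : I = (I.map (e : R →+* R')).map (e.symm : R' →+* R) := by
      rw [Ideal.map_map]
      have : (e.symm : R' →+* R).comp (e : R →+* R') = RingHom.id R := by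
        ext x; simp
      rw [this, Ideal.map_id]
    rw [h1, hI, Ideal.map_span, Set.image_singleton]
    rfl
  · obtain ⟨t, ht, hte⟩ := hT g
    have h1 : e.symm b + e.symm c * ((e.symm : R' →+* R).comp f) g = t := by
      apply e.injective
      rw [hte, map_add, map_mul]
      simp
    rw [h1]
    exact ht

variable [IsDedekindDomain R] [IsDedekindDomain R']

theorem mem_map_equiv (e : R ≃+* R') (J : Ideal R) (x : R) :
    e x ∈ J.map (e : R →+* R') ↔ x ∈ J := by
  constructor
  · intro h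
    obtain ⟨y, hy, hyx⟩ := (Ideal.mem_map_iff_of_surjective (e : R →+* R') e.surjective).mp h
    have : y = x := e.injective hyx
    rwa [← this]
  · intro h
    exact Ideal.mem_map_of_mem (e : R →+* R') h

theorem val_equiv (e : R ≃+* R') (p : Ideal R) (x y : R) :
    val p x ≤ val p y ↔
      val (p.map (e : R →+* R')) (e x) ≤ val (p.map (e : R →+* R')) (e y) := by
  rw [val_le_val_iff, val_le_val_iff]
  simp_rw [← Ideal.map_pow, mem_map_equiv]

theorem hso_equiv (e : R ≃+* R') {T : Set R} (h : HasSimultaneousOrdering T) :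
    HasSimultaneousOrdering (e '' T) := by
  obtain ⟨a, ha⟩ := h
  refine ⟨fun n => e (a n), fun P hP hP0 => ?_⟩
  set p : Ideal R := P.comap (e : R →+* R') with hp
  have hpP : p.map (e : R →+* R') = P :=
    Ideal.map_comap_of_surjective (e : R →+* R') e.surjective P
  have hp0 : p ≠ ⊥ := by
    intro h0
    apply hP0
    rw [← hpP, h0, Ideal.map_bot]
  have hprime : p.IsPrime := Ideal.IsPrime.comap _
  obtain ⟨h1, h2⟩ := ha p hprime hp0
  refine ⟨fun k => ⟨a k, h1 k, rfl⟩, ?_⟩
  rintro k _ ⟨s, hs, rfl⟩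
  have h3 : ∀ x : R, ∏ i ∈ range k, (e x - e (a i)) = e (∏ i ∈ range k, (x - a i)) := by
    intro x
    rw [map_prod]
    simp_rw [map_sub]
  simp only
  rw [h3, h3, ← hpP, ← val_equiv]
  exact h2 k s hs

theorem hso_equiv_iff (e : R ≃+* R') {T : Set R} {T' : Set R'} (hT : e '' T = T') :
    HasSimultaneousOrdering T ↔ HasSimultaneousOrdering T' := by
  constructor
  · intro h
    rw [← hT]
    exact hso_equiv e h
  · intro h
    have h1 := hso_equiv e.symm h
    have h2 : e.symm '' T' = T := by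
      rw [← hT, ← Set.image_comp]
      have : (e.symm : R' → R) ∘ (e : R → R') = id := by
        funext x; simp
      rw [this, Set.image_id]
    rwa [h2] at h1

theorem map_ne_bot (e : R ≃+* R') {I : Ideal R} (hI : I ≠ ⊥) : I.map (e : R →+* R') ≠ ⊥ := by
  intro h
  apply hI
  rw [eq_bot_iff]
  intro x hx
  have h1 := (mem_map_equiv e I x).mpr hx
  rw [h, Ideal.mem_bot] at h1
  exact (map_eq_zero_iff e e.injective).mp h1

theorem dense_equiv (e : R ≃+* R') {T : Set R} {b : R} {I : Ideal R} (h : DenseInCoset T b I) :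
    DenseInCoset (e '' T) (e b) (I.map (e : R →+* R')) := by
  refine ⟨?_, fun P hP hP0 x hx n => ?_⟩
  · rintro _ ⟨s, hs, rfl⟩
    rw [← map_sub, mem_map_equiv]
    exact h.1 s hs
  · obtain ⟨y, rfl⟩ := e.surjective x
    rw [← map_sub, mem_map_equiv] at hx
    set p : Ideal R := P.comap (e : R →+* R') with hp
    have hpP : p.map (e : R →+* R') = P :=
      Ideal.map_comap_of_surjective (e : R →+* R') e.surjective P
    have hp0 : p ≠ ⊥ := by
      intro h0
      apply hP0
      rw [← hpP, h0, Ideal.map_bot]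
    obtain ⟨s, hs, hsn⟩ := h.2 p (Ideal.IsPrime.comap _) hp0 y hx n
    refine ⟨e s, ⟨s, hs, rfl⟩, ?_⟩
    rw [← hpP, ← Ideal.map_pow, ← map_sub, mem_map_equiv]
    exact hsn

theorem classified_of_equiv (e : R ≃+* R') (h : Classified R') : Classified R := by
  have hl : IsAwayPoly R ↔ IsAwayPoly R' := ⟨isAwayPoly_of_equiv e.symm, isAwayPoly_of_equiv e⟩
  refine ⟨?_, fun T b I hI hd => ?_⟩
  · rw [hl, ← h.1]
    exact hso_equiv_iff e (Set.image_univ_of_surjective e.surjective)
  · have h1 := h.2 (e '' T) (e b) (I.map (e : R →+* R')) (map_ne_bot e hI) (dense_equiv e hd)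
    rw [hso_equiv_iff e rfl, h1]
    refine ⟨containsPolyCoset_of_equiv e, fun h2 => ?_⟩
    refine containsPolyCoset_of_equiv e.symm ?_
    have h3 : e.symm '' (e '' T) = T := by
      rw [← Set.image_comp]
      have : (e.symm : R' → R) ∘ (e : R → R') = id := by
        funext x; simp
      rw [this, Set.image_id]
    have h4 : (I.map (e : R →+* R')).map (e.symm : R' →+* R) = I := by
      rw [Ideal.map_map]
      have : (e.symm : R' →+* R).comp (e : R →+* R') = RingHom.id R := by
        ext x; simp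
      rw [this, Ideal.map_id]
    rw [h3, h4]
    exact h2

end transport

/-- assembly of the blocks -/
theorem final (hOne : Stmt_One.{u}) (hChain : Stmt_Chain.{u}) (hLoc : Stmt_Loc3.{u})
    (hConv : Stmt_Conv2.{u}) (hPack : Stmt_FFPack.{u, w}) (hInsep : Stmt_Insep.{u, w})
    (Fq : Type w) [Field Fq] [Finite Fq] (K : Type u) [Field K]
    [Algebra Fq[X] K] [Algebra (RatFunc Fq) K] [IsScalarTower Fq[X] (RatFunc Fq) K]
    [FunctionField Fq K] : Classified (ringOfIntegers Fq K) := by
  obtain ⟨K', _, _, _, _, _, _, ⟨e⟩⟩ := hInsep Fq K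
  have hq := hasFiniteQuotients_ringOfIntegers Fq K'
  have hnf : ¬ IsField (ringOfIntegers Fq K') := ringOfIntegers.not_isField Fq K'
  have hinf : Infinite (ringOfIntegers Fq K') := infinite_of_not_isField hnf
  have hded : IsDedekindDomain (ringOfIntegers Fq K) := isDedekindDomain_of_equiv e
  obtain ⟨S, _, _, ⟨P⟩⟩ := hPack Fq K'
  exact classified_of_equiv e (classified_of_pack hOne hChain hLoc hConv hnf P)

end Pool.Agent.Work.MP_b29d7f_nt.FF
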