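import Pool.Agent.Work.MP_b29d7f_nt.FF.Interface

/-!
# Block INSEP, part a: if `K / F_q(t)` is inseparable then `t` is a `p`-th power in `K`
-/

set_option linter.unusedSectionVars false

namespace Pool.Agent.Work.MP_b29d7f_nt.FF

open Finset Polynomial

universe u w

section

variable {Fq : Type w} [Field Fq] [Finite Fq] (p : ℕ) [Fact p.Prime] [CharP Fq p]

/-- the span of `1, t, ..., t^{p-1}` over the field of `p`-th powers is everything if `E / F_q(t)` is
separable -/
theorem span_pow_t {E : Type u} [Field E] [Algebra (RatFunc Fq) E] [CharP E p]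
    [Algebra.IsSeparable (RatFunc Fq) E] :
    Submodule.span (frobenius E p).fieldRange
      (Set.range fun i : Fin p => (algebraMap (RatFunc Fq) E RatFunc.X) ^ (i : ℕ)) = ⊤ := by
  classical
  set k₀ := (frobenius E p).fieldRange with hk₀
  set t := algebraMap (RatFunc Fq) E RatFunc.X with ht
  set W := Submodule.span k₀ (Set.range fun i : Fin p => t ^ (i : ℕ)) with hW
  have hp : 0 < p := (Fact.out : p.Prime).pos
  have hpow : ∀ e : E, e ^ p ∈ k₀ := fun e => ⟨e, rfl⟩
  have hmul : ∀ (e x : E), x ∈ W → e ^ p * x ∈ W := by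
    intro e x hx
    have := W.smul_mem (⟨e ^ p, hpow e⟩ : k₀) hx
    exact this
  have htW : ∀ i < p, t ^ i ∈ W := fun i hi => Submodule.subset_span ⟨⟨i, hi⟩, rfl⟩
  -- polynomials
  have hmono : ∀ (c : Fq) (n : ℕ), algebraMap (RatFunc Fq) E
      (algebraMap Fq[X] (RatFunc Fq) (C c * X ^ n)) ∈ W := by
    intro c n
    obtain ⟨c', hc'⟩ : ∃ c', c' ^ p = c := by
      obtain ⟨c', hc'⟩ := (bijective_frobenius Fq p).2 c
      exact ⟨c', hc'⟩
    have h1 : algebraMap (RatFunc Fq) E (algebraMap Fq[X] (RatFunc Fq) (C c * X ^ n)) =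
        (algebraMap (RatFunc Fq) E (algebraMap Fq[X] (RatFunc Fq) (C c')) * t ^ (n / p)) ^ p *
          t ^ (n % p) := by
      rw [← hc', C_pow]
      simp only [map_mul, map_pow, RatFunc.algebraMap_X]
      rw [← ht, mul_pow, ← pow_mul, mul_assoc, ← pow_add, mul_comm (n / p) p, Nat.div_add_mod]
    rw [h1]
    exact hmul _ _ (htW _ (Nat.mod_lt _ hp))
  have hpoly : ∀ r : Fq[X], algebraMap (RatFunc Fq) E (algebraMap Fq[X] (RatFunc Fq) r) ∈ W := by
    intro r
    induction r using Polynomial.induction_on' with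
    | add a b ha hb =>
      rw [map_add, map_add]; exact W.add_mem ha hb
    | monomial n c =>
      rw [← C_mul_X_pow_eq_monomial]; exact hmono c n
  have hrat : ∀ f : RatFunc Fq, algebraMap (RatFunc Fq) E f ∈ W := by
    intro f
    obtain ⟨r, s, hs, rfl⟩ := IsFractionRing.div_surjective (A := Fq[X]) f
    have hs0 : algebraMap (RatFunc Fq) E (algebraMap Fq[X] (RatFunc Fq) s) ≠ 0 := by
      rw [Ne, map_eq_zero, IsFractionRing.to_map_eq_zero_iff]
      exact nonZeroDivisors.ne_zero hs
    have h1 : algebraMap (RatFunc Fq) E (algebraMap Fq[X] (RatFunc Fq) r /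
        algebraMap Fq[X] (RatFunc Fq) s) =
        ((algebraMap (RatFunc Fq) E (algebraMap Fq[X] (RatFunc Fq) s))⁻¹) ^ p *
          algebraMap (RatFunc Fq) E (algebraMap Fq[X] (RatFunc Fq) (r * s ^ (p - 1))) := by
      rw [map_div₀, map_mul, map_mul, map_pow, map_pow]
      have h2 : (algebraMap (RatFunc Fq) E (algebraMap Fq[X] (RatFunc Fq) s)) ^ p =
          (algebraMap (RatFunc Fq) E (algebraMap Fq[X] (RatFunc Fq) s)) ^ (p - 1) *
            algebraMap (RatFunc Fq) E (algebraMap Fq[X] (RatFunc Fq) s) := by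
        rw [← pow_succ, Nat.sub_add_cancel hp]
      rw [inv_pow, h2]
      field_simp
    rw [h1]
    exact hmul _ _ (hpoly _)
  -- everything
  have hspan := Field.span_map_pow_expChar_pow_eq_top_of_isSeparable (F := RatFunc Fq) (E := E)
    (v := fun e : E => e) p 1 (by rw [Set.range_id']; exact Submodule.span_univ)
  rw [eq_top_iff]
  intro e he0
  clear he0
  have he : e ∈ Submodule.span (RatFunc Fq) (Set.range fun e : E => e ^ p ^ 1) := by
    rw [hspan]; trivial
  have key : ∀ f : RatFunc Fq, f • e ∈ W := by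
    induction he using Submodule.span_induction with
    | mem x hx =>
      obtain ⟨u, rfl⟩ := hx
      intro f
      simp only [pow_one]
      rw [Algebra.smul_def, mul_comm]
      exact hmul _ _ (hrat f)
    | zero => intro f; rw [smul_zero]; exact W.zero_mem
    | add x y _ _ hx hy => intro f; rw [smul_add]; exact W.add_mem (hx f) (hy f)
    | smul g x _ hx => intro f; rw [smul_smul]; exact hx _
  have := key 1
  rwa [one_smul] at this

/-- `t` is a combination of powers of any element that is not a `p`-th power -/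
theorem t_mem_span {E : Type u} [Field E] [Algebra (RatFunc Fq) E] [CharP E p]
    [Algebra.IsSeparable (RatFunc Fq) E] (b : E) (hb : ∀ c : E, c ^ p ≠ b) :
    ∃ c : Fin p → E, algebraMap (RatFunc Fq) E RatFunc.X = ∑ i, c i ^ p * b ^ (i : ℕ) := by
  classical
  set k₀ := (frobenius E p).fieldRange with hk₀
  have hpp : p.Prime := Fact.out
  have hspan := span_pow_t p (Fq := Fq) (E := E)
  have hfin : Module.Finite k₀ E := Module.finite_def.mpr
    ⟨(Set.finite_range fun i : Fin p => (algebraMap (RatFunc Fq) E RatFunc.X) ^ (i : ℕ)).toFinset, by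
      rw [Set.Finite.coe_toFinset]; exact hspan⟩
  have hle : Module.finrank k₀ E ≤ p := by
    have := finrank_range_le_card (R := k₀)
      (b := fun i : Fin p => (algebraMap (RatFunc Fq) E RatFunc.X) ^ (i : ℕ))
    rw [Set.finrank, hspan, finrank_top, Fintype.card_fin] at this
    exact this
  -- the minimal polynomial of `b`
  have hmin : minpoly k₀ b = X ^ p - C (⟨b ^ p, b, rfl⟩ : k₀) := by
    symm
    refine minpoly.eq_of_irreducible_of_monic ?_ ?_ ?_
    · refine X_pow_sub_C_irreducible_of_prime hpp ?_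
      rintro ⟨_, c, rfl⟩ h
      have h1 : ((frobenius E p c) ^ p : E) = b ^ p := congrArg Subtype.val h
      have h2 : frobenius E p (frobenius E p c) = frobenius E p b := h1
      exact hb c (frobenius_inj E p h2)
    · rw [map_sub, map_pow, aeval_X, aeval_C, sub_eq_zero]
      rfl
    · exact monic_X_pow_sub_C _ hpp.ne_zero
  have hdeg : (minpoly k₀ b).natDegree = p := by
    rw [hmin, natDegree_X_pow_sub_C]
  have hli := linearIndependent_pow (K := k₀) b
  rw [hdeg] at hli
  have hcard : Fintype.card (Fin p) = Module.finrank k₀ E := by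
    apply le_antisymm
    · exact hli.fintype_card_le_finrank
    · rw [Fintype.card_fin]; exact hle
  have h1 := hli.span_eq_top_of_card_eq_finrank' hcard
  have h2 : algebraMap (RatFunc Fq) E RatFunc.X ∈ Submodule.span k₀
      (Set.range fun i : Fin p => b ^ (i : ℕ)) := by rw [h1]; trivial
  rw [Submodule.mem_span_range_iff_exists_fun] at h2
  obtain ⟨c, hc⟩ := h2
  choose d hd using fun i => (c i).2
  refine ⟨d, ?_⟩
  rw [← hc]
  refine Finset.sum_congr rfl fun i _ => ?_
  have : (d i) ^ p = (c i : E) := hd i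
  rw [this]
  rfl

theorem exists_root {K : Type u} [Field K] [Algebra (RatFunc Fq) K] [CharP K p]
    [FiniteDimensional (RatFunc Fq) K] (hns : ¬ Algebra.IsSeparable (RatFunc Fq) K) :
    ∃ s : K, s ^ p = algebraMap (RatFunc Fq) K RatFunc.X := by
  classical
  set E := separableClosure (RatFunc Fq) K with hE
  have hEtop : E ≠ ⊤ := fun h => hns ((separableClosure.eq_top_iff (RatFunc Fq) K).mp h)
  have hchar : CharP (RatFunc Fq) p := charP_of_injective_algebraMap (algebraMap Fq (RatFunc Fq)).injective p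
  have hcharE : CharP E p := charP_of_injective_algebraMap (algebraMap (RatFunc Fq) E).injective p
  obtain ⟨x, hx⟩ : ∃ x : K, x ∉ E := by
    by_contra hcon
    push Not at hcon
    exact hEtop (eq_top_iff.mpr fun x _ => hcon x)
  have hpi : IsPurelyInseparable E K := separableClosure.isPurelyInseparable (RatFunc Fq) K
  have hex : ∃ n : ℕ, x ^ p ^ n ∈ E := by
    obtain ⟨n, ⟨y, hy⟩⟩ := (isPurelyInseparable_iff_pow_mem E p).mp hpi x
    exact ⟨n, hy ▸ y.2⟩
  have hn0 : Nat.find hex ≠ 0 := by
    intro h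
    have h1 := Nat.find_spec hex
    rw [h, pow_zero, pow_one] at h1
    exact hx h1
  obtain ⟨m, hm⟩ : ∃ m, Nat.find hex = m + 1 := ⟨Nat.find hex - 1, by omega⟩
  set a := x ^ p ^ m with ha
  have haE : a ∉ E := Nat.find_min hex (by omega)
  have hapE : a ^ p ∈ E := by
    have h1 := Nat.find_spec hex
    rw [hm, pow_succ, pow_mul] at h1
    exact h1
  obtain ⟨c, hc⟩ := t_mem_span p (Fq := Fq) (E := E) ⟨a ^ p, hapE⟩ (by
    intro c h
    have h1 : (c : K) ^ p = a ^ p := congrArg Subtype.val h
    have h2 : (c : K) = a := frobenius_inj K p h1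
    exact haE (h2 ▸ c.2))
  refine ⟨∑ i, (c i : K) * a ^ (i : ℕ), ?_⟩
  have h1 := congrArg (algebraMap E K) hc
  rw [← IsScalarTower.algebraMap_apply] at h1
  rw [h1, sum_pow_char, map_sum]
  refine Finset.sum_congr rfl fun i _ => ?_
  rw [mul_pow, map_mul, map_pow, map_pow, ← pow_mul, mul_comm (i : ℕ) p, pow_mul]
  rfl

end

end Pool.Agent.Work.MP_b29d7f_nt.FF
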