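import Pool.Agent.Work.MP_b29d7f_nt.FF.Defs

/-!
# Interface: the statements of the blocks

Blueprint: `BLUEPRINT.md` in this directory. A block proves `theorem stmt_X : Stmt_X.{u}` and may
take other `Stmt_Y` as hypotheses.
-/

set_option linter.unusedSectionVars false

namespace Pool.Agent.Work.MP_b29d7f_nt.FF

open Finset Polynomial
open Pool.Agent.Work.MP_b29d7f_nt.Ded

universe u w

/-! ### arithmetic of a pack -/

open scoped Classical in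
/-- FACT: `dg (x) - dg I` counts the prime powers `p^k` with `x ∈ p^k I` -/
def Stmt_Fact : Prop := ∀ (R : Type u) [CommRing R] [IsDedekindDomain R]
  [Ring.HasFiniteQuotients R] [Infinite R] (S : Type u) [Fintype S] (P : Pack R S)
  (I : Ideal R), I ≠ ⊥ → ∀ x ∈ I, x ≠ 0 → ∀ D : ℕ,
    (∑ i ∈ Icc 1 D, ∑ p ∈ (P.primes i).filter (fun p => P.dg p ∣ i),
      (P.dg p : ℝ) * (if x ∈ p ^ (i / P.dg p) * I then 1 else 0)
        ≤ (P.dg (Ideal.span {x}) : ℝ) - P.dg I) ∧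
    (P.dg (Ideal.span {x}) ≤ P.dg I + D →
      (P.dg (Ideal.span {x}) : ℝ) - P.dg I =
        ∑ i ∈ Icc 1 D, ∑ p ∈ (P.primes i).filter (fun p => P.dg p ∣ i),
          (P.dg p : ℝ) * (if x ∈ p ^ (i / P.dg p) * I then 1 else 0))

/-- OPT: initial segments of a simultaneous ordering -/
def Stmt_Opt : Prop := ∀ (R : Type u) [CommRing R] [IsDedekindDomain R]
  [Ring.HasFiniteQuotients R] [Infinite R] (S : Type u) [Fintype S] (P : Pack R S),
  (∃ p : Ideal R, p.IsPrime ∧ p ≠ ⊥) → HasSimultaneousOrdering (Set.univ : Set R) →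
    ∃ A : ℕ → Finset R, (∀ j, P.Opt j (A j)) ∧ ∀ j, A j ⊆ A (j + 1)

/-- POT: the potential of an optimal set and the lower bound of the energy of any set -/
def Stmt_Pot : Prop := ∀ (R : Type u) [CommRing R] [IsDedekindDomain R]
  [Ring.HasFiniteQuotients R] [Infinite R] (S : Type u) [Fintype S] (P : Pack R S),
  (∀ j A, P.Opt j A → ∀ x ∈ A, ∑ b ∈ A, P.ln x b = P.pot j) ∧
  (∀ j A, P.Opt j A → ∀ y ∉ A, P.pot j + P.K0 j ≤ ∑ b ∈ A, P.ln y b) ∧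
  (∀ (B : Finset R) (j : ℕ), ∑ i ∈ Icc 1 j, (P.Nn i : ℝ) *
    ((B.card : ℝ) * ((B.card : ℝ) / (P.q : ℝ) ^ i - 1)) ≤ ∑ x ∈ B, ∑ y ∈ B, P.ln x y)

/-- MER: Mertens and Chebyshev -/
def Stmt_Mer : Prop := ∀ (R : Type u) [CommRing R] [IsDedekindDomain R]
  [Ring.HasFiniteQuotients R] [Infinite R] (S : Type u) [Fintype S] [Nonempty S] (P : Pack R S),
  ∃ C : ℝ, 0 < C ∧ (∀ j : ℕ, |P.pot j - j * (P.q : ℝ) ^ j| ≤ C * (P.q : ℝ) ^ j) ∧
    (∀ j : ℕ, P.K0 j ≤ C * (P.q : ℝ) ^ j) ∧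
    (∃ j₀ : ℕ, ∀ j ≥ j₀, (P.q : ℝ) ^ j ≤ C * P.K0 j) ∧
    (∀ B : Finset R, B.Nonempty →
      (B.card : ℝ) ^ 2 * (P.lg B.card - C) ≤ ∑ x ∈ B, ∑ y ∈ B, P.ln x y) ∧
    (∀ m₀ : ℕ, ∃ m ≥ m₀,
      (P.q : ℝ) ^ m ≤ C * ∑ p ∈ (P.primes m).filter (fun p => P.dg p = m), (P.dg p : ℝ))

/-! ### tightness -/

/-- TIGHT: for an optimal set `A` there is a level `m` of large degree below which `A` has almost no
pairs of close elements -/
def Stmt_Tight : Prop := ∀ (R : Type u) [CommRing R] [IsDedekindDomain R]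
  [Ring.HasFiniteQuotients R] [Infinite R] (S : Type u) [Fintype S] [Nonempty S] (P : Pack R S),
  ∃ (C ρ : ℝ) (j₀ : ℕ), 0 < C ∧ 0 < ρ ∧ ρ < 1 ∧ ∀ j ≥ j₀, ∀ A, P.Opt j A →
    ∃ m : S → ℤ, (P.c₀ : ℤ) ≤ P.deg m ∧
      ∑ x ∈ A, ∑ b ∈ A, P.gap m x b ≤ C * ((P.q : ℝ) ^ j) ^ 2 * ρ ^ j

/-- CELLS: then `A` is almost a product of sets of cells -/
def Stmt_Cells : Prop := ∀ (R : Type u) [CommRing R] [IsDedekindDomain R]
  [Ring.HasFiniteQuotients R] [Infinite R] (S : Type u) [Fintype S] [Nonempty S] (P : Pack R S),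
  ∃ (ε₀ : ℝ) (j₀ : ℕ), 0 < ε₀ ∧ ∀ j ≥ j₀, ∀ A, P.Opt j A → ∀ m : S → ℤ, (P.c₀ : ℤ) ≤ P.deg m →
    ∀ ε, 0 < ε → ε ≤ ε₀ → ∑ x ∈ A, ∑ b ∈ A, P.gap m x b ≤ ε * ((P.q : ℝ) ^ j) ^ 2 →
      P.HasCells j A m (Real.sqrt ε)

open scoped Classical in
/-- COUNT: counting in products of sets of cells -/
def Stmt_Count : Prop := ∀ (R : Type u) [CommRing R] [IsDedekindDomain R]
  [Ring.HasFiniteQuotients R] [Infinite R] (S : Type u) [Fintype S] (P : Pack R S)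
  (m : S → ℤ), (P.c₀ : ℤ) ≤ P.deg m → ∀ M : S → Finset R, (∀ v, P.Sep v (m v) (M v)) →
    ∀ A : Finset R, (∀ y, y ∈ A ↔ P.InCells m M y) →
      (A.card : ℝ) = (P.q : ℝ) ^ (P.deg m + P.χ) * ∏ v, ((M v).card : ℝ) ∧
      ∀ v, ∀ c ∈ M v, (A.filter fun y => P.Near v (m v) y c).card * (M v).card = A.card

/-- TREE A: the energy of a set of cells -/
def Stmt_TreeA : Prop := ∀ (R : Type u) [CommRing R] [IsDedekindDomain R]
  [Ring.HasFiniteQuotients R] [Infinite R] (S : Type u) [Fintype S] (P : Pack R S)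
  (v : S) (l : ℤ) (M : Finset R), P.Sep v l M → M.Nonempty → ∀ x : R,
    (M.card : ℝ) * (P.d v * l + P.lg M.card - (P.d v : ℝ) / ((P.q : ℝ) ^ P.d v - 1)) ≤
      ∑ c ∈ M, P.cap v l x c

open scoped Classical in
/-- TREE B: stability -/
def Stmt_TreeB : Prop := ∀ (R : Type u) [CommRing R] [IsDedekindDomain R]
  [Ring.HasFiniteQuotients R] [Infinite R] (S : Type u) [Fintype S] (P : Pack R S)
  (τ : ℝ), 0 < τ → ∃ e : ℝ, 0 < e ∧ ∀ (v : S) (l : ℤ) (M : Finset R), P.Sep v l M →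
    M.Nonempty → ∀ x : R,
    ∑ c ∈ M, P.cap v l x c ≤
      (M.card : ℝ) * (P.d v * l + P.lg M.card - (P.d v : ℝ) / ((P.q : ℝ) ^ P.d v - 1) + e) →
    ∃ a : ℕ, |(M.card : ℝ) - ((P.q : ℝ) ^ P.d v) ^ a| ≤ τ * M.card ∧
      ((M.filter fun c => ¬ P.Near v (l + a) x c).card : ℝ) ≤ τ * M.card

/-- LOWER: the lower bound of the potential of optimal sets -/
def Stmt_Lower : Prop := ∀ (R : Type u) [CommRing R] [IsDedekindDomain R]
  [Ring.HasFiniteQuotients R] [Infinite R] (S : Type u) [Fintype S] [Nonempty S] (P : Pack R S),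
  (∀ j, ∃ A, P.Opt j A) → ∀ ε : ℝ, 0 < ε → ∃ j₀ : ℕ, ∀ j ≥ j₀,
    (P.q : ℝ) ^ j * (j - P.χ - P.cc - ε) ≤ P.pot j

open scoped Classical in
/-- BALL: an optimal set whose potential almost attains the lower bound is almost a box -/
def Stmt_Ball : Prop := ∀ (R : Type u) [CommRing R] [IsDedekindDomain R]
  [Ring.HasFiniteQuotients R] [Infinite R] (S : Type u) [Fintype S] [Nonempty S] (P : Pack R S)
  (τ : ℝ), 0 < τ → ∃ (e : ℝ) (j₀ : ℕ), 0 < e ∧ ∀ j ≥ j₀, ∀ A, P.Opt j A →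
    P.pot j ≤ (P.q : ℝ) ^ j * (j - P.χ - P.cc + e) →
    ∃ l : S → ℤ, P.deg l + P.χ = j ∧
      (∃ x ∈ A, ∀ v, ((A.filter fun b => ¬ P.Near v (l v) x b).card : ℝ) ≤ τ * (P.q : ℝ) ^ j) ∧
      ∀ v, ∀ y : R, ((A.filter fun b => P.Near v (l v - 1) y b).card : ℝ) ≤
        (1 / 2 + τ) * (P.q : ℝ) ^ j

/-! ### the contradictions -/

/-- BOXPROD: product of all nonzero elements of a box, with additional primes -/
def Stmt_BoxProd : Prop := ∀ (R : Type u) [CommRing R] [IsDedekindDomain R]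
  [Ring.HasFiniteQuotients R] [Infinite R] (S : Type u) [Fintype S] (P : Pack R S),
  ∃ C : ℝ, ∀ I : Ideal R, I ≠ ⊥ → ∀ (μ : S → ℤ) (m j : ℕ), P.deg μ = m + P.dg I →
    P.c₀ ≤ m → (j : ℤ) = m + P.χ →
    ∀ 𝒞 : Finset (Ideal R), (∀ p ∈ 𝒞, p.IsPrime ∧ p ≠ ⊥ ∧ j ≤ P.dg p ∧
      ∃ x : R, x ≠ 0 ∧ Ideal.span {x} = p * I ∧ ∀ v, P.lev v x ≤ μ v) →
    P.pot j + ∑ p ∈ 𝒞, (P.dg p : ℝ) ≤ (P.q : ℝ) ^ j * (m - P.cc) + C * (j + 1)

/-- PIGEON: many primes of degree `m` in one class -/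
def Stmt_Pigeon : Prop := ∀ (R : Type u) [CommRing R] [IsDedekindDomain R]
  [Ring.HasFiniteQuotients R] [Infinite R] (S : Type u) [Fintype S] [Nonempty S] (P : Pack R S),
  ∃ h : ℕ, ∀ m : ℕ, (∃ p : Ideal R, p.IsPrime ∧ p ≠ ⊥ ∧ P.dg p = m) →
    ∃ (I : Ideal R) (μ : S → ℤ) (𝒞 : Finset (Ideal R)), I ≠ ⊥ ∧ P.deg μ = m + P.dg I ∧
      (∀ p ∈ 𝒞, p.IsPrime ∧ p ≠ ⊥ ∧ P.dg p = m ∧
        ∃ x : R, x ≠ 0 ∧ Ideal.span {x} = p * I ∧ ∀ v, P.lev v x ≤ μ v) ∧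
      ((P.primes m).filter (fun p => P.dg p = m)).card ≤ h * 𝒞.card

/-- CHI: `χ = 1` -/
def Stmt_Chi : Prop := ∀ (R : Type u) [CommRing R] [IsDedekindDomain R]
  [Ring.HasFiniteQuotients R] [Infinite R] (S : Type u) [Fintype S] [Nonempty S] (P : Pack R S),
  (∀ j, ∃ A, P.Opt j A) → P.χ = 1

/-- UPPER: the upper bound of the potential for all large `j` -/
def Stmt_Upper : Prop := ∀ (R : Type u) [CommRing R] [IsDedekindDomain R]
  [Ring.HasFiniteQuotients R] [Infinite R] (S : Type u) [Fintype S] [Nonempty S] (P : Pack R S),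
  (∀ j, ∃ A, P.Opt j A) → ∀ ε : ℝ, 0 < ε → ∃ j₀ : ℕ, ∀ j ≥ j₀,
    P.pot j ≤ (P.q : ℝ) ^ j * (j - P.χ - P.cc + ε)

/-- ONE: genus `0` and a place of degree one -/
def Stmt_One : Prop := ∀ (R : Type u) [CommRing R] [IsDedekindDomain R]
  [Ring.HasFiniteQuotients R] [Infinite R] (S : Type u) [Fintype S] [Nonempty S] (P : Pack R S)
  (A : ℕ → Finset R), (∀ j, P.Opt j (A j)) → (∀ j, A j ⊆ A (j + 1)) →
    P.χ = 1 ∧ ∃ v, P.d v = 1

/-- LOC: genus `0` and a place of degree one: `R` is a localization of `k[X]` -/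
def Stmt_Loc : Prop := ∀ (R : Type u) [CommRing R] [IsDedekindDomain R]
  [Ring.HasFiniteQuotients R] [Infinite R] (S : Type u) [Fintype S] (P : Pack R S),
  P.χ = 1 → (∃ v, P.d v = 1) → IsLocPoly R

/-- CONV: the converse -/
def Stmt_Conv : Prop := ∀ (R : Type u) [CommRing R] [IsDedekindDomain R]
  [Ring.HasFiniteQuotients R] [Infinite R], IsLocPoly R →
  ∀ (b : R) (I : Ideal R), HasSimultaneousOrdering {x : R | x - b ∈ I}

/-! ### function fields -/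

/-- FFPACK: the ring of integers of a function field (separable over `F_q(t)`) has a pack -/
def Stmt_FFPack : Prop := ∀ (Fq : Type w) [Field Fq] [Finite Fq] (K : Type u) [Field K]
  [Algebra Fq[X] K] [Algebra (RatFunc Fq) K] [IsScalarTower Fq[X] (RatFunc Fq) K]
  [FunctionField Fq K] [Algebra.IsSeparable (RatFunc Fq) K],
    ∃ (S : Type u) (_ : Fintype S) (_ : Nonempty S),
      Nonempty (Pack (FunctionField.ringOfIntegers Fq K) S)

/-- INSEP: the ring of integers of any finite extension of `F_q(t)` is isomorphic to the ring of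
integers of a finite separable one -/
def Stmt_Insep : Prop := ∀ (Fq : Type w) [Field Fq] [Finite Fq] (K : Type u) [Field K]
  [Algebra Fq[X] K] [Algebra (RatFunc Fq) K] [IsScalarTower Fq[X] (RatFunc Fq) K]
  [FunctionField Fq K],
    ∃ (K' : Type u) (_ : Field K') (_ : Algebra Fq[X] K') (_ : Algebra (RatFunc Fq) K')
      (_ : IsScalarTower Fq[X] (RatFunc Fq) K') (_ : FunctionField Fq K')
      (_ : Algebra.IsSeparable (RatFunc Fq) K'),
      Nonempty (FunctionField.ringOfIntegers Fq K ≃+* FunctionField.ringOfIntegers Fq K')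

end Pool.Agent.Work.MP_b29d7f_nt.FF
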