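import Pool.Agent.Work.MP_b29d7f_nt.FF.Basic

/-!
# Block LOC: genus `0` and a place of degree one: `R` is a localization of `k[X]`
-/

set_option linter.unusedSectionVars false

namespace Pool.Agent.Work.MP_b29d7f_nt.FF

open Finset Polynomial
open Pool.Agent.Work.MP_b29d7f_nt.Ded

universe u

namespace Pack

variable {R : Type u} [CommRing R] [IsDedekindDomain R] [Ring.HasFiniteQuotients R] [Infinite R]
  {S : Type u} [Fintype S] (P : Pack R S)

variable {P}

theorem near_add {v : S} {l : ℤ} {x y x' y' : R} (h : P.Near v l x y) (h' : P.Near v l x' y') :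
    P.Near v l (x + x') (y + y') := by
  have h1 : P.Near v l (x + x') (y + x') := near_add_right.mpr h
  have h2 : P.Near v l (y + x') (y + y') := by
    rw [add_comm y x', add_comm y y']; exact near_add_right.mpr h'
  exact near_trans h1 h2

theorem near_neg {v : S} {l : ℤ} {x : R} (h : P.Near v l x 0) : P.Near v l (-x) 0 := by
  rw [near_zero] at h ⊢
  rcases h with h | h
  · left; rw [h, neg_zero]
  · right; rwa [P.lev_neg]

theorem near_mul_zero {v : S} {l l' : ℤ} {x y : R} (h : P.Near v l x 0) (h' : P.Near v l' y 0) :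
    P.Near v (l + l') (x * y) 0 := by
  rw [near_zero] at h h' ⊢
  by_cases hx : x = 0
  · left; rw [hx, zero_mul]
  by_cases hy : y = 0
  · left; rw [hy, mul_zero]
  right
  rw [P.lev_mul v x y hx hy]
  have h1 := h.resolve_left hx
  have h2 := h'.resolve_left hy
  omega

theorem near_sum {ι : Type*} {v : S} {l : ℤ} (s : Finset ι) (f : ι → R)
    (h : ∀ i ∈ s, P.Near v l (f i) 0) : P.Near v l (∑ i ∈ s, f i) 0 := by
  classical
  induction s using Finset.induction_on with
  | empty => rw [Finset.sum_empty]; exact P.near_refl _ _ _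
  | insert a s ha ih =>
    rw [Finset.sum_insert ha]
    have := near_add (h a (by simp)) (ih fun i hi => h i (by simp [hi]))
    rwa [add_zero] at this

variable (P)

/-- the constants -/
def consts : Subring R where
  carrier := {x | ∀ v, P.Near v 0 x 0}
  zero_mem' := fun v => P.near_refl v 0 0
  one_mem' := fun v => near_zero.mpr (Or.inr (by rw [P.lev_one]))
  add_mem' := fun {a b} ha hb v => by
    have := near_add (ha v) (hb v)
    rwa [add_zero] at this
  neg_mem' := fun {a} ha v => near_neg (ha v)
  mul_mem' := fun {a b} ha hb v => by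
    have := near_mul_zero (ha v) (hb v)
    rwa [add_zero] at this

theorem mem_consts {x : R} : x ∈ P.consts ↔ ∀ v, P.Near v 0 x 0 := Iff.rfl

theorem card_consts : Nat.card P.consts = P.q := by
  rw [← P.card_const]
  refine Nat.card_congr (Equiv.subtypeEquivRight fun x => ?_)
  show (∀ v, P.Near v 0 x 0) ↔ _
  simp_rw [near_zero]

instance finite_consts : Finite P.consts :=
  Nat.finite_of_card_ne_zero (by rw [P.card_consts]; have := P.two_le_q; omega)

theorem lev_const {c : R} (hc : c ∈ P.consts) (h0 : c ≠ 0) (v : S) : P.lev v c = 0 := by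
  have h1 : ∀ w, P.lev w c ≤ 0 := fun w => (near_zero.mp (hc w)).resolve_left h0
  have h2 := P.dg_span c h0
  by_contra hne
  have h3 : P.lev v c < 0 := lt_of_le_of_ne (h1 v) hne
  have h4 : ∑ w, (P.d w : ℤ) * P.lev w c ≤ P.d v * P.lev v c := by
    have h5 := Finset.single_le_sum (f := fun w => -((P.d w : ℤ) * P.lev w c))
      (fun w _ => by have := h1 w; have : 0 ≤ (P.d w : ℤ) := by positivity
                     nlinarith) (Finset.mem_univ v)
    rw [Finset.sum_neg_distrib] at h5
    linarith
  have h5 : (0 : ℤ) ≤ P.dg (Ideal.span {c}) := by positivity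
  have h6 := P.one_le_d v
  have h7 : (P.d v : ℤ) * P.lev v c < 0 := by
    have : 0 < (P.d v : ℤ) := by omega
    exact mul_neg_of_pos_of_neg this h3
  omega

/-- elements of total degree at most zero are units -/
theorem isUnit_of_deg {x : R} (hx : x ≠ 0) (m : S → ℤ) (h : ∀ v, P.lev v x ≤ m v)
    (hm : P.deg m ≤ 0) : IsUnit x := by
  have h1 := P.dg_span x hx
  have h2 : ∑ v, (P.d v : ℤ) * P.lev v x ≤ P.deg m :=
    Finset.sum_le_sum fun v _ => mul_le_mul_of_nonneg_left (h v) (by positivity)
  have h3 : P.dg (Ideal.span {x}) = 0 := by omega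
  rw [P.dg_eq_zero (by rwa [Ne, Ideal.span_singleton_eq_bot])] at h3
  exact Ideal.span_singleton_eq_top.mp h3

variable {P}

/-- the evaluation homomorphism -/
noncomputable def ev (P : Pack R S) (X : R) : P.consts[X] →+* R :=
  eval₂RingHom P.consts.subtype X

theorem near_pow {v : S} {l : ℤ} {x : R} (hx : P.Near v l x 0) (n : ℕ) :
    P.Near v (n * l) (x ^ n) 0 := by
  induction n with
  | zero =>
    rw [pow_zero]
    exact near_zero.mpr (Or.inr (by rw [P.lev_one]; simp))
  | succ n ih =>
    rw [pow_succ]
    have := near_mul_zero ih hx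
    rw [show ((n + 1 : ℕ) : ℤ) * l = n * l + l by push_cast; ring]
    exact this

/-- the value of a polynomial of degree at most `n` has level at most `n` -/
theorem near_ev {v : S} {X : R} (hX : P.Near v 1 X 0) (f : P.consts[X]) {n : ℕ}
    (hn : f.natDegree ≤ n) : P.Near v n (ev P X f) 0 := by
  have h1 : ev P X f = ∑ i ∈ range (f.natDegree + 1), (f.coeff i : R) * X ^ i := by
    unfold ev
    rw [coe_eval₂RingHom, eval₂_eq_sum_range]
    rfl
  rw [h1]
  refine near_sum _ _ fun i hi => ?_
  rw [Finset.mem_range] at hi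
  have h2 := near_mul_zero ((f.coeff i).2 v) (near_pow hX i)
  refine near_mono ?_ h2
  have : (i : ℤ) ≤ n := by exact_mod_cast (by omega : i ≤ n)
  omega

/-- the element `X` is transcendental over the constants -/
theorem ev_ne_zero {v : S} {X : R} (hX0 : X ≠ 0) (hX : P.lev v X = 1) {f : P.consts[X]}
    (hf : f ≠ 0) : ev P X f ≠ 0 := by
  intro h0
  have hXn : P.Near v 1 X 0 := near_zero.mpr (Or.inr hX.le)
  set n := f.natDegree with hn
  have hc : (f.leadingCoeff : R) ≠ 0 := by
    intro h
    apply hf
    rw [← leadingCoeff_eq_zero]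
    exact Subtype.ext h
  have h1 : ev P X f = ev P X f.eraseLead + (f.leadingCoeff : R) * X ^ n := by
    conv_lhs => rw [← f.eraseLead_add_monomial_natDegree_leadingCoeff]
    rw [map_add]
    congr 1
    unfold ev
    rw [coe_eval₂RingHom, eval₂_monomial]
    rfl
  have h2 : P.Near v ((n : ℤ) - 1) (ev P X f.eraseLead) 0 := by
    rcases Nat.eq_zero_or_pos n with h3 | h3
    · have h4 : f.eraseLead = 0 := by
        have h5 : f = C (f.coeff 0) := eq_C_of_natDegree_eq_zero h3
        rw [h5, eraseLead_C]
      rw [h4, map_zero]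
      exact P.near_refl _ _ _
    · have h4 := near_ev hXn f.eraseLead (n := n - 1) (by
        have := f.eraseLead_natDegree_le
        omega)
      refine near_mono ?_ h4
      omega
  have h3 : P.lev v ((f.leadingCoeff : R) * X ^ n) = n := by
    rw [P.lev_mul v _ _ hc (pow_ne_zero n hX0), P.lev_pow v hX0, hX,
      P.lev_const f.leadingCoeff.2 hc]
    ring
  have h4 : (f.leadingCoeff : R) * X ^ n = - ev P X f.eraseLead := by
    rw [h0] at h1
    rw [eq_neg_iff_add_eq_zero, add_comm]
    exact h1.symm
  have h5 := near_neg h2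
  rw [← h4, near_zero] at h5
  rcases h5 with h5 | h5
  · exact mul_ne_zero hc (pow_ne_zero n hX0) h5
  · omega

/-- the elements without poles outside `v` are polynomials in `X` -/
theorem exists_ev {v : S} (hd : P.d v = 1) {X : R} (hX0 : X ≠ 0) (hX : P.lev v X = 1)
    (hX' : ∀ w, w ≠ v → P.Near w 0 X 0) (n : ℕ) :
    ∀ x : R, (∀ w, w ≠ v → P.Near w 0 x 0) → P.Near v n x 0 → ∃ f : P.consts[X], ev P X f = x := by
  classical
  induction n with
  | zero =>
    intro x hx hv
    have h1 : x ∈ P.consts := by
      intro w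
      by_cases hw : w = v
      · rw [hw]; exact hv
      · exact hx w hw
    refine ⟨C ⟨x, h1⟩, ?_⟩
    unfold ev
    rw [coe_eval₂RingHom, eval₂_C]
    rfl
  | succ n ih =>
    intro x hx hv
    have hfin : (P.consts : Set R).Finite :=
      @Set.toFinite _ (P.consts : Set R) P.finite_consts
    set F : Finset R := hfin.toFinset.image (fun c => c * X ^ (n + 1)) with hF
    have hXp : X ^ (n + 1) ≠ 0 := pow_ne_zero _ hX0
    have hFcard : F.card = P.q := by
      rw [hF, Finset.card_image_of_injective _ fun a b hab => mul_right_cancel₀ hXp hab,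
        ← Set.ncard_eq_toFinset_card _ hfin, ← P.card_consts, ← Nat.card_coe_set_eq]
      rfl
    have hnear : ∀ y ∈ F, P.Near v ((n + 1 : ℕ) : ℤ) y 0 := by
      intro y hy
      rw [hF, Finset.mem_image] at hy
      obtain ⟨c, hc, rfl⟩ := hy
      rw [Set.Finite.mem_toFinset] at hc
      have h2 := near_mul_zero (hc v) (near_pow (near_zero.mpr (Or.inr hX.le)) (n + 1))
      refine near_mono ?_ h2
      push_cast; omega
    have hsepF : ∀ y ∈ F, ∀ z ∈ F, P.Near v n y z → y = z := by
      intro y hy z hz hyz
      rw [hF, Finset.mem_image] at hy hz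
      obtain ⟨c, hc, rfl⟩ := hy
      obtain ⟨c', hc', rfl⟩ := hz
      rw [Set.Finite.mem_toFinset] at hc hc'
      by_contra hne
      have hcc : c - c' ≠ 0 := by
        intro h
        apply hne
        rw [sub_eq_zero.mp h]
      have hmem : c - c' ∈ P.consts := P.consts.sub_mem hc hc'
      have h1 := (hyz.resolve_left hne)
      rw [← sub_mul, P.lev_mul v _ _ hcc hXp, P.lev_const hmem hcc, P.lev_pow v hX0, hX] at h1
      push_cast at h1
      omega
    have key : ∃ y ∈ F, P.Near v n x y := by
      by_contra hcon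
      push Not at hcon
      have hxF : x ∉ F := fun h => hcon x h (P.near_refl _ _ _)
      have h1 := P.branch (v := v) (l := n) (n := 1) (F := insert x F) (by
        intro y hy z hz
        have hh : ∀ y ∈ insert x F, P.Near v ((n : ℤ) + 1) y 0 := by
          intro y hy
          rcases Finset.mem_insert.mp hy with rfl | hy
          · exact_mod_cast hv
          · exact_mod_cast hnear y hy
        have := near_trans (hh y hy) (near_symm (hh z hz))
        exact_mod_cast this) (by
        intro y hy z hz hyz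
        rcases Finset.mem_insert.mp hy with hy1 | hy1 <;>
          rcases Finset.mem_insert.mp hz with hz1 | hz1
        · rw [hy1, hz1]
        · rw [hy1] at hyz; exact absurd hyz (hcon z hz1)
        · rw [hz1] at hyz; exact absurd (near_symm hyz) (hcon y hy1)
        · exact hsepF y hy1 z hz1 hyz)
      rw [Finset.card_insert_of_notMem hxF, hFcard, hd, pow_one, pow_one] at h1
      omega
    obtain ⟨y, hy, hxy⟩ := key
    rw [hF, Finset.mem_image] at hy
    obtain ⟨c, hc, rfl⟩ := hy
    rw [Set.Finite.mem_toFinset] at hc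
    obtain ⟨f, hf⟩ := ih (x - c * X ^ (n + 1)) (fun w hw => by
      have h1 := near_mul_zero (hc w) (near_pow (hX' w hw) (n + 1))
      rw [mul_zero, add_zero] at h1
      exact near_sub_zero.mpr (near_trans (hx w hw) (near_symm h1))) (near_sub_zero.mpr hxy)
    refine ⟨f + C ⟨c, hc⟩ * Polynomial.X ^ (n + 1), ?_⟩
    rw [map_add, hf, map_mul, map_pow]
    unfold ev
    rw [coe_eval₂RingHom, eval₂_C, eval₂_X]
    simp

end Pack

open Pack in
theorem stmt_Loc : Stmt_Loc.{u} := by
  classical
  intro R _ _ _ _ S _ P hχ hd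
  obtain ⟨v, hd⟩ := hd
  -- the element `X`
  obtain ⟨X, hX0, hX, hX'⟩ : ∃ X : R, X ≠ 0 ∧ P.lev v X = 1 ∧ ∀ w, w ≠ v → P.Near w 0 X 0 := by
    have hm : P.deg (Pi.single v 1) = 1 := by
      unfold Pack.deg
      rw [Finset.sum_eq_single v]
      · rw [Pi.single_eq_same, hd]; simp
      · intro w _ hw
        rw [Pi.single_eq_of_ne hw, mul_zero]
      · intro h; exact absurd (Finset.mem_univ v) h
    have h1 := P.le_card_box (I := ⊤) top_ne_bot (Pi.single v 1)
    rw [P.dg_top, hm, hχ] at h1
    have h2 : P.q ^ 2 ≤ (P.box ⊤ (Pi.single v 1)).card := by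
      have h3 : ((P.q ^ 2 : ℕ) : ℝ) = (P.q : ℝ) ^ ((1 : ℤ) - (0 : ℕ) + 1) := by
        push_cast
        norm_num
      exact_mod_cast h3 ▸ h1
    have hfin : (P.consts : Set R).Finite :=
      @Set.toFinite _ (P.consts : Set R) P.finite_consts
    have h3 : hfin.toFinset.card = P.q := by
      rw [← Set.ncard_eq_toFinset_card _ hfin, ← P.card_consts, ← Nat.card_coe_set_eq]
      rfl
    have h4 : hfin.toFinset.card < (P.box ⊤ (Pi.single v 1)).card := by
      have := P.two_le_q
      nlinarith
    obtain ⟨X, hX, hX'⟩ := Finset.exists_mem_notMem_of_card_lt_card h4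
    rw [P.mem_box'] at hX
    rw [Set.Finite.mem_toFinset] at hX'
    have h5 : ∀ w, w ≠ v → P.Near w 0 X 0 := by
      intro w hw
      have := hX.2 w
      rwa [Pi.single_eq_of_ne hw] at this
    have h6 := hX.2 v
    rw [Pi.single_eq_same] at h6
    have h7 : ¬ P.Near v 0 X 0 := by
      intro h7
      apply hX'
      intro w
      by_cases hw : w = v
      · rw [hw]; exact h7
      · exact h5 w hw
    have h0 : X ≠ 0 := by
      rintro rfl
      exact h7 (P.near_refl _ _ _)
    refine ⟨X, h0, ?_, h5⟩
    have h8 := (near_zero.mp h6).resolve_left h0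
    have h9 : ¬ P.lev v X ≤ 0 := fun h => h7 (near_zero.mpr (Or.inr h))
    omega
  -- units with a zero at `w`
  have hg : ∀ w, ∃ g : R, IsUnit g ∧ (∀ u, u ≠ v → P.Near u 0 g 0) ∧
      (w ≠ v → P.Near w (-1) g 0) := by
    intro w
    by_cases hw : w = v
    · exact ⟨1, isUnit_one, fun u _ => near_zero.mpr (Or.inr (by rw [P.lev_one])), fun h => absurd hw h⟩
    set m : S → ℤ := Pi.single w (-1) + Pi.single v (P.d w : ℤ) with hm
    have hdeg : P.deg m = 0 := by
      rw [hm, P.deg_add]
      have h1 : ∀ (u : S) (a : ℤ), P.deg (Pi.single u a) = P.d u * a := by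
        intro u a
        unfold Pack.deg
        rw [Finset.sum_eq_single u]
        · rw [Pi.single_eq_same]
        · intro w _ hw
          rw [Pi.single_eq_of_ne hw, mul_zero]
        · intro h; exact absurd (Finset.mem_univ u) h
      rw [h1, h1, hd]
      push_cast; ring
    obtain ⟨g, hg, hg0⟩ := P.exists_ne_zero_mem_box (I := ⊤) top_ne_bot (m := m) (by
      rw [hdeg, P.dg_top, hχ]; norm_num)
    rw [P.mem_box'] at hg
    refine ⟨g, P.isUnit_of_deg hg0 m (fun u => (near_zero.mp (hg.2 u)).resolve_left hg0) hdeg.le,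
      fun u hu => ?_, fun _ => ?_⟩
    · refine near_mono ?_ (hg.2 u)
      rw [hm, Pi.add_apply, Pi.single_eq_of_ne hu, add_zero]
      by_cases huw : u = w
      · rw [huw, Pi.single_eq_same]; omega
      · rw [Pi.single_eq_of_ne huw]
    · have := hg.2 w
      rw [hm, Pi.add_apply, Pi.single_eq_same, Pi.single_eq_of_ne hw, add_zero] at this
      exact this
  choose g hgu hg0 hg1 using hg
  have hev : ∀ x : R, (∀ w, w ≠ v → P.Near w 0 x 0) → ∃ f : P.consts[X], ev P X f = x := by
    intro x hx
    have h1 : ∃ n : ℕ, P.Near v n x 0 := by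
      refine ⟨(P.lev v x).toNat, near_zero.mpr (Or.inr (Int.self_le_toNat _))⟩
    obtain ⟨n, hn⟩ := h1
    exact exists_ev hd hX0 hX hX' n x hx hn
  have hprod : ∀ (N : ℕ), IsUnit (∏ w, g w ^ N) := fun N =>
    IsUnit.prod_univ_iff.mpr fun w => (hgu w).pow N
  -- the multiplicative set
  have hfin := P.finite_consts
  let _ : Field P.consts := (Finite.isField_of_domain P.consts).toField
  refine ⟨P.consts, inferInstance, inferInstance, (IsUnit.submonoid R).comap (ev P X), ev P X, ?_, ?_⟩
  · intro f hf
    rw [mem_nonZeroDivisors_iff_ne_zero]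
    rintro rfl
    have : IsUnit (ev P X 0) := hf
    rw [map_zero] at this
    exact not_isUnit_zero this
  let _ := (ev P X).toAlgebra
  rw [isLocalization_iff]
  refine ⟨fun y => y.2, fun z => ?_, fun {x y} hxy => ?_⟩
  · obtain ⟨N, hN⟩ : ∃ N : ℕ, ∀ w, P.lev w z ≤ N := by
      refine ⟨∑ w, (P.lev w z).toNat, fun w => (Int.self_le_toNat _).trans ?_⟩
      exact_mod_cast Finset.single_le_sum (f := fun w => (P.lev w z).toNat)
        (fun _ _ => Nat.zero_le _) (Finset.mem_univ w)
    have hs : ∀ u, u ≠ v → P.Near u (-(N : ℤ)) (∏ w, g w ^ N) 0 := by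
      intro u hu
      rw [← Finset.mul_prod_erase _ _ (Finset.mem_univ u)]
      have h1 : P.Near u 0 (∏ w ∈ Finset.univ.erase u, g w ^ N) 0 := by
        refine Finset.prod_induction _ (fun y => P.Near u 0 y 0) (fun a b ha hb => ?_) ?_ ?_
        · have := near_mul_zero ha hb
          rwa [add_zero] at this
        · exact near_zero.mpr (Or.inr (by rw [P.lev_one]))
        · intro w _
          have := near_pow (hg0 w u hu) N
          rwa [mul_zero] at this
      have h2 := near_mul_zero (near_pow (hg1 u hu) N) h1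
      refine near_mono ?_ h2
      omega
    obtain ⟨s, hs'⟩ := hev (∏ w, g w ^ N) fun u hu => near_mono (by omega) (hs u hu)
    obtain ⟨f, hf⟩ := hev (z * ∏ w, g w ^ N) fun u hu => by
      have h1 : P.Near u N z 0 := near_zero.mpr (Or.inr (hN u))
      have := near_mul_zero h1 (hs u hu)
      rwa [add_neg_cancel] at this
    refine ⟨⟨f, ⟨s, ?_⟩⟩, ?_⟩
    · show IsUnit (ev P X s)
      rw [hs']; exact hprod N
    · show z * ev P X s = ev P X f
      rw [hs', hf]
  · refine ⟨1, ?_⟩
    have h1 : ev P X x = ev P X y := hxy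
    have h2 : x = y := by
      by_contra hne
      refine ev_ne_zero hX0 hX (sub_ne_zero.mpr hne) ?_
      rw [map_sub, h1, sub_self]
    rw [h2]

end Pool.Agent.Work.MP_b29d7f_nt.FF
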