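import Pool.Agent.Work.MP_b29d7f_nt.FF.Loc
import Pool.Agent.Work.MP_b29d7f_nt.FF.Interface2

/-!
# Block LOC2: a polynomial ring inside `R`, with controlled poles
-/

set_option linter.unusedSectionVars false

namespace Pool.Agent.Work.MP_b29d7f_nt.FF

open Finset Polynomial
open Pool.Agent.Work.MP_b29d7f_nt.Ded

universe u

namespace Pack

variable {R : Type u} [CommRing R] [IsDedekindDomain R] [Ring.HasFiniteQuotients R] [Infinite R]
  {S : Type u} [Fintype S] {P : Pack R S}

theorem near_ev_zero {v : S} {X : R} (hX : P.Near v 0 X 0) (f : P.consts[X]) :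
    P.Near v 0 (ev P X f) 0 := by
  have h1 : ev P X f = ∑ i ∈ range (f.natDegree + 1), (f.coeff i : R) * X ^ i := by
    unfold ev
    rw [coe_eval₂RingHom, eval₂_eq_sum_range]
    rfl
  rw [h1]
  refine near_sum _ _ fun i _ => ?_
  have h2 := near_mul_zero ((f.coeff i).2 v) (near_pow hX i)
  rwa [mul_zero, add_zero] at h2

end Pack

open Pack in
theorem stmt_Loc2 : Stmt_Loc2.{u} := by
  classical
  intro R _ _ _ _ S _ P v hχ hd l
  -- the element `X`
  obtain ⟨X, hX0, hX, hX'⟩ : ∃ X : R, X ≠ 0 ∧ P.lev v X = 1 ∧ ∀ w, w ≠ v → P.Near w 0 X 0 := by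
    have hm : P.deg (Pi.single v 1) = 1 := by
      unfold Pack.deg
      rw [Finset.sum_eq_single v]
      · rw [Pi.single_eq_same, hd]; simp
      · intro w _ hw
        rw [Pi.single_eq_of_ne hw, mul_zero]
      · intro h; exact absurd (Finset.mem_univ v) h
    have h1 := P.le_card_box (I := ⊤) top_ne_bot (Pi.single v 1)
    rw [P.dg_top, hm, hχ] at h1
    have h2 : P.q ^ 2 ≤ (P.box ⊤ (Pi.single v 1)).card := by
      have h3 : ((P.q ^ 2 : ℕ) : ℝ) = (P.q : ℝ) ^ ((1 : ℤ) - (0 : ℕ) + 1) := by
        push_cast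
        norm_num
      exact_mod_cast h3 ▸ h1
    have hfin : (P.consts : Set R).Finite :=
      @Set.toFinite _ (P.consts : Set R) P.finite_consts
    have h3 : hfin.toFinset.card = P.q := by
      rw [← Set.ncard_eq_toFinset_card _ hfin, ← P.card_consts, ← Nat.card_coe_set_eq]
      rfl
    have h4 : hfin.toFinset.card < (P.box ⊤ (Pi.single v 1)).card := by
      have := P.two_le_q
      nlinarith
    obtain ⟨X, hX, hX'⟩ := Finset.exists_mem_notMem_of_card_lt_card h4
    rw [P.mem_box'] at hX
    rw [Set.Finite.mem_toFinset] at hX'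
    have h5 : ∀ w, w ≠ v → P.Near w 0 X 0 := by
      intro w hw
      have := hX.2 w
      rwa [Pi.single_eq_of_ne hw] at this
    have h6 := hX.2 v
    rw [Pi.single_eq_same] at h6
    have h7 : ¬ P.Near v 0 X 0 := by
      intro h7
      apply hX'
      intro w
      by_cases hw : w = v
      · rw [hw]; exact h7
      · exact h5 w hw
    have h0 : X ≠ 0 := by
      rintro rfl
      exact h7 (P.near_refl _ _ _)
    refine ⟨X, h0, ?_, h5⟩
    have h8 := (near_zero.mp h6).resolve_left h0
    have h9 : ¬ P.lev v X ≤ 0 := fun h => h7 (near_zero.mpr (Or.inr h))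
    omega
  -- units with a zero at `w`
  have hg : ∀ w, ∃ g : R, IsUnit g ∧ (∀ u, u ≠ v → P.Near u 0 g 0) ∧
      (w ≠ v → P.Near w (-1) g 0) := by
    intro w
    by_cases hw : w = v
    · exact ⟨1, isUnit_one, fun u _ => near_zero.mpr (Or.inr (by rw [P.lev_one])), fun h => absurd hw h⟩
    set m : S → ℤ := Pi.single w (-1) + Pi.single v (P.d w : ℤ) with hm
    have hdeg : P.deg m = 0 := by
      rw [hm, P.deg_add]
      have h1 : ∀ (u : S) (a : ℤ), P.deg (Pi.single u a) = P.d u * a := by
        intro u a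
        unfold Pack.deg
        rw [Finset.sum_eq_single u]
        · rw [Pi.single_eq_same]
        · intro w _ hw
          rw [Pi.single_eq_of_ne hw, mul_zero]
        · intro h; exact absurd (Finset.mem_univ u) h
      rw [h1, h1, hd]
      push_cast; ring
    obtain ⟨g, hg, hg0⟩ := P.exists_ne_zero_mem_box (I := ⊤) top_ne_bot (m := m) (by
      rw [hdeg, P.dg_top, hχ]; norm_num)
    rw [P.mem_box'] at hg
    refine ⟨g, P.isUnit_of_deg hg0 m (fun u => (near_zero.mp (hg.2 u)).resolve_left hg0) hdeg.le,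
      fun u hu => ?_, fun _ => ?_⟩
    · refine near_mono ?_ (hg.2 u)
      rw [hm, Pi.add_apply, Pi.single_eq_of_ne hu, add_zero]
      by_cases huw : u = w
      · rw [huw, Pi.single_eq_same]; omega
      · rw [Pi.single_eq_of_ne huw]
    · have := hg.2 w
      rw [hm, Pi.add_apply, Pi.single_eq_same, Pi.single_eq_of_ne hw, add_zero] at this
      exact this
  choose g hgu hg0 hg1 using hg
  have hev : ∀ x : R, (∀ w, w ≠ v → P.Near w 0 x 0) → ∃ f : P.consts[X], ev P X f = x := by
    intro x hx
    have h1 : ∃ n : ℕ, P.Near v n x 0 := by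
      refine ⟨(P.lev v x).toNat, near_zero.mpr (Or.inr (Int.self_le_toNat _))⟩
    obtain ⟨n, hn⟩ := h1
    exact exists_ev hd hX0 hX hX' n x hx hn
  have hprod : ∀ (N : ℕ), IsUnit (∏ w, g w ^ N) := fun N =>
    IsUnit.prod_univ_iff.mpr fun w => (hgu w).pow N
  -- the multiplicative set
  have hfin := P.finite_consts
  let _ : Field P.consts := (Finite.isField_of_domain P.consts).toField
  have hs0 : ∀ N : ℕ, ∀ u, u ≠ v → P.Near u (-(N : ℤ)) (∏ w, g w ^ N) 0 := by
    intro N u hu
    rw [← Finset.mul_prod_erase _ _ (Finset.mem_univ u)]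
    have h1 : P.Near u 0 (∏ w ∈ Finset.univ.erase u, g w ^ N) 0 := by
      refine Finset.prod_induction _ (fun y => P.Near u 0 y 0) (fun a b ha hb => ?_) ?_ ?_
      · have := near_mul_zero ha hb
        rwa [add_zero] at this
      · exact near_zero.mpr (Or.inr (by rw [P.lev_one]))
      · intro w _
        have := near_pow (hg0 w u hu) N
        rwa [mul_zero] at this
    have h2 := near_mul_zero (near_pow (hg1 u hu) N) h1
    refine near_mono ?_ h2
    omega
  refine ⟨P.consts, inferInstance, inferInstance, (IsUnit.submonoid R).comap (ev P X), ev P X, ?_, ?_,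
    ?_⟩
  · intro f hf
    rw [mem_nonZeroDivisors_iff_ne_zero]
    rintro rfl
    have : IsUnit (ev P X 0) := hf
    rw [map_zero] at this
    exact not_isUnit_zero this
  · let _ := (ev P X).toAlgebra
    rw [isLocalization_iff]
    refine ⟨fun y => y.2, fun z => ?_, fun {x y} hxy => ?_⟩
    · obtain ⟨N, hN⟩ : ∃ N : ℕ, ∀ w, P.lev w z ≤ N := by
        refine ⟨∑ w, (P.lev w z).toNat, fun w => (Int.self_le_toNat _).trans ?_⟩
        exact_mod_cast Finset.single_le_sum (f := fun w => (P.lev w z).toNat)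
          (fun _ _ => Nat.zero_le _) (Finset.mem_univ w)
      have hs := hs0 N
      obtain ⟨s, hs'⟩ := hev (∏ w, g w ^ N) fun u hu => near_mono (by omega) (hs u hu)
      obtain ⟨f, hf⟩ := hev (z * ∏ w, g w ^ N) fun u hu => by
        have h1 : P.Near u N z 0 := near_zero.mpr (Or.inr (hN u))
        have := near_mul_zero h1 (hs u hu)
        rwa [add_neg_cancel] at this
      refine ⟨⟨f, ⟨s, ?_⟩⟩, ?_⟩
      · show IsUnit (ev P X s)
        rw [hs']; exact hprod N
      · show z * ev P X s = ev P X f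
        rw [hs', hf]
    · refine ⟨1, ?_⟩
      have h1 : ev P X x = ev P X y := hxy
      have h2 : x = y := by
        by_contra hne
        refine ev_ne_zero hX0 hX (sub_ne_zero.mpr hne) ?_
        rw [map_sub, h1, sub_self]
      rw [h2]
  · obtain ⟨N, hN⟩ : ∃ N : ℕ, ∀ w, -l w ≤ N := by
      refine ⟨∑ w, (-l w).toNat, fun w => (Int.self_le_toNat _).trans ?_⟩
      exact_mod_cast Finset.single_le_sum (f := fun w => (-l w).toNat)
        (fun _ _ => Nat.zero_le _) (Finset.mem_univ w)
    refine ⟨∏ w, g w ^ N, hprod N, fun x w hw => ?_⟩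
    have h1 := near_mul_zero (hs0 N w hw) (near_ev_zero (hX' w hw) x)
    refine near_mono ?_ h1
    have := hN w
    omega

end Pool.Agent.Work.MP_b29d7f_nt.FF
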