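import Pool.Agent.Work.MP_b29d7f_nt.FF.Basic

/-!
# Tightness I: the energy inequality for subsets
-/

set_option linter.unusedSectionVars false

namespace Pool.Agent.Work.MP_b29d7f_nt.FF

open Finset
open Pool.Agent.Work.MP_b29d7f_nt.Ded

universe u

/-- squares of the sums over the classes of an equivalence relation -/
theorem sum_rel_eq {α : Type*} (r : Setoid α) [DecidableRel r.r] (A : Finset α) (f : α → ℝ) :
    ∑ x ∈ A, ∑ y ∈ A, (if r x y then f x * f y else 0) =
      ∑ c ∈ A.image (Quotient.mk r), (∑ x ∈ A.filter (fun x => Quotient.mk r x = c), f x) ^ 2 := by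
  classical
  have h1 : ∀ x ∈ A, Quotient.mk r x ∈ A.image (Quotient.mk r) := fun x hx =>
    Finset.mem_image_of_mem _ hx
  rw [← Finset.sum_fiberwise_of_maps_to h1]
  refine Finset.sum_congr rfl fun c _ => ?_
  rw [sq, Finset.sum_mul_sum]
  refine Finset.sum_congr rfl fun x hx => ?_
  rw [Finset.sum_filter]
  refine Finset.sum_congr rfl fun y _ => ?_
  rw [Finset.mem_filter] at hx
  have h2 : r x y ↔ Quotient.mk r y = c := by
    rw [← hx.2, Quotient.eq]
    exact ⟨fun h => r.symm h, fun h => r.symm h⟩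
  simp only [h2]

theorem sum_rel_nonneg {α : Type*} (r : Setoid α) [DecidableRel r.r] (A : Finset α) (f : α → ℝ) :
    0 ≤ ∑ x ∈ A, ∑ y ∈ A, (if r x y then f x * f y else 0) := by
  classical
  rw [sum_rel_eq]
  exact Finset.sum_nonneg fun c _ => sq_nonneg _

theorem le_sum_rel {α : Type*} (r : Setoid α) [DecidableRel r.r] (A : Finset α) (f : α → ℝ)
    {x₀ : α} (hx₀ : x₀ ∈ A) :
    (∑ y ∈ A.filter (fun y => r x₀ y), f y) ^ 2 ≤
      ∑ x ∈ A, ∑ y ∈ A, (if r x y then f x * f y else 0) := by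
  classical
  rw [sum_rel_eq]
  have h1 : A.filter (fun y => r x₀ y) = A.filter (fun x => Quotient.mk r x = Quotient.mk r x₀) := by
    refine Finset.filter_congr fun y _ => ?_
    rw [Quotient.eq]
    exact ⟨fun h => r.symm h, fun h => r.symm h⟩
  rw [h1]
  exact Finset.single_le_sum (f := fun c => (∑ x ∈ A.filter (fun x => Quotient.mk r x = c), f x) ^ 2)
    (fun c _ => sq_nonneg _) (Finset.mem_image_of_mem _ hx₀)

namespace Pack

variable {R : Type u} [CommRing R] [IsDedekindDomain R] [Ring.HasFiniteQuotients R] [Infinite R]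
  {S : Type u} [Fintype S] (P : Pack R S)

/-- the setoid of the balls of level `l` -/
def ballSetoid (v : S) (l : ℤ) : Setoid R where
  r := P.Near v l
  iseqv := ⟨fun x => P.near_refl v l x, fun h => near_symm h, fun h h' => near_trans h h'⟩

open scoped Classical in
/-- the off-diagonal gap -/
noncomputable def og (m : S → ℤ) (x y : R) : ℝ := if x = y then 0 else P.gap m x y

theorem og_nonneg (m : S → ℤ) (x y : R) : 0 ≤ P.og m x y := by
  unfold og
  split_ifs with h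
  · exact le_rfl
  · exact P.gap_nonneg_of_ne m h

theorem og_comm (m : S → ℤ) (x y : R) : P.og m x y = P.og m y x := by
  unfold og
  by_cases h : x = y
  · rw [if_pos h, if_pos h.symm]
  · rw [if_neg h, if_neg (fun h' => h h'.symm), P.gap_comm]

open scoped Classical in
theorem kap_eq_og (m : S → ℤ) (x y : R) :
    P.kap m x y = P.ln x y + P.og m x y + (if x = y then (P.deg m : ℝ) else 0) := by
  rw [P.kap_eq]
  unfold og
  by_cases h : x = y
  · subst h
    rw [if_pos rfl, if_pos rfl, P.gap_self]; ring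
  · rw [if_neg h, if_neg h]; ring

/-- the sum of the off-diagonal gaps in `B` -/
noncomputable def Gp (m : S → ℤ) (B : Finset R) : ℝ := ∑ x ∈ B, ∑ y ∈ B, P.og m x y

theorem Gp_nonneg (m : S → ℤ) (B : Finset R) : 0 ≤ P.Gp m B :=
  Finset.sum_nonneg fun _ _ => Finset.sum_nonneg fun _ _ => P.og_nonneg m _ _

open scoped Classical in
/-- the test function `1_B - β 1_A` -/
noncomputable def tf (A B : Finset R) (x : R) : ℝ :=
  (if x ∈ B then 1 else 0) - (B.card : ℝ) / A.card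

/-- minus the energy of the test function -/
noncomputable def Dm (m : S → ℤ) (A B : Finset R) : ℝ :=
  -∑ x ∈ A, ∑ y ∈ A, tf A B x * tf A B y * P.kap m x y

variable {A B : Finset R}

theorem sum_tf (hA : A.Nonempty) (hB : B ⊆ A) : ∑ x ∈ A, tf A B x = 0 := by
  classical
  unfold tf
  rw [Finset.sum_sub_distrib, Finset.sum_const, nsmul_eq_mul, Finset.sum_ite_mem,
    Finset.inter_eq_right.mpr hB, Finset.sum_const, nsmul_eq_mul]
  have : (A.card : ℝ) ≠ 0 := by
    have := hA.card_pos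
    positivity
  field_simp
  ring

/-- expansion of the quadratic form -/
theorem sum_tf_mul (hA : A.Nonempty) (hB : B ⊆ A) (K : R → R → ℝ) (hK : ∀ x y, K x y = K y x) :
    ∑ x ∈ A, ∑ y ∈ A, tf A B x * tf A B y * K x y =
      ∑ x ∈ B, ∑ y ∈ B, K x y - 2 * ((B.card : ℝ) / A.card) * ∑ x ∈ B, ∑ y ∈ A, K x y +
        ((B.card : ℝ) / A.card) ^ 2 * ∑ x ∈ A, ∑ y ∈ A, K x y := by
  classical
  set β : ℝ := (B.card : ℝ) / A.card with hβ
  have h1 : ∀ x y, tf A B x * tf A B y * K x y =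
      (if x ∈ B then (if y ∈ B then K x y else 0) else 0) - β * (if x ∈ B then K x y else 0) -
        β * (if y ∈ B then K x y else 0) + β ^ 2 * K x y := by
    intro x y
    unfold tf
    rw [← hβ]
    split_ifs <;> ring
  simp_rw [h1]
  simp_rw [Finset.sum_add_distrib, Finset.sum_sub_distrib, ← Finset.mul_sum]
  have h2 : ∑ x ∈ A, ∑ y ∈ A, (if x ∈ B then (if y ∈ B then K x y else 0) else 0) =
      ∑ x ∈ B, ∑ y ∈ B, K x y := by
    have h3 : ∀ x ∈ A, ∑ y ∈ A, (if x ∈ B then (if y ∈ B then K x y else 0) else 0) =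
        if x ∈ B then ∑ y ∈ B, K x y else 0 := by
      intro x _
      split_ifs with h
      · rw [Finset.sum_ite_mem, Finset.inter_eq_right.mpr hB]
      · exact Finset.sum_const_zero
    rw [Finset.sum_congr rfl h3, Finset.sum_ite_mem, Finset.inter_eq_right.mpr hB]
  have h3 : ∑ x ∈ A, ∑ y ∈ A, (if x ∈ B then K x y else 0) = ∑ x ∈ B, ∑ y ∈ A, K x y := by
    have h4 : ∀ x ∈ A, ∑ y ∈ A, (if x ∈ B then K x y else 0) =
        if x ∈ B then ∑ y ∈ A, K x y else 0 := by
      intro x _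
      split_ifs with h
      · rfl
      · exact Finset.sum_const_zero
    rw [Finset.sum_congr rfl h4, Finset.sum_ite_mem, Finset.inter_eq_right.mpr hB]
  have h4 : ∑ x ∈ A, ∑ y ∈ A, (if y ∈ B then K x y else 0) = ∑ x ∈ B, ∑ y ∈ A, K x y := by
    rw [Finset.sum_comm, ← h3]
    exact Finset.sum_congr rfl fun x _ => Finset.sum_congr rfl fun y _ => by rw [hK]
  rw [h2, h3, h4]
  ring

/-- **the energy inequality**: the hypotheses hold for optimal sets -/
theorem energy_ineq {C P0 : ℝ} (hA : A.Nonempty)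
    (hpot : ∀ x ∈ A, ∑ b ∈ A, P.ln x b = P0)
    (hen : (B.card : ℝ) ^ 2 * (P.lg B.card - C) ≤ ∑ x ∈ B, ∑ y ∈ B, P.ln x y)
    (hP0 : P0 ≤ A.card * (P.lg A.card + C)) (hB : B ⊆ A) (hBne : B.Nonempty) (m : S → ℤ)
    {t : ℝ} (ht0 : 0 ≤ t) (ht : -(P.deg m : ℝ) ≤ t) :
    P.Gp m B + P.Dm m A B ≤ (B.card : ℝ) ^ 2 * (P.lg A.card - P.lg B.card + 2 * C) +
      t * B.card + 2 * ((B.card : ℝ) / A.card) * ∑ x ∈ B, ∑ y ∈ A, P.og m x y := by
  classical
  have hn : (0 : ℝ) < A.card := by exact_mod_cast hA.card_pos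
  have hb : (0 : ℝ) < B.card := by exact_mod_cast hBne.card_pos
  set β : ℝ := (B.card : ℝ) / A.card with hβ
  have hβ0 : 0 < β := by positivity
  have hβ1 : β ≤ 1 := by
    rw [hβ, div_le_one hn]
    exact_mod_cast Finset.card_le_card hB
  have hrow : ∀ x ∈ A, ∑ y ∈ A, P.kap m x y = P0 + ∑ y ∈ A, P.og m x y + P.deg m := by
    intro x hx
    simp_rw [P.kap_eq_og, Finset.sum_add_distrib]
    rw [hpot x hx, Finset.sum_ite_eq, if_pos hx]
  have hBB : ∑ x ∈ B, ∑ y ∈ B, P.kap m x y = ∑ x ∈ B, ∑ y ∈ B, P.ln x y + P.Gp m B +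
      B.card * P.deg m := by
    simp_rw [P.kap_eq_og, Finset.sum_add_distrib]
    have h1 : ∑ x ∈ B, ∑ y ∈ B, (if x = y then (P.deg m : ℝ) else 0) = B.card * P.deg m := by
      have h2 : ∀ x ∈ B, ∑ y ∈ B, (if x = y then (P.deg m : ℝ) else 0) = P.deg m := by
        intro x hx
        rw [Finset.sum_ite_eq, if_pos hx]
      rw [Finset.sum_congr rfl h2, Finset.sum_const, nsmul_eq_mul]
    rw [h1]
    rfl
  have hBA : ∑ x ∈ B, ∑ y ∈ A, P.kap m x y = B.card * P0 + ∑ x ∈ B, ∑ y ∈ A, P.og m x y +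
      B.card * P.deg m := by
    rw [Finset.sum_congr rfl fun x hx => hrow x (hB hx)]
    simp_rw [Finset.sum_add_distrib, Finset.sum_const, nsmul_eq_mul]
  have hAA : ∑ x ∈ A, ∑ y ∈ A, P.kap m x y = A.card * P0 + P.Gp m A + A.card * P.deg m := by
    rw [Finset.sum_congr rfl fun x hx => hrow x hx]
    simp_rw [Finset.sum_add_distrib, Finset.sum_const, nsmul_eq_mul]
    rfl
  unfold Dm
  rw [sum_tf_mul hA hB _ fun x y => P.kap_comm m x y, ← hβ, hBB, hBA, hAA]
  have hβn : β * A.card = B.card := by rw [hβ]; field_simp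
  have hG := P.Gp_nonneg m A
  have h1 : β ^ 2 * (A.card * P0 + P.Gp m A + A.card * P.deg m) =
      β * (B.card * P0) + β ^ 2 * P.Gp m A + β * (B.card * P.deg m) := by
    rw [← hβn]; ring
  rw [h1]
  have h2 : β * (B.card * P0) ≤ (B.card : ℝ) ^ 2 * (P.lg A.card + C) := by
    have h3 : β * (B.card * P0) ≤ β * (B.card * (A.card * (P.lg A.card + C))) :=
      mul_le_mul_of_nonneg_left (mul_le_mul_of_nonneg_left hP0 hb.le) hβ0.le
    refine h3.trans (le_of_eq ?_)
    have h4 : β * (B.card * (A.card * (P.lg A.card + C))) =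
        (β * A.card) * B.card * (P.lg A.card + C) := by ring
    rw [h4, hβn]; ring
  have h3 : -((1 - β) * (B.card * (P.deg m : ℝ))) ≤ t * B.card := by
    have h4 : -((1 - β) * (B.card * (P.deg m : ℝ))) = (1 - β) * B.card * (-(P.deg m : ℝ)) := by ring
    rw [h4]
    calc (1 - β) * B.card * (-(P.deg m : ℝ)) ≤ (1 - β) * B.card * t :=
          mul_le_mul_of_nonneg_left ht (mul_nonneg (by linarith) hb.le)
      _ ≤ 1 * B.card * t := by
          refine mul_le_mul_of_nonneg_right (mul_le_mul_of_nonneg_right (by linarith) hb.le) ht0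
      _ = t * B.card := by ring
  have h5 : 0 ≤ β ^ 2 * P.Gp m A := by positivity
  nlinarith [h2, h3, h5, hen]

open scoped Classical in
/-- the energy of the test function at one place, by levels -/
theorem neg_sum_cap_eq (hA : A.Nonempty) (hB : B ⊆ A) {v : S} {l : ℤ} {T : ℕ}
    (hT : ∀ x ∈ A, ∀ y ∈ A, P.Near v (l + T) x y) :
    -∑ x ∈ A, ∑ y ∈ A, tf A B x * tf A B y * P.cap v l x y =
      P.d v * ∑ i ∈ range T, ∑ x ∈ A, ∑ y ∈ A,
        (if P.Near v (l + i) x y then tf A B x * tf A B y else 0) := by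
  have h1 : ∀ x ∈ A, ∀ y ∈ A, tf A B x * tf A B y * P.cap v l x y =
      (P.d v * (l + T)) * (tf A B x * tf A B y) -
        P.d v * ∑ i ∈ range T, (if P.Near v (l + i) x y then tf A B x * tf A B y else 0) := by
    intro x hx y hy
    rw [P.cap_eq_sum (hT x hx y hy)]
    have h2 : ∑ i ∈ range T, (if P.Near v (l + i) x y then (0 : ℝ) else 1) =
        T - ∑ i ∈ range T, (if P.Near v (l + i) x y then (1 : ℝ) else 0) := by
      rw [eq_sub_iff_add_eq, ← Finset.sum_add_distrib]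
      have h3 : ∀ i ∈ range T, ((if P.Near v (l + i) x y then (0 : ℝ) else 1) +
          if P.Near v (l + i) x y then (1 : ℝ) else 0) = 1 := by
        intro i _
        split_ifs <;> norm_num
      rw [Finset.sum_congr rfl h3, Finset.sum_const, Finset.card_range, nsmul_eq_mul, mul_one]
    have h3 : ∑ i ∈ range T, (if P.Near v (l + i) x y then tf A B x * tf A B y else 0) =
        (tf A B x * tf A B y) * ∑ i ∈ range T, (if P.Near v (l + i) x y then (1 : ℝ) else 0) := by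
      rw [Finset.mul_sum]
      refine Finset.sum_congr rfl fun i _ => ?_
      split_ifs <;> ring
    rw [h2, h3]
    ring
  rw [Finset.sum_congr rfl fun x hx => Finset.sum_congr rfl fun y hy => h1 x hx y hy]
  simp_rw [Finset.sum_sub_distrib, ← Finset.mul_sum]
  have h2 : ∑ x ∈ A, tf A B x * ∑ y ∈ A, tf A B y = 0 := by
    rw [sum_tf hA hB]; simp
  rw [h2, mul_zero, zero_sub, neg_neg]
  congr 1
  calc ∑ x ∈ A, ∑ y ∈ A, ∑ i ∈ range T,
        (if P.Near v (l + i) x y then tf A B x * tf A B y else 0)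
      = ∑ x ∈ A, ∑ i ∈ range T, ∑ y ∈ A,
        (if P.Near v (l + i) x y then tf A B x * tf A B y else 0) :=
        Finset.sum_congr rfl fun x _ => Finset.sum_comm
    _ = _ := Finset.sum_comm

/-- number of elements of `A` in the `v`-ball of level `l` around `x` -/
noncomputable def cnt (A : Finset R) (v : S) (l : ℤ) (x : R) : ℕ := by
  classical
  exact (A.filter fun y => P.Near v l x y).card

/-- all levels in a finite set are bounded -/
theorem exists_near (A : Finset R) (v : S) (l : ℤ) :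
    ∃ T : ℕ, ∀ T' ≥ T, ∀ x ∈ A, ∀ y ∈ A, P.Near v (l + T') x y := by
  classical
  set F : Finset ℕ := (A ×ˢ A).image fun z => (P.lev v (z.1 - z.2) - l).toNat with hF
  refine ⟨F.sup id, fun T' hT' x hx y hy => Or.inr ?_⟩
  have h1 : (P.lev v (x - y) - l).toNat ≤ F.sup id :=
    Finset.le_sup (f := id) (Finset.mem_image.mpr ⟨(x, y), Finset.mem_product.mpr ⟨hx, hy⟩, rfl⟩)
  have h2 := Int.self_le_toNat (P.lev v (x - y) - l)
  omega

theorem cap_form_nonneg (hA : A.Nonempty) (hB : B ⊆ A) (v : S) (l : ℤ) :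
    0 ≤ -∑ x ∈ A, ∑ y ∈ A, tf A B x * tf A B y * P.cap v l x y := by
  classical
  obtain ⟨T, hT⟩ := P.exists_near A v l
  rw [P.neg_sum_cap_eq hA hB (hT T le_rfl)]
  refine mul_nonneg (by positivity) (Finset.sum_nonneg fun i _ => ?_)
  exact sum_rel_nonneg (P.ballSetoid v (l + i)) A (tf A B)

theorem le_cap_form (hA : A.Nonempty) (hB : B ⊆ A) {v : S} {l : ℤ} {i₁ i₂ : ℕ} {x₀ : R}
    (hx₀ : x₀ ∈ B) (hnear : ∀ b ∈ B, P.Near v (l + i₁) x₀ b) :
    (P.d v : ℝ) * ∑ i ∈ Ico i₁ i₂, ((B.card : ℝ) * (1 - (P.cnt A v (l + i) x₀ : ℝ) / A.card)) ^ 2 ≤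
      -∑ x ∈ A, ∑ y ∈ A, tf A B x * tf A B y * P.cap v l x y := by
  classical
  obtain ⟨T, hT⟩ := P.exists_near A v l
  rw [P.neg_sum_cap_eq hA hB (hT (T + i₂) (by omega))]
  refine mul_le_mul_of_nonneg_left ?_ (by positivity)
  have hsub : Ico i₁ i₂ ⊆ range (T + i₂) := fun i hi => by
    rw [Finset.mem_Ico] at hi
    rw [Finset.mem_range]
    omega
  refine le_trans ?_ (Finset.sum_le_sum_of_subset_of_nonneg hsub fun i _ _ =>
    sum_rel_nonneg (P.ballSetoid v (l + i)) A (tf A B))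
  refine Finset.sum_le_sum fun i hi => ?_
  rw [Finset.mem_Ico] at hi
  refine le_trans (le_of_eq ?_) (le_sum_rel (P.ballSetoid v (l + i)) A (tf A B) (hB hx₀))
  congr 1
  unfold tf
  rw [Finset.sum_sub_distrib, Finset.sum_const, nsmul_eq_mul, ← Finset.sum_filter,
    Finset.sum_const, nsmul_eq_mul, mul_one]
  have h1 : (A.filter fun y => P.ballSetoid v (l + i) x₀ y).filter (fun y => y ∈ B) = B := by
    ext y
    rw [Finset.mem_filter, Finset.mem_filter]
    constructor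
    · exact fun h => h.2
    · intro h
      exact ⟨⟨hB h, near_mono (by omega) (hnear y h)⟩, h⟩
  have h2 : (A.filter fun y => P.ballSetoid v (l + i) x₀ y).card = P.cnt A v (l + i) x₀ := by
    unfold cnt
    rfl
  rw [h1, h2]
  ring

/-- lower bound of the quadratic form for a subset of a ball -/
theorem le_Dm (hA : A.Nonempty) (hB : B ⊆ A) {m : S → ℤ} {v : S} {l₁ l₂ : ℤ} (h₁ : m v ≤ l₁)
    (h₂ : l₁ ≤ l₂) {x₀ : R} (hx₀ : x₀ ∈ B) (hnear : ∀ b ∈ B, P.Near v l₁ x₀ b) {c : ℝ} (hc : 0 ≤ c)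
    (hmass : ∀ l, l₁ ≤ l → l < l₂ → (P.cnt A v l x₀ : ℝ) ≤ (1 - c) * A.card) :
    ((l₂ - l₁ : ℤ) : ℝ) * c ^ 2 * (B.card : ℝ) ^ 2 ≤ P.Dm m A B := by
  classical
  have hn : (0 : ℝ) < A.card := by exact_mod_cast hA.card_pos
  obtain ⟨i₁, hi₁⟩ := Int.le.dest h₁
  obtain ⟨i, hi⟩ := Int.le.dest h₂
  have h1 : P.Dm m A B = ∑ w, -∑ x ∈ A, ∑ y ∈ A, tf A B x * tf A B y * P.cap w (m w) x y := by
    unfold Dm kap
    rw [Finset.sum_neg_distrib]
    congr 1
    simp_rw [Finset.mul_sum]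
    calc ∑ x ∈ A, ∑ y ∈ A, ∑ w, tf A B x * tf A B y * P.cap w (m w) x y
        = ∑ x ∈ A, ∑ w, ∑ y ∈ A, tf A B x * tf A B y * P.cap w (m w) x y :=
          Finset.sum_congr rfl fun x _ => Finset.sum_comm
      _ = _ := Finset.sum_comm
  rw [h1]
  refine le_trans ?_ (Finset.single_le_sum (f := fun w =>
    -∑ x ∈ A, ∑ y ∈ A, tf A B x * tf A B y * P.cap w (m w) x y)
    (fun w _ => P.cap_form_nonneg hA hB w (m w)) (Finset.mem_univ v))
  refine le_trans ?_ (P.le_cap_form hA hB (i₁ := i₁) (i₂ := i₁ + i) hx₀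
    (fun b hb => by rw [hi₁]; exact hnear b hb))
  have h2 : ∀ k ∈ Ico i₁ (i₁ + i), c ^ 2 * (B.card : ℝ) ^ 2 ≤
      ((B.card : ℝ) * (1 - (P.cnt A v (m v + k) x₀ : ℝ) / A.card)) ^ 2 := by
    intro k hk
    rw [Finset.mem_Ico] at hk
    have h3 := hmass (m v + k) (by omega) (by omega)
    have h4 : c ≤ 1 - (P.cnt A v (m v + k) x₀ : ℝ) / A.card := by
      have : (P.cnt A v (m v + k) x₀ : ℝ) / A.card ≤ 1 - c := by
        rw [div_le_iff₀ hn]; exact h3
      linarith
    have h5 : c * B.card ≤ (B.card : ℝ) * (1 - (P.cnt A v (m v + k) x₀ : ℝ) / A.card) := by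
      rw [mul_comm]
      exact mul_le_mul_of_nonneg_left h4 (by positivity)
    calc c ^ 2 * (B.card : ℝ) ^ 2 = (c * B.card) ^ 2 := by ring
      _ ≤ _ := pow_le_pow_left₀ (by positivity) h5 2
  have h3 := Finset.sum_le_sum h2
  rw [Finset.sum_const, Nat.card_Ico, nsmul_eq_mul] at h3
  have h4 : ((l₂ - l₁ : ℤ) : ℝ) = ((i₁ + i - i₁ : ℕ) : ℝ) := by
    have : l₂ - l₁ = (i : ℤ) := by omega
    rw [this, Nat.add_sub_cancel_left]
    push_cast
    rfl
  rw [h4, mul_assoc]
  refine h3.trans ?_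
  have h5 : (1 : ℝ) ≤ P.d v := by exact_mod_cast P.one_le_d v
  refine le_mul_of_one_le_left (Finset.sum_nonneg fun _ _ => sq_nonneg _) h5

theorem Dm_nonneg (hA : A.Nonempty) (hB : B ⊆ A) (m : S → ℤ) : 0 ≤ P.Dm m A B := by
  have h1 : P.Dm m A B = ∑ w, -∑ x ∈ A, ∑ y ∈ A, tf A B x * tf A B y * P.cap w (m w) x y := by
    unfold Dm kap
    rw [Finset.sum_neg_distrib]
    congr 1
    simp_rw [Finset.mul_sum]
    calc ∑ x ∈ A, ∑ y ∈ A, ∑ w, tf A B x * tf A B y * P.cap w (m w) x y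
        = ∑ x ∈ A, ∑ w, ∑ y ∈ A, tf A B x * tf A B y * P.cap w (m w) x y :=
          Finset.sum_congr rfl fun x _ => Finset.sum_comm
      _ = _ := Finset.sum_comm
  rw [h1]
  exact Finset.sum_nonneg fun w _ => P.cap_form_nonneg hA hB w (m w)

end Pack

end Pool.Agent.Work.MP_b29d7f_nt.FF
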