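import Pool.Agent.Work.MP_b29d7f_nt.FF.TightA

/-!
# Tightness II: the total gap at a level where all balls have small mass
-/

set_option linter.unusedSectionVars false

namespace Pool.Agent.Work.MP_b29d7f_nt.FF

open Finset
open Pool.Agent.Work.MP_b29d7f_nt.Ded

universe u

namespace Pack

variable {R : Type u} [CommRing R] [IsDedekindDomain R] [Ring.HasFiniteQuotients R] [Infinite R]
  {S : Type u} [Fintype S] (P : Pack R S)

/-- the facts about `A` used for tightness -/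
structure TH (A : Finset R) (C P0 : ℝ) : Prop where
  ne : A.Nonempty
  C0 : 0 ≤ C
  pot : ∀ x ∈ A, ∑ b ∈ A, P.ln x b = P0
  en : ∀ B : Finset R, B.Nonempty →
    (B.card : ℝ) ^ 2 * (P.lg B.card - C) ≤ ∑ x ∈ B, ∑ y ∈ B, P.ln x y
  P0le : P0 ≤ A.card * (P.lg A.card + C)

theorem log_q_pos : 0 < Real.log P.q := Real.log_pos P.one_lt_q'

theorem lg_mul {x y : ℝ} (hx : x ≠ 0) (hy : y ≠ 0) : P.lg (x * y) = P.lg x + P.lg y :=
  Real.logb_mul hx hy

theorem lg_div {x y : ℝ} (hx : x ≠ 0) (hy : y ≠ 0) : P.lg (x / y) = P.lg x - P.lg y :=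
  Real.logb_div hx hy

theorem lg_one : P.lg 1 = 0 := Real.logb_one

theorem lg_inv (x : ℝ) : P.lg x⁻¹ = -P.lg x := Real.logb_inv _ _

theorem lg_pow (n : ℕ) : P.lg ((P.q : ℝ) ^ n) = n := by
  unfold lg
  rw [Real.logb_pow, Real.logb_self_eq_one P.one_lt_q', mul_one]

theorem lg_zpow (n : ℤ) : P.lg ((P.q : ℝ) ^ n) = n := by
  unfold lg Real.logb
  rw [Real.log_zpow]
  have := P.log_q_pos.ne'
  field_simp

theorem lg_mono {x y : ℝ} (hx : 0 < x) (h : x ≤ y) : P.lg x ≤ P.lg y :=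
  Real.logb_le_logb_of_le P.one_lt_q' hx h

theorem lg_nonneg {x : ℝ} (h : 1 ≤ x) : 0 ≤ P.lg x := Real.logb_nonneg P.one_lt_q' h

/-- `β ↦ β (lg (1/β) + K)` is increasing on `(0, 1/4]` -/
theorem eta_mono {β b K : ℝ} (hβ : 0 < β) (hb : β ≤ b) (hb4 : b ≤ 1 / 4) (hK : 0 ≤ K) :
    β * (P.lg (1 / β) + K) ≤ b * (P.lg (1 / b) + K) := by
  have hb0 : 0 < b := lt_of_lt_of_le hβ hb
  have he : Real.exp 1 ≤ 1 / b := by
    have h1 : Real.exp 1 < 2.7182818286 := Real.exp_one_lt_d9
    have h2 : (4 : ℝ) ≤ 1 / b := by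
      rw [le_div_iff₀ hb0]; linarith
    linarith
  have he' : (1 : ℝ) / b ≤ 1 / β := one_div_le_one_div_of_le hβ hb
  have h1 := Real.log_div_self_antitoneOn (show Real.exp 1 ≤ 1 / b from he)
    (show Real.exp 1 ≤ 1 / β from he.trans he') he'
  simp only at h1
  have h2 : β * Real.log (1 / β) ≤ b * Real.log (1 / b) := by
    have h3 : Real.log (1 / β) / (1 / β) = β * Real.log (1 / β) := by field_simp
    have h4 : Real.log (1 / b) / (1 / b) = b * Real.log (1 / b) := by field_simp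
    rwa [h3, h4] at h1
  have h3 : β * P.lg (1 / β) ≤ b * P.lg (1 / b) := by
    unfold lg Real.logb
    rw [← mul_div_assoc, ← mul_div_assoc]
    exact div_le_div_of_nonneg_right h2 P.log_q_pos.le
  rw [mul_add, mul_add]
  exact add_le_add h3 (mul_le_mul_of_nonneg_right hb hK)

variable {P}

theorem TH.star {A : Finset R} {C P0 : ℝ} (H : P.TH A C P0) {B : Finset R} (hB : B ⊆ A)
    (hBne : B.Nonempty) (m : S → ℤ) {t : ℝ} (ht0 : 0 ≤ t) (ht : -(P.deg m : ℝ) ≤ t) :
    P.Gp m B + P.Dm m A B ≤ (B.card : ℝ) ^ 2 * (P.lg A.card - P.lg B.card + 2 * C) +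
      t * B.card + 2 * ((B.card : ℝ) / A.card) * ∑ x ∈ B, ∑ y ∈ A, P.og m x y :=
  P.energy_ineq H.ne H.pot (H.en B hBne) H.P0le hB hBne m ht0 ht

variable (P)

open scoped Classical in
/-- the cluster of `x` -/
noncomputable def clu (A : Finset R) (v : S) (l : ℤ) (x : R) : Finset R :=
  A.filter fun y => P.Near v l x y

theorem mem_clu {A : Finset R} {v : S} {l : ℤ} {x y : R} :
    y ∈ P.clu A v l x ↔ y ∈ A ∧ P.Near v l x y := by
  classical
  unfold clu; rw [Finset.mem_filter]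

theorem clu_subset (A : Finset R) (v : S) (l : ℤ) (x : R) : P.clu A v l x ⊆ A := fun y hy =>
  (P.mem_clu.mp hy).1

theorem card_clu (A : Finset R) (v : S) (l : ℤ) (x : R) : (P.clu A v l x).card = P.cnt A v l x := by
  unfold clu cnt
  rfl

theorem self_mem_clu {A : Finset R} {v : S} {l : ℤ} {x : R} (hx : x ∈ A) : x ∈ P.clu A v l x :=
  P.mem_clu.mpr ⟨hx, P.near_refl _ _ _⟩

theorem clu_eq {A : Finset R} {v : S} {l : ℤ} {x y : R} (h : P.Near v l x y) :
    P.clu A v l x = P.clu A v l y := by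
  ext z
  rw [P.mem_clu, P.mem_clu]
  exact and_congr_right fun _ => ⟨fun h' => near_trans (near_symm h) h', fun h' => near_trans h h'⟩

open scoped Classical in
theorem sum_clusters (A : Finset R) (v : S) (l : ℤ) (F : R → ℝ) :
    ∑ B ∈ A.image (P.clu A v l), ∑ x ∈ B, F x = ∑ x ∈ A, F x := by
  rw [← Finset.sum_fiberwise_of_maps_to (g := P.clu A v l)
    (fun x hx => Finset.mem_image_of_mem _ hx)]
  refine Finset.sum_congr rfl fun B hB => ?_
  obtain ⟨x₀, hx₀, rfl⟩ := Finset.mem_image.mp hB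
  refine Finset.sum_congr ?_ fun _ _ => rfl
  ext y
  rw [P.mem_clu, Finset.mem_filter]
  refine and_congr_right fun hy => ⟨fun h => (P.clu_eq h).symm, fun h => ?_⟩
  have h1 := P.self_mem_clu (v := v) (l := l) hy
  rw [h] at h1
  exact (P.mem_clu.mp h1).2

open scoped Classical in
theorem sum_Gp_clusters (A : Finset R) (m : S → ℤ) (v : S) (l : ℤ) :
    ∑ B ∈ A.image (P.clu A v l), P.Gp m B =
      ∑ x ∈ A, ∑ y ∈ A, (if P.Near v l x y then P.og m x y else 0) := by
  rw [← P.sum_clusters A v l]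
  refine Finset.sum_congr rfl fun B hB => ?_
  obtain ⟨x₀, hx₀, rfl⟩ := Finset.mem_image.mp hB
  refine Finset.sum_congr rfl fun x hx => ?_
  rw [← Finset.sum_filter]
  have h1 : P.clu A v l x₀ = A.filter (fun y => P.Near v l x y) := by
    rw [P.clu_eq (P.mem_clu.mp hx).2]
    rfl
  rw [h1]

open scoped Classical in
theorem og_le_sum (m : S → ℤ) (x y : R) :
    P.og m x y ≤ ∑ v, (if P.Near v (m v) x y then P.og m x y else 0) := by
  have hnn : ∀ v ∈ (univ : Finset S), 0 ≤ (if P.Near v (m v) x y then P.og m x y else 0) := by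
    intro v _
    split_ifs
    · exact P.og_nonneg m x y
    · exact le_rfl
  by_cases hxy : x = y
  · have : P.og m x y = 0 := by unfold og; rw [if_pos hxy]
    rw [this]
    exact (Finset.sum_nonneg fun v hv => by split_ifs <;> exact le_rfl)
  · by_cases h : ∃ v, P.Near v (m v - 1) x y
    · obtain ⟨v, hv⟩ := h
      have h1 : P.Near v (m v) x y := near_mono (by omega) hv
      refine le_trans (le_of_eq ?_) (Finset.single_le_sum hnn (Finset.mem_univ v))
      rw [if_pos h1]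
    · push Not at h
      have h1 : P.og m x y = 0 := by
        unfold og; rw [if_neg hxy, P.gap_eq_zero hxy h]
      rw [h1]
      exact (Finset.sum_nonneg fun v hv => by split_ifs <;> exact le_rfl)

open scoped Classical in
theorem Gp_le_sum_clusters (A : Finset R) (m : S → ℤ) :
    P.Gp m A ≤ ∑ v, ∑ B ∈ A.image (P.clu A v (m v)), P.Gp m B := by
  have h1 : P.Gp m A ≤ ∑ x ∈ A, ∑ y ∈ A, ∑ v, (if P.Near v (m v) x y then P.og m x y else 0) :=
    Finset.sum_le_sum fun x _ => Finset.sum_le_sum fun y _ => P.og_le_sum m x y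
  refine h1.trans (le_of_eq ?_)
  have h2 : ∑ x ∈ A, ∑ y ∈ A, ∑ v, (if P.Near v (m v) x y then P.og m x y else 0) =
      ∑ v, ∑ x ∈ A, ∑ y ∈ A, (if P.Near v (m v) x y then P.og m x y else 0) := by
    rw [Finset.sum_comm]
    calc ∑ y ∈ A, ∑ x ∈ A, ∑ v, (if P.Near v (m v) x y then P.og m x y else 0)
        = ∑ y ∈ A, ∑ v, ∑ x ∈ A, (if P.Near v (m v) x y then P.og m x y else 0) :=
          Finset.sum_congr rfl fun y _ => Finset.sum_comm
      _ = ∑ v, ∑ y ∈ A, ∑ x ∈ A, (if P.Near v (m v) x y then P.og m x y else 0) :=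
          Finset.sum_comm
      _ = _ := Finset.sum_congr rfl fun v _ => Finset.sum_comm
  rw [h2]
  refine Finset.sum_congr rfl fun v _ => ?_
  rw [← P.sum_Gp_clusters]

variable {P}

/-- **T1**: the total gap at a level where all balls have mass at most `b` -/
theorem TH.Gp_le [Nonempty S] {A : Finset R} {C P0 : ℝ} (H : P.TH A C P0) (m : S → ℤ) {t b : ℝ}
    (ht0 : 0 ≤ t) (ht : -(P.deg m : ℝ) ≤ t) (hb : b ≤ 1 / (4 * Fintype.card S))
    (hmass : ∀ v, ∀ x ∈ A, (P.cnt A v (m v) x : ℝ) ≤ b * A.card) :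
    P.Gp m A ≤ 2 * Fintype.card S * ((A.card : ℝ) ^ 2 * (b * (P.lg (1 / b) + 2 * C)) +
      t * A.card) := by
  classical
  have hn : (0 : ℝ) < A.card := by exact_mod_cast H.ne.card_pos
  have hs : (1 : ℝ) ≤ Fintype.card S := by exact_mod_cast Fintype.card_pos
  have hb4 : b ≤ 1 / 4 := by
    refine hb.trans (one_div_le_one_div_of_le (by norm_num) (by linarith))
  set G := P.Gp m A with hG
  have hG0 : 0 ≤ G := P.Gp_nonneg m A
  -- one cluster
  have key : ∀ v, ∀ B ∈ A.image (P.clu A v (m v)), P.Gp m B ≤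
      ∑ x ∈ B, (A.card * (b * (P.lg (1 / b) + 2 * C)) + t + 2 * b * ∑ y ∈ A, P.og m x y) := by
    intro v B hB
    obtain ⟨x₀, hx₀, rfl⟩ := Finset.mem_image.mp hB
    set B := P.clu A v (m v) x₀ with hBdef
    have hBA : B ⊆ A := P.clu_subset A v (m v) x₀
    have hBne : B.Nonempty := ⟨x₀, P.self_mem_clu hx₀⟩
    have hBpos : (0 : ℝ) < B.card := by exact_mod_cast hBne.card_pos
    have hBm : (B.card : ℝ) ≤ b * A.card := by
      rw [hBdef, P.card_clu]; exact hmass v x₀ hx₀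
    have h1 := H.star hBA hBne m ht0 ht
    have h2 := P.Dm_nonneg H.ne hBA m
    set β : ℝ := (B.card : ℝ) / A.card with hβ
    have hβ0 : 0 < β := by positivity
    have hβb : β ≤ b := by rw [hβ, div_le_iff₀ hn]; exact hBm
    have hβB : β * A.card = B.card := by rw [hβ]; field_simp
    have h3 : P.lg A.card - P.lg B.card = P.lg (1 / β) := by
      rw [hβ, one_div_div, P.lg_div hn.ne' hBpos.ne']
    have h4 := P.eta_mono hβ0 hβb hb4 (K := 2 * C) (by have := H.C0; linarith)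
    rw [h3] at h1
    have h5 : (B.card : ℝ) ^ 2 * (P.lg (1 / β) + 2 * C) ≤
        B.card * (A.card * (b * (P.lg (1 / b) + 2 * C))) := by
      have h6 : (B.card : ℝ) ^ 2 * (P.lg (1 / β) + 2 * C) =
          B.card * (A.card * (β * (P.lg (1 / β) + 2 * C))) := by
        rw [sq]
        nth_rewrite 2 [← hβB]
        ring
      rw [h6]
      exact mul_le_mul_of_nonneg_left (mul_le_mul_of_nonneg_left h4 hn.le) hBpos.le
    have h7 : 2 * β * ∑ x ∈ B, ∑ y ∈ A, P.og m x y ≤ 2 * b * ∑ x ∈ B, ∑ y ∈ A, P.og m x y := by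
      refine mul_le_mul_of_nonneg_right (by linarith) ?_
      exact Finset.sum_nonneg fun _ _ => Finset.sum_nonneg fun _ _ => P.og_nonneg m _ _
    rw [Finset.sum_add_distrib, Finset.sum_const, nsmul_eq_mul, ← Finset.mul_sum]
    nlinarith [h1, h2, h5, h7]
  have h1 : G ≤ ∑ v : S, ∑ x ∈ A,
      (A.card * (b * (P.lg (1 / b) + 2 * C)) + t + 2 * b * ∑ y ∈ A, P.og m x y) := by
    refine (P.Gp_le_sum_clusters A m).trans (Finset.sum_le_sum fun v _ => ?_)
    rw [← P.sum_clusters A v (m v)]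
    exact Finset.sum_le_sum fun B hB => key v B hB
  rw [Finset.sum_const, Finset.card_univ, nsmul_eq_mul, Finset.sum_add_distrib, Finset.sum_const,
    nsmul_eq_mul, ← Finset.mul_sum] at h1
  have h2 : ∑ x ∈ A, ∑ y ∈ A, P.og m x y = G := rfl
  rw [h2] at h1
  have h3 : (Fintype.card S : ℝ) * (2 * b * G) ≤ G / 2 := by
    have h4 : (Fintype.card S : ℝ) * b ≤ 1 / 4 := by
      rw [le_div_iff₀ (by positivity)] at hb
      linarith
    nlinarith
  nlinarith [h1, h3]

end Pack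

end Pool.Agent.Work.MP_b29d7f_nt.FF
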