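import Pool.Agent.Work.MP_b29d7f_nt.FF.TightB

/-!
# Tightness III: the concentration scales
-/

set_option linter.unusedSectionVars false

namespace Pool.Agent.Work.MP_b29d7f_nt.FF

open Finset
open Pool.Agent.Work.MP_b29d7f_nt.Ded

universe u

namespace Pack

variable {R : Type u} [CommRing R] [IsDedekindDomain R] [Ring.HasFiniteQuotients R] [Infinite R]
  {S : Type u} [Fintype S] (P : Pack R S)

theorem cnt_mono (A : Finset R) {v : S} {l l' : ℤ} (h : l ≤ l') (x : R) :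
    P.cnt A v l x ≤ P.cnt A v l' x := by
  classical
  unfold cnt
  exact Finset.card_le_card (Finset.monotone_filter_right A fun y _ hy => near_mono h hy)

theorem cnt_le (A : Finset R) (v : S) (l : ℤ) (x : R) : P.cnt A v l x ≤ A.card := by
  classical
  unfold cnt
  exact Finset.card_filter_le _ _

/-- balls of very small level are singletons -/
theorem exists_small (A : Finset R) (v : S) :
    ∃ T : ℤ, ∀ l ≤ T, ∀ x ∈ A, P.cnt A v l x = 1 := by
  classical
  set F : Finset ℕ := (A ×ˢ A).image fun z => (-P.lev v (z.1 - z.2)).toNat with hF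
  refine ⟨-(F.sup id : ℕ) - 1, fun l hl x hx => ?_⟩
  unfold cnt
  rw [Finset.card_eq_one]
  refine ⟨x, ?_⟩
  ext y
  rw [Finset.mem_filter, Finset.mem_singleton]
  constructor
  · rintro ⟨hy, h | h⟩
    · exact h.symm
    · exfalso
      have h1 : (-P.lev v (x - y)).toNat ≤ F.sup id :=
        Finset.le_sup (f := id) (Finset.mem_image.mpr ⟨(x, y), Finset.mem_product.mpr ⟨hx, hy⟩, rfl⟩)
      have h2 := Int.self_le_toNat (-P.lev v (x - y))
      omega
  · rintro rfl
    exact ⟨hx, P.near_refl _ _ _⟩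

/-- balls of very large level contain everything -/
theorem exists_large (A : Finset R) (v : S) :
    ∃ T : ℤ, ∀ l, T ≤ l → ∀ x ∈ A, P.cnt A v l x = A.card := by
  classical
  obtain ⟨T, hT⟩ := P.exists_near A v 0
  refine ⟨T, fun l hl x hx => ?_⟩
  unfold cnt
  rw [Finset.filter_true_of_mem]
  intro y hy
  have h1 := hT l.toNat (by omega) x hx y hy
  have h2 : (0 : ℤ) + (l.toNat : ℤ) = l := by omega
  rwa [h2] at h1

theorem exists_b {A : Finset R} (hA : A.Nonempty) (v : S) {c : ℝ} (hc : 1 ≤ c * A.card)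
    (hc1 : c < 1) : ∃ b : ℤ, (∀ x ∈ A, (P.cnt A v b x : ℝ) ≤ c * A.card) ∧
      ∃ x ∈ A, c * A.card < P.cnt A v (b + 1) x := by
  have hn : (0 : ℝ) < A.card := by exact_mod_cast hA.card_pos
  obtain ⟨T₁, hT₁⟩ := P.exists_small A v
  obtain ⟨T₂, hT₂⟩ := P.exists_large A v
  obtain ⟨x₀, hx₀⟩ := hA
  obtain ⟨b, hb, hmax⟩ := Int.exists_greatest_of_bdd
    (P := fun l => ∀ x ∈ A, (P.cnt A v l x : ℝ) ≤ c * A.card)
    ⟨T₂, fun l hl => by
      by_contra hcon
      push Not at hcon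
      have h1 := hl x₀ hx₀
      rw [hT₂ l hcon.le x₀ hx₀] at h1
      nlinarith⟩
    ⟨T₁, fun x hx => by rw [hT₁ T₁ le_rfl x hx]; simpa using hc⟩
  refine ⟨b, hb, ?_⟩
  by_contra hcon
  push Not at hcon
  have := hmax (b + 1) hcon
  omega

theorem exists_t {A : Finset R} (hA : A.Nonempty) (v : S) {c : ℝ} (hc : 1 < c * A.card)
    (hc1 : c ≤ 1) : ∃ t : ℤ, (∃ x ∈ A, c * A.card ≤ P.cnt A v t x) ∧
      ∀ l < t, ∀ x ∈ A, (P.cnt A v l x : ℝ) < c * A.card := by
  have hn : (0 : ℝ) < A.card := by exact_mod_cast hA.card_pos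
  obtain ⟨T₁, hT₁⟩ := P.exists_small A v
  obtain ⟨T₂, hT₂⟩ := P.exists_large A v
  obtain ⟨x₀, hx₀⟩ := hA
  obtain ⟨t, ht, hmin⟩ := Int.exists_least_of_bdd
    (P := fun l => ∃ x ∈ A, c * A.card ≤ P.cnt A v l x)
    ⟨T₁, fun l hl => by
      by_contra hcon
      push Not at hcon
      obtain ⟨x, hx, h1⟩ := hl
      rw [hT₁ l hcon.le x hx] at h1
      push_cast at h1
      linarith⟩
    ⟨T₂, x₀, hx₀, by rw [hT₂ T₂ le_rfl x₀ hx₀]; nlinarith⟩
  refine ⟨t, ht, fun l hl x hx => ?_⟩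
  by_contra hcon
  push Not at hcon
  have := hmin l ⟨x, hx, hcon⟩
  omega

/-- large balls at all places force a large degree -/
theorem card_le_box [Nonempty S] {A : Finset R} (t : S → ℤ)
    (ht : ∀ v, ∃ x ∈ A, (1 - 2 * (1 / (4 * Fintype.card S) : ℝ)) * A.card ≤ P.cnt A v (t v) x)
    (hA : A.Nonempty) : (A.card : ℝ) / 2 ≤ (P.box ⊤ t).card := by
  classical
  have hn : (0 : ℝ) < A.card := by exact_mod_cast hA.card_pos
  have hs : (0 : ℝ) < Fintype.card S := by exact_mod_cast Fintype.card_pos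
  choose x hx hcnt using ht
  set W := A.filter fun y => ∀ v, P.Near v (t v) (x v) y with hW
  have h1 : A ⊆ W ∪ univ.biUnion fun v => A.filter fun y => ¬ P.Near v (t v) (x v) y := by
    intro y hy
    rw [Finset.mem_union, Finset.mem_biUnion]
    by_cases h : ∀ v, P.Near v (t v) (x v) y
    · exact Or.inl (Finset.mem_filter.mpr ⟨hy, h⟩)
    · push Not at h
      obtain ⟨v, hv⟩ := h
      exact Or.inr ⟨v, Finset.mem_univ v, Finset.mem_filter.mpr ⟨hy, hv⟩⟩
  have h2 : ∀ v, ((A.filter fun y => ¬ P.Near v (t v) (x v) y).card : ℝ) ≤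
      2 * (1 / (4 * Fintype.card S)) * A.card := by
    intro v
    have h3 := Finset.card_filter_add_card_filter_not (s := A) (fun y => P.Near v (t v) (x v) y)
    have h4 : P.cnt A v (t v) (x v) = (A.filter fun y => P.Near v (t v) (x v) y).card := rfl
    have h5 := hcnt v
    rw [h4] at h5
    have h6 : ((A.filter fun y => P.Near v (t v) (x v) y).card : ℝ) +
        (A.filter fun y => ¬ P.Near v (t v) (x v) y).card = A.card := by exact_mod_cast h3
    linarith
  have h3 : (A.card : ℝ) ≤ W.card + ∑ _v : S, (2 * (1 / (4 * (Fintype.card S : ℝ))) * A.card : ℝ) := by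
    have h4 : (A.card : ℝ) ≤ (W.card : ℝ) +
        ∑ v : S, ((A.filter fun y => ¬ P.Near v (t v) (x v) y).card : ℝ) := by
      have := (Finset.card_le_card h1).trans ((Finset.card_union_le _ _).trans
        (Nat.add_le_add_left Finset.card_biUnion_le _))
      exact_mod_cast this
    exact h4.trans (add_le_add le_rfl (Finset.sum_le_sum fun v _ => h2 v))
  rw [Finset.sum_const, Finset.card_univ, nsmul_eq_mul] at h3
  have h4 : (Fintype.card S : ℝ) * (2 * (1 / (4 * Fintype.card S)) * A.card) = A.card / 2 := by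
    field_simp; ring
  rw [h4] at h3
  have hWne : W.Nonempty := by
    rw [← Finset.card_pos]
    have : (0 : ℝ) < W.card := by linarith
    exact_mod_cast this
  obtain ⟨w₀, hw₀⟩ := hWne
  have h5 : W.card ≤ (P.box ⊤ t).card := by
    refine Finset.card_le_card_of_injOn (fun y => y - w₀) ?_ ?_
    · intro y hy
      rw [Finset.mem_coe, hW, Finset.mem_filter] at hy
      rw [hW, Finset.mem_filter] at hw₀
      rw [Finset.mem_coe, P.mem_box']
      exact ⟨trivial, fun v => near_sub_zero.mpr (near_trans (near_symm (hy.2 v)) (hw₀.2 v))⟩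
    · intro y _ y' _ h
      exact sub_left_injective h
  have h6 : (W.card : ℝ) ≤ (P.box ⊤ t).card := by exact_mod_cast h5
  linarith

variable {P}

/-- **T2**: the scale below which all balls have small mass has large degree -/
theorem exists_scale [Nonempty S] (P : Pack R S) (C : ℝ) : ∃ K : ℝ, 0 ≤ K ∧ ∀ (A : Finset R)
    (P0 : ℝ), P.TH A C P0 → K ≤ A.card → ∃ b : S → ℤ,
      (∀ v, ∀ x ∈ A, (P.cnt A v (b v) x : ℝ) ≤ 1 / (4 * Fintype.card S) * A.card) ∧
        P.lg A.card - K ≤ P.deg b := by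
  classical
  have hs : (1 : ℝ) ≤ Fintype.card S := by exact_mod_cast Fintype.card_pos
  set s : ℝ := (Fintype.card S : ℝ) with hsdef
  set θ : ℝ := 1 / (4 * s) with hθ
  have hθ0 : 0 < θ := by positivity
  have hθ4 : θ ≤ 1 / 4 := one_div_le_one_div_of_le (by norm_num) (by linarith)
  obtain ⟨c₁, hc₁⟩ := P.exists_card_box_le
  by_cases hC0 : 0 ≤ C
  swap
  · exact ⟨0, le_rfl, fun A P0 H _ => absurd H.C0 hC0⟩
  set η : ℝ := θ * (P.lg (1 / θ) + 2 * C) with hη
  have hlgθ : 0 ≤ P.lg (1 / θ) := P.lg_nonneg (by rw [le_div_iff₀ hθ0]; linarith)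
  have hη0 : 0 ≤ η := by positivity
  -- constants
  set K₀ : ℝ := P.lg (1 / θ) + 2 * C + 4 * s / θ * η with hK₀
  set K₀' : ℝ := 1 / θ + 4 * s / θ with hK₀'
  have hK₀0 : 0 ≤ K₀ := by positivity
  have hK₀'0 : 0 ≤ K₀' := by positivity
  set K₁ : ℝ := 1 + (K₀ + K₀') / (2 * θ) ^ 2 with hK₁
  have hK₁0 : 0 ≤ K₁ := by positivity
  set sd : ℝ := ∑ v, (P.d v : ℝ) with hsd
  have hsd0 : 0 ≤ sd := Finset.sum_nonneg fun _ _ => by positivity
  set K₂ : ℝ := K₁ * sd with hK₂
  have hK₂0 : 0 ≤ K₂ := by positivity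
  set K : ℝ := K₂ + P.lg 2 + |(P.χ : ℝ)| + 8 * s + 2 * (P.q : ℝ) ^ c₁ + 2 * (P.q : ℝ) ^ (K₂ + |(P.χ : ℝ)|) + 2
    with hK
  have hlg2 : 0 ≤ P.lg 2 := P.lg_nonneg (by norm_num)
  have hqc : 0 < (P.q : ℝ) ^ c₁ := pow_pos P.q_pos' _
  have hqr : 0 < (P.q : ℝ) ^ (K₂ + |(P.χ : ℝ)|) := Real.rpow_pos_of_pos P.q_pos' _
  have hχ0 := abs_nonneg (P.χ : ℝ)
  refine ⟨K, by positivity, fun A P0 H hKn => ?_⟩
  have hn : (0 : ℝ) < A.card := by exact_mod_cast H.ne.card_pos
  set n : ℝ := (A.card : ℝ) with hndef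
  have hns : 8 * s ≤ n := by linarith
  have hθn : 2 ≤ θ * n := by
    rw [hθ, div_mul_eq_mul_div, one_mul, le_div_iff₀ (by positivity)]
    linarith
  have hb := fun v => P.exists_b H.ne v (c := θ) (by linarith) (by linarith)
  choose b hb1 hb2 using hb
  have hdouble : (1 - 2 * θ) * n ≥ n / 2 := by nlinarith
  have ht := fun v => P.exists_t H.ne v (c := 1 - 2 * θ) (by nlinarith) (by linarith)
  choose t ht1 ht2 using ht
  -- the degree of `t`
  have hbox := P.card_le_box t ht1 H.ne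
  have hdegt : P.lg n - P.lg 2 - P.χ ≤ P.deg t := by
    have h1 := hc₁ ⊤ top_ne_bot t
    rw [P.dg_top] at h1
    have h2 := hbox.trans h1
    have h3 : (P.q : ℝ) ^ c₁ < n / 2 := by linarith
    rcases le_max_iff.mp h2 with h4 | h4
    · have h5 := P.lg_mono (by positivity) h4
      rw [P.lg_zpow, P.lg_div hn.ne' (by norm_num)] at h5
      push_cast at h5
      linarith
    · linarith
  set τ : ℝ := max 0 (-(P.deg b : ℝ)) with hτ
  have hτ0 : 0 ≤ τ := le_max_left _ _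
  -- the total gap at level `b`
  have hG := H.Gp_le b hτ0 (le_max_right _ _) (b := θ) le_rfl hb1
  rw [← hη, ← hsdef, ← hndef] at hG
  have hdiff : ∀ v, ((t v - b v : ℤ) : ℝ) ≤ K₁ * (1 + τ / n) := by
    intro v
    obtain ⟨x₀, hx₀, hx₀c⟩ := hb2 v
    set B := P.clu A v (b v + 1) x₀ with hB
    have hBA : B ⊆ A := P.clu_subset A v (b v + 1) x₀
    have hBne : B.Nonempty := ⟨x₀, P.self_mem_clu hx₀⟩
    have hBc : θ * n < B.card := by rw [hB, P.card_clu]; exact hx₀c
    have hBpos : (0 : ℝ) < B.card := by exact_mod_cast hBne.card_pos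
    have hle : b v + 1 ≤ t v := by
      by_contra hcon
      push Not at hcon
      obtain ⟨x₁, hx₁, hx₁c⟩ := ht1 v
      have h1 : P.cnt A v (t v) x₁ ≤ P.cnt A v (b v) x₁ := P.cnt_mono A (by omega) x₁
      have h2 := hb1 v x₁ hx₁
      have h3 : (P.cnt A v (t v) x₁ : ℝ) ≤ P.cnt A v (b v) x₁ := by exact_mod_cast h1
      nlinarith
    have hD := P.le_Dm H.ne hBA (m := b) (v := v) (l₁ := b v + 1) (l₂ := t v) (by omega) hle
      (x₀ := x₀) (P.self_mem_clu hx₀) (fun y hy => (P.mem_clu.mp hy).2) (c := 2 * θ)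
      (by positivity) (fun l _ hl => (ht2 v l hl x₀ hx₀).le)
    have hst := H.star hBA hBne b hτ0 (le_max_right _ _)
    have hGB := P.Gp_nonneg b B
    set β : ℝ := (B.card : ℝ) / A.card with hβ
    have hβ0 : 0 < β := by positivity
    have hβθ : θ < β := by rw [hβ, lt_div_iff₀ hn]; exact hBc
    have hlg : P.lg A.card - P.lg B.card ≤ P.lg (1 / θ) := by
      rw [← P.lg_div hn.ne' hBpos.ne']
      refine P.lg_mono (by positivity) ?_
      rw [div_le_div_iff₀ hBpos hθ0]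
      linarith
    have hsum : ∑ x ∈ B, ∑ y ∈ A, P.og b x y ≤ P.Gp b A :=
      Finset.sum_le_sum_of_subset_of_nonneg hBA fun x _ _ =>
        Finset.sum_nonneg fun y _ => P.og_nonneg b x y
    -- divide by |B|^2
    have h1 : ((t v - (b v + 1) : ℤ) : ℝ) * (2 * θ) ^ 2 * (B.card : ℝ) ^ 2 ≤
        (B.card : ℝ) ^ 2 * (P.lg (1 / θ) + 2 * C) + τ * B.card +
          2 * β * (2 * s * (n ^ 2 * η + τ * n)) := by
      have h2 : (B.card : ℝ) ^ 2 * (P.lg A.card - P.lg B.card + 2 * C) ≤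
          (B.card : ℝ) ^ 2 * (P.lg (1 / θ) + 2 * C) :=
        mul_le_mul_of_nonneg_left (by linarith) (by positivity)
      have h3 : 2 * β * ∑ x ∈ B, ∑ y ∈ A, P.og b x y ≤ 2 * β * (2 * s * (n ^ 2 * η + τ * n)) :=
        mul_le_mul_of_nonneg_left (hsum.trans hG) (by positivity)
      linarith
    have h2 : τ * B.card ≤ (B.card : ℝ) ^ 2 * (τ / (θ * n)) := by
      have h3 : (B.card : ℝ) ^ 2 * (τ / (θ * n)) = τ * B.card * (B.card / (θ * n)) := by
        field_simp
      rw [h3]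
      refine le_mul_of_one_le_right (by positivity) ?_
      rw [le_div_iff₀ (by positivity)]
      linarith
    have h3 : 2 * β * (2 * s * (n ^ 2 * η + τ * n)) ≤
        (B.card : ℝ) ^ 2 * (4 * s / θ * (η + τ / n)) := by
      have h4 : 2 * β * (2 * s * (n ^ 2 * η + τ * n)) = (β * n) * n * (4 * s * (η + τ / n)) := by
        field_simp; ring
      have h5 : β * n = B.card := by rw [hβ]; exact div_mul_cancel₀ _ hn.ne'
      rw [h4, h5]
      have h6 : (B.card : ℝ) ^ 2 * (4 * s / θ * (η + τ / n)) =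
          (B.card * (B.card / θ)) * (4 * s * (η + τ / n)) := by field_simp
      rw [h6]
      refine mul_le_mul_of_nonneg_right (mul_le_mul_of_nonneg_left ?_ hBpos.le) (by positivity)
      rw [le_div_iff₀ hθ0]
      linarith
    have h4 : ((t v - (b v + 1) : ℤ) : ℝ) * (2 * θ) ^ 2 ≤ K₀ + K₀' * (τ / n) := by
      have h5 : ((t v - (b v + 1) : ℤ) : ℝ) * (2 * θ) ^ 2 * (B.card : ℝ) ^ 2 ≤
          (K₀ + K₀' * (τ / n)) * (B.card : ℝ) ^ 2 := by
        have h6 : (K₀ + K₀' * (τ / n)) * (B.card : ℝ) ^ 2 =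
            (B.card : ℝ) ^ 2 * (P.lg (1 / θ) + 2 * C) + (B.card : ℝ) ^ 2 * (τ / (θ * n)) +
              (B.card : ℝ) ^ 2 * (4 * s / θ * (η + τ / n)) := by
          rw [hK₀, hK₀']; field_simp; ring
        rw [h6]
        linarith
      exact le_of_mul_le_mul_right h5 (by positivity)
    have h5 : ((t v - b v : ℤ) : ℝ) = ((t v - (b v + 1) : ℤ) : ℝ) + 1 := by push_cast; ring
    have h6 : ((t v - (b v + 1) : ℤ) : ℝ) ≤ (K₀ + K₀' * (τ / n)) / (2 * θ) ^ 2 := by
      rw [le_div_iff₀ (by positivity)]; exact h4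
    have hτn : 0 ≤ τ / n := by positivity
    have h7 : (K₀ + K₀' * (τ / n)) / (2 * θ) ^ 2 ≤ (K₀ + K₀') / (2 * θ) ^ 2 * (1 + τ / n) := by
      rw [div_mul_eq_mul_div]
      refine div_le_div_of_nonneg_right ?_ (by positivity)
      have h8 := mul_nonneg hK₀0 hτn
      have h9 : (K₀ + K₀') * (1 + τ / n) = K₀ + K₀' + K₀ * (τ / n) + K₀' * (τ / n) := by ring
      rw [h9]
      linarith
    have h8 : K₁ * (1 + τ / n) = 1 + τ / n + (K₀ + K₀') / (2 * θ) ^ 2 * (1 + τ / n) := by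
      rw [hK₁]; ring
    rw [h5, h8]
    linarith
  have hdeg : (P.deg t : ℝ) - P.deg b ≤ K₂ * (1 + τ / n) := by
    have h1 : (P.deg t : ℝ) - P.deg b = ∑ v, (P.d v : ℝ) * ((t v - b v : ℤ) : ℝ) := by
      unfold deg
      push_cast
      rw [← Finset.sum_sub_distrib]
      exact Finset.sum_congr rfl fun v _ => by ring
    rw [h1]
    calc ∑ v, (P.d v : ℝ) * ((t v - b v : ℤ) : ℝ) ≤ ∑ v, (P.d v : ℝ) * (K₁ * (1 + τ / n)) :=
          Finset.sum_le_sum fun v _ => mul_le_mul_of_nonneg_left (hdiff v) (by positivity)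
      _ = K₂ * (1 + τ / n) := by rw [← Finset.sum_mul, ← hsd, hK₂]; ring
  have hK₂n : K₂ ≤ n := by linarith
  have hχ := le_abs_self (P.χ : ℝ)
  have hbnn : (0 : ℝ) ≤ P.deg b := by
    by_contra hcon
    push Not at hcon
    have hτ' : τ = -(P.deg b : ℝ) := max_eq_right (by linarith)
    have h1 : K₂ * (τ / n) ≤ τ := by
      rw [← mul_div_assoc, div_le_iff₀ hn, mul_comm]
      exact mul_le_mul_of_nonneg_left hK₂n hτ0
    have h2 : (P.deg t : ℝ) ≤ K₂ := by
      have h6 : K₂ * (1 + τ / n) = K₂ + K₂ * (τ / n) := by ring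
      linarith
    have h3 : P.lg n ≤ K₂ + |(P.χ : ℝ)| + P.lg 2 := by linarith
    have h4 : P.lg (2 * (P.q : ℝ) ^ (K₂ + |(P.χ : ℝ)|)) < P.lg n := by
      refine Real.logb_lt_logb P.one_lt_q' (by positivity) ?_
      linarith
    rw [P.lg_mul (by norm_num) hqr.ne'] at h4
    have h5 : P.lg ((P.q : ℝ) ^ (K₂ + |(P.χ : ℝ)|)) = K₂ + |(P.χ : ℝ)| := by
      unfold lg
      exact Real.logb_rpow P.q_pos' P.one_lt_q'.ne'
    rw [h5] at h4
    linarith
  have hτ' : τ = 0 := max_eq_left (by linarith)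
  rw [hτ', zero_div, add_zero, mul_one] at hdeg
  refine ⟨b, hb1, ?_⟩
  have : 0 < (P.q : ℝ) ^ c₁ := hqc
  linarith

end Pack

end Pool.Agent.Work.MP_b29d7f_nt.FF
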